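import Pool.Agent.Work.MP_58a5a1_lc.Int2

/-! The polarized relation in the model. -/

namespace Pool.Agent.Work.MP_58a5a1_lc
open Pool.Agent.Lib.ZFModel Pool.Agent.Work.MP_63c7e0_lc

set_option synthInstance.maxSize 100000

variable {M : Type 1} {E : M → M → Prop}
variable {J : Type} [LinearOrder J]

/-- `K` is unbounded in `ν`. -/
def Unb (D : MD E J) (K : M) (ν : J) : Prop := ∀ γ < ν, ∃ α, γ ≤ α ∧ α < ν ∧ E (D.ord α) K

variable (zf : IsZF E) [WellFoundedLT J] (D : MD E J)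
include zf

theorem card_limit {ν : J} (hν : IsCard E (D.ord ν)) (hw : D.w < ν) {γ : J} (hγ : γ < ν) :
    ∃ γ', γ < γ' ∧ γ' < ν := by
  have := zf.nonempty
  by_contra h
  have h1 : ∀ x < ν, x ≤ γ := fun x hx => not_lt.1 fun h' => h ⟨x, h', hx⟩
  refine hν.2 _ ((ord_lt zf D).2 hγ) (Le.injects zf D (le_of_rel zf _ _ (fun x y =>
    (E x (D.ord D.w) ∧ ∀ z, E z y ↔ E z x ∨ z = x) ∨ (x = D.ord γ ∧ IsEmptySet E y) ∨
      (¬ E x (D.ord D.w) ∧ ¬ x = D.ord γ ∧ y = x)) ((forall_ord D).2 fun x hx => ?_) ?_))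
  · by_cases h2 : x < D.w
    · obtain ⟨n, rfl⟩ := (D.lt_w _).1 h2
      exact ⟨_, (ord_lt zf D).2 ((nat_lt_w D (n + 1)).trans_le (h1 _ hw)),
        Or.inl ⟨(ord_lt zf D).2 h2, mem_nat_succ D n⟩⟩
    by_cases h3 : x = γ
    · exact ⟨_, (ord_lt zf D).2 ((nat_lt_w D 0).trans_le (h1 _ hw)),
        Or.inr (Or.inl ⟨h3 ▸ rfl, empty_nat_zero D⟩)⟩
    · exact ⟨_, (ord_lt zf D).2 ((h1 x hx).lt_of_ne h3), Or.inr (Or.inr
        ⟨fun h => h2 ((ord_lt zf D).1 h), fun h => h3 (ord_inj zf D h), rfl⟩)⟩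
  · have k : ∀ x y, E x (D.ord D.w) → (∀ z, E z y ↔ E z x ∨ z = x) →
        ∃ n, x = D.ord (D.nat n) ∧ y = D.ord (D.nat (n + 1)) := by
      intro x y l1 l2
      obtain ⟨x, l3, rfl⟩ := (D.mem_ord _ _).1 l1
      obtain ⟨n, rfl⟩ := (D.lt_w _).1 l3
      exact ⟨n, rfl, zf.extensionality _ _ fun z => (l2 z).trans (mem_nat_succ D n z).symm⟩
    have k0 : ∀ y, IsEmptySet E y → E y (D.ord D.w) := fun y hy =>
      empty_unique zf (empty_nat_zero D) hy ▸ (ord_lt zf D).2 (nat_lt_w D 0)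
    rintro x x' y - - - (⟨l1, l2⟩ | ⟨l1, l2⟩ | ⟨l1, l2, rfl⟩)
      (⟨l3, l4⟩ | ⟨l3, l4⟩ | ⟨l3, l4, l5⟩)
    · obtain ⟨n, rfl, rfl⟩ := k _ _ l1 l2
      obtain ⟨m, rfl, l5⟩ := k _ _ l3 l4
      have l6 := ord_inj zf D l5
      rcases lt_trichotomy n m with l | l | l
      · exact absurd l6 (nat_lt_nat D (Nat.succ_lt_succ l)).ne
      · rw [l]
      · exact absurd l6 (nat_lt_nat D (Nat.succ_lt_succ l)).ne'
    · exact absurd ((l2 x).2 (Or.inr rfl)) (l4 x)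
    · obtain ⟨n, rfl, rfl⟩ := k _ _ l1 l2
      exact absurd (l5 ▸ (ord_lt zf D).2 (nat_lt_w D (n + 1))) l3
    · exact absurd ((l4 x').2 (Or.inr rfl)) (l2 x')
    · exact l1.trans l3.symm
    · exact absurd (l5 ▸ k0 y l2) l3
    · obtain ⟨n, rfl, rfl⟩ := k _ _ l3 l4
      exact absurd ((ord_lt zf D).2 (nat_lt_w D (n + 1))) l1
    · exact absurd (k0 y l4) l1
    · exact l5

theorem reg_bound {ν : J} (hν : IsCard E (D.ord ν)) (h : RegM E D.ord ν) (f : M) {β : J}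
    (hβ : β < ν) (hf : ∀ x y y', App E f x y → App E f x y' → y = y') :
    ∃ γ < ν, ∀ b < β, ∀ c < ν, App E f (D.ord b) (D.ord c) → c ≤ γ := by
  refine (h f β hβ fun b c c' h1 h2 => ord_inj zf D (hf _ _ _ h1 h2)).resolve_right ?_
  rintro ⟨b, h1, i, h2⟩
  exact hν.2 _ ((ord_lt zf D).2 h1) ((h2.le D).injects zf D)

theorem equinum_of_unb {ν : J} (hν : IsCard E (D.ord ν)) (hw : D.w < ν) (h : RegM E D.ord ν)
    {A : M} (hA : Sub E A (D.ord ν)) (hU : Unb D A ν) : Equinum E A (D.ord ν) := by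
  have := zf.nonempty
  obtain ⟨d, hd, g, hg⟩ := order_type zf D hA
  rcases hd.eq_or_lt with rfl | hd
  · exact ⟨g, hg⟩
  obtain ⟨f, -, hf⟩ := exists_rel zf (D.ord d) A fun z y => App E g y z
  obtain ⟨γ, h1, h2⟩ := reg_bound zf D hν h f hd fun x y y' h1 h2 =>
    hg.2.1 y y' x ((hf _ _).1 h1).2.2 ((hf _ _).1 h2).2.2
  obtain ⟨γ', h3, h4⟩ := card_limit zf D hν hw h1
  obtain ⟨α, h5, h6, h7⟩ := hU γ' h4
  obtain ⟨z, hz⟩ := hg.1.2.1 _ h7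
  have h8 := (hg.1.mem zf hz).2
  obtain ⟨b, h9, rfl⟩ := (D.mem_ord _ _).1 h8
  exact absurd (h2 b h9 α h6 ((hf _ _).2 ⟨h8, h7, hz⟩)) (not_le.2 (h3.trans_le h5))

theorem pigeon {ν : J} (hν : IsCard E (D.ord ν)) (hl : D.lam < ν) (h : RegM E D.ord ν)
    {K : M} (hK : Unb D K ν) (G : M) : ∃ K', Sub E K' K ∧ Sub E K' (D.ord ν) ∧ Unb D K' ν ∧
      ∀ α α' x, E α K' → E α' K' → E x (D.ord D.w) → App E G α x → App E G α' x := by
  have := zf.nonempty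
  obtain ⟨b, h1, S, hS⟩ := pow_code zf D D.w_lt.le
  have h2 : ∃ z < b, ∀ γ < ν, ∃ α, γ ≤ α ∧ α < ν ∧ E (D.ord α) K ∧
      ∀ x, E x (D.ord D.w) → (App E G (D.ord α) x ↔ App E S (D.ord z) x) := by
    by_contra h2
    push Not at h2
    obtain ⟨f, -, hf⟩ := exists_rel zf (D.ord b) (D.ord ν) fun z γ =>
      (∀ α, E α (D.ord ν) → E α K → (∀ x, E x (D.ord D.w) → (App E G α x ↔ App E S z x)) →
        E α γ) ∧ ∀ γ', E γ' γ → ¬ ∀ α, E α (D.ord ν) → E α K →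
          (∀ x, E x (D.ord D.w) → (App E G α x ↔ App E S z x)) → E α γ'
    obtain ⟨γ, h3, h4⟩ := reg_bound zf D hν h f ((h1 D.w_lt).trans hl) fun x y y' h1 h2 => by
      obtain ⟨-, l1, l2, l3⟩ := (hf _ _).1 h1
      obtain ⟨-, l4, l5, l6⟩ := (hf _ _).1 h2
      rcases (isOrd_ord zf D ν).2 y y' l1 l4 with l | l | l
      · exact absurd l2 (l6 y l)
      · exact l
      · exact absurd l5 (l3 y' l)
    obtain ⟨α, h5, h6, h7⟩ := hK γ h3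
    obtain ⟨Y, hY⟩ := zf.sep (D.ord D.w) fun x => App E G (D.ord α) x
    obtain ⟨z, h8, h9⟩ := hS Y
    obtain ⟨c, ⟨l1, l2⟩, l3⟩ := wellFounded_lt.has_min {c | c < ν ∧ ∀ α, E α (D.ord ν) → E α K →
        (∀ x, E x (D.ord D.w) → (App E G α x ↔ App E S (D.ord z) x)) → E α (D.ord c)} (by
      obtain ⟨c, l1, l2⟩ := h2 z h8
      refine ⟨c, l1, (forall_ord D).2 fun α' l3 l4 l5 => (ord_lt zf D).2 (not_le.1 fun l6 => ?_)⟩
      obtain ⟨x, l7, l8⟩ := l2 α' l6 l3 l4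
      have := l5 x l7
      tauto)
    have l4 := h4 z h8 c l1 ((hf _ _).2 ⟨(ord_lt zf D).2 h8, (ord_lt zf D).2 l1, l2,
      (forall_ord D).2 fun c' l4 l5 => l3 c' ⟨l4.trans l1, l5⟩ l4⟩)
    have l5 := l2 _ ((ord_lt zf D).2 h6) h7 fun x hx =>
      Iff.trans ⟨fun l => (hY x).2 ⟨hx, l⟩, fun l => ((hY x).1 l).2⟩ (h9 x hx)
    exact absurd ((ord_lt zf D).1 l5) (not_lt.2 (l4.trans h5))
  obtain ⟨z, -, h3⟩ := h2
  obtain ⟨K', hK'⟩ := zf.sep (D.ord ν) fun α => E α K ∧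
    ∀ x, E x (D.ord D.w) → (App E G α x ↔ App E S (D.ord z) x)
  refine ⟨K', fun x hx => ((hK' x).1 hx).2.1, fun x hx => ((hK' x).1 hx).1, fun γ hγ => ?_,
    fun α α' x l1 l2 l3 l4 => (((hK' _).1 l2).2.2 x l3).2 ((((hK' _).1 l1).2.2 x l3).1 l4)⟩
  obtain ⟨α, l1, l2, l3⟩ := h3 γ hγ
  exact ⟨α, l1, l2, (hK' _).2 ⟨(ord_lt zf D).2 l2, l3⟩⟩

theorem equinum_lam {B : M} (hB : Sub E B (D.ord D.lam))
    (h : ∀ N, ∃ n, N ≤ n ∧ Le E (D.ord (D.kk n)) B) : Equinum E B (D.ord D.lam) := by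
  obtain ⟨d, hd, g, hg⟩ := order_type zf D hB
  rcases hd.eq_or_lt with rfl | hd
  · exact ⟨g, hg⟩
  obtain ⟨b, h1, h2⟩ := exists_not_le zf D hd
  obtain ⟨N, hN⟩ := D.kk_cof b h1
  obtain ⟨n, h3, h4⟩ := h N
  exact absurd (((le_of_sub zf (ord_sub D (hN.le.trans (D.kk_mono h3)))).trans zf h4).trans zf
    (IsBij.le zf hg)) h2

theorem polarized_ord {ν : J} (hν : IsCard E (D.ord ν)) (hl : D.lam < ν) :
    Polarized E (D.ord ν) (D.ord D.lam) := by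
  have := zf.nonempty
  obtain ⟨hR, hP⟩ := (D.big ν hl).resolve_left fun ⟨b, h1, f, h2⟩ =>
    hν.2 _ ((ord_lt zf D).2 h1) ((h2.le D).injects zf D)
  intro W t c hW ht hc
  obtain ⟨e, he⟩ := exists_empty zf
  obtain ⟨s, hs⟩ := exists_sing zf e
  obtain ⟨C, -, hC⟩ := exists_rel zf (D.ord ν) (D.ord D.lam) fun α y =>
    ∃ p, IsPair E p α y ∧ App E c p s
  obtain ⟨K, B, h1, ⟨n₀, h2⟩, h3⟩ := hP C
  have hG : ∀ i, ∃ G, ∀ α x, App E G α x ↔ E α (D.ord ν) ∧ E x (D.ord D.w) ∧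
      ∀ y, E y (D.ord D.lam) → App E B x y → ∀ p, IsPair E p α y → App E c p i := fun i => by
    obtain ⟨G, -, hG⟩ := exists_rel zf (D.ord ν) (D.ord D.w) fun α x =>
      ∀ y, E y (D.ord D.lam) → App E B x y → ∀ p, IsPair E p α y → App E c p i
    exact ⟨G, hG⟩
  choose G hG using hG
  obtain ⟨K₀, hK₀⟩ := zf.sep (D.ord ν) fun α => App E K (D.ord (D.nat 0)) α
  obtain ⟨K₁, k1, -, k2, k3⟩ := pigeon zf D hν hl hR (K := K₀) (fun γ hγ => by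
    obtain ⟨α, l1, l2, l3⟩ := h1 γ hγ
    exact ⟨α, l1, l2, (hK₀ _).2 ⟨(ord_lt zf D).2 l2, l3⟩⟩) (G e)
  obtain ⟨A, k4, k5, k6, k7⟩ := pigeon zf D hν hl hR k2 (G s)
  obtain ⟨α₀, -, a1, a2⟩ := k6 _ hl
  obtain ⟨m, hm⟩ := h3 α₀ ((hK₀ _).1 (k1 _ (k4 _ a2))).2
  have h4 : ∀ n, m ≤ n → App E (G e) (D.ord α₀) (D.ord (D.nat n)) ∨
      App E (G s) (D.ord α₀) (D.ord (D.nat n)) := by
    intro n hn
    have l1 := (ord_lt zf D).2 a1
    have l2 := (ord_lt zf D).2 (nat_lt_w D n)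
    by_cases h : ∃ y, Ap E D.ord B (D.nat n) y ∧ Ap E D.ord C α₀ y
    · obtain ⟨y, l3, l4⟩ := h
      refine Or.inr ((hG _ _ _).2 ⟨l1, l2, (forall_ord D).2 fun y' _ l5 p hp => ?_⟩)
      obtain ⟨-, -, p', l6, l7⟩ := (hC _ _).1 (hm n hn y y' l3 l5 l4)
      exact pair_unique zf l6 hp ▸ l7
    · refine Or.inl ((hG _ _ _).2 ⟨l1, l2, (forall_ord D).2 fun y l4 l5 p hp => ?_⟩)
      have l6 := (ord_lt zf D).2 l4
      obtain ⟨v, hv⟩ := hc.2.1 p ((hW p).2 ⟨_, _, l1, l6, hp⟩)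
      rcases (ht v).1 (hc.mem zf hv).2 with l | ⟨e', l7, l8⟩
      · exact empty_unique zf l he ▸ hv
      · obtain rfl := empty_unique zf l7 he
        exact absurd ⟨y, l5, (hC _ _).2 ⟨l1, l6, p, hp, sing_unique zf l8 hs ▸ hv⟩⟩ h
  obtain ⟨i, hi⟩ : ∃ i, ∀ N, ∃ n, N ≤ n ∧ ∀ α, E α A → App E (G i) α (D.ord (D.nat n)) := by
    by_cases h : ∀ N, ∃ n, N ≤ n ∧ App E (G e) (D.ord α₀) (D.ord (D.nat n))
    · refine ⟨e, fun N => ?_⟩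
      obtain ⟨n, l1, l2⟩ := h N
      exact ⟨n, l1, fun α hα => k3 _ _ _ (k4 _ a2) (k4 _ hα) ((ord_lt zf D).2 (nat_lt_w D n)) l2⟩
    · push Not at h
      obtain ⟨N₀, h⟩ := h
      exact ⟨s, fun N => ⟨max N (max m N₀), le_max_left _ _, fun α hα => k7 _ _ _ a2 hα
        ((ord_lt zf D).2 (nat_lt_w D _)) ((h4 _ (by omega)).resolve_left (h _ (by omega)))⟩⟩
  obtain ⟨B', hB'⟩ := zf.sep (D.ord D.lam) fun y => ∀ α, E α A → ∀ p, IsPair E p α y → App E c p i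
  refine ⟨A, B', i, k5, equinum_of_unb zf D hν (D.w_lt.trans hl) hR k5 k6,
    fun x hx => ((hB' x).1 hx).1, equinum_lam zf D (fun x hx => ((hB' x).1 hx).1) fun N => ?_,
    fun a b p l1 l2 => ((hB' b).1 l2).2 a l1 p⟩
  obtain ⟨n, l1, l2⟩ := hi (max N n₀)
  obtain ⟨j, l3, l4⟩ := h2 n (le_of_max_le_right l1)
  refine ⟨n, le_of_max_le_left l1, j, (forall_ord D).2 fun x hx => ?_,
    fun x x' y hx hx' hy l5 l6 => ?_⟩
  · obtain ⟨y, l5, l6⟩ := l3.1 x hx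
    exact ⟨_, (hB' _).2 ⟨(ord_lt zf D).2 l5, fun α hα =>
      ((hG _ _ _).1 (l2 α hα)).2.2 _ ((ord_lt zf D).2 l5) (l4 x y l6)⟩, l6⟩
  · obtain ⟨x, -, rfl⟩ := (D.mem_ord _ _).1 hx
    obtain ⟨x', -, rfl⟩ := (D.mem_ord _ _).1 hx'
    obtain ⟨y, -, rfl⟩ := (D.mem_ord _ _).1 ((hB' y).1 hy).1
    rw [l3.2 x x' y l5 l6]

theorem polarized {μ W : M} (hμ : IsCard E μ) (hl : E (D.ord D.lam) μ)
    (hW : IsPow E W (D.ord D.lam)) (h : Injects E μ W) : Polarized E μ (D.ord D.lam) := by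
  obtain ⟨b, -, h1⟩ := pow_le zf D le_rfl hW
  obtain ⟨ν, -, rfl⟩ := (trichotomy zf D hμ.1 b).resolve_left fun h2 =>
    hμ.2 _ h2 (((h.le zf).trans zf h1).injects zf D)
  exact polarized_ord zf D hμ ((ord_lt zf D).1 hl)

end Pool.Agent.Work.MP_58a5a1_lc
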