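import Mathlib.SetTheory.Cardinal.Pigeonhole
import Mathlib.SetTheory.Cardinal.Regular
import Mathlib.SetTheory.Cardinal.Arithmetic

/-! Cardinal bookkeeping, transfinite reduction along a closed order, small predense subsets and
posets of small functions. -/

namespace Pool.Agent.Work.MP_58a5a1_lc
open Cardinal Set Order

section small
variable {α β : Type} {μ : Cardinal.{0}}

theorem sm_mono {s t : Set α} (h : s ⊆ t) (ht : #t ≤ μ) : #s ≤ μ :=
  (mk_le_mk_of_subset h).trans ht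

theorem sm_image (f : α → β) {s : Set α} (hs : #s ≤ μ) : #(f '' s) ≤ μ := mk_image_le.trans hs

theorem sm_range (f : α → β) (h : #α ≤ μ) : #(range f) ≤ μ := mk_range_le.trans h

theorem sm_union (hμ : ℵ₀ ≤ μ) {s t : Set α} (hs : #s ≤ μ) (ht : #t ≤ μ) : #(s ∪ t : Set α) ≤ μ :=
  (mk_union_le s t).trans ((add_le_add hs ht).trans (add_eq_self hμ).le)

theorem sm_prod (hμ : ℵ₀ ≤ μ) {s : Set α} {t : Set β} (hs : #s ≤ μ) (ht : #t ≤ μ) :
    #(s ×ˢ t : Set (α × β)) ≤ μ := by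
  rw [mk_setProd]
  exact (mul_le_mul' hs ht).trans (mul_eq_self hμ).le

theorem sm_univ (h : #α ≤ μ) : #(univ : Set α) ≤ μ := by rwa [mk_univ]

theorem sm_count [Countable α] (hμ : ℵ₀ ≤ μ) (s : Set α) : #s ≤ μ := mk_le_aleph0.trans hμ

theorem sm_sing (hμ : ℵ₀ ≤ μ) (a : α) : #({a} : Set α) ≤ μ := by
  rw [mk_singleton]; exact one_le_aleph0.trans hμ

theorem sm_iUnion (hμ : ℵ₀ ≤ μ) {ι : Type} (hι : #ι ≤ μ) {t : ι → Set α} (ht : ∀ i, #(t i) ≤ μ) :
    #(⋃ i, t i) ≤ μ := by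
  refine (mk_iUnion_le t).trans ((mul_le_mul' hι (ciSup_le' ht)).trans (mul_eq_self hμ).le)

theorem sm_biUnion (hμ : ℵ₀ ≤ μ) {s : Set β} (hs : #s ≤ μ) {t : β → Set α}
    (ht : ∀ i ∈ s, #(t i) ≤ μ) : #(⋃ i ∈ s, t i) ≤ μ := by
  rw [biUnion_eq_iUnion]
  exact sm_iUnion hμ hs fun i => ht i.1 i.2

theorem sm_pow {s : Set α} (hs : #s ≤ μ) : #(𝒫 s) ≤ 2 ^ μ := by
  rw [mk_powerset]
  exact power_le_power_left two_ne_zero hs

theorem sm_inj {s : Set α} {t : Set β} (f : α → β) (hf : InjOn f s) (h : MapsTo f s t)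
    (ht : #t ≤ μ) : #s ≤ μ := by
  rw [← mk_image_eq_of_injOn f s hf]
  exact sm_mono h.image_subset ht

theorem lt_union {θ : Cardinal.{0}} (hθ : ℵ₀ ≤ θ) {s t : Set α} (hs : #s < θ) (ht : #t < θ) :
    #(s ∪ t : Set α) < θ := (mk_union_le s t).trans_lt (add_lt_of_lt hθ hs ht)

/-- Sequences whose first `k` values lie in small sets and which are constant afterwards. -/
theorem sm_seq (hμ : ℵ₀ ≤ μ) (Z : ℕ → Set α) (a₀ : α) (k : ℕ) (hZ : ∀ m < k, #(Z m) ≤ μ) :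
    #{t : ℕ → α | (∀ m < k, t m ∈ Z m) ∧ ∀ m, k ≤ m → t m = a₀} ≤ μ := by
  induction k with
  | zero =>
    refine sm_mono (t := {fun _ => a₀}) (fun t ht => funext fun m => ht.2 m (Nat.zero_le m)) ?_
    rw [mk_singleton]; exact one_le_aleph0.trans hμ
  | succ k ih =>
    refine sm_mono ?_ (sm_image (fun x : (ℕ → α) × α => Function.update x.1 k x.2)
      (sm_prod hμ (ih fun m hm => hZ m (by omega)) (hZ k (by omega))))
    intro t ht
    refine ⟨(Function.update t k a₀, t k), ⟨⟨fun m hm => ?_, fun m hm => ?_⟩, ht.1 k (by omega)⟩, ?_⟩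
    · show Function.update t k a₀ m ∈ _
      rw [Function.update_of_ne hm.ne]; exact ht.1 m (by omega)
    · show Function.update t k a₀ m = _
      rcases eq_or_lt_of_le hm with rfl | h
      · simp
      · rw [Function.update_of_ne h.ne']; exact ht.2 m h
    · simp

end small

theorem exists_rec {S β : Type} [LinearOrder S] [WellFoundedLT S] (b₀ : β)
    (step : S → (S → β) → β)
    (h : ∀ k f g, (∀ j < k, f j = g j) → step k f = step k g) :
    ∃ M : S → β, ∀ k, M k = step k M := by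
  classical
  let F : ∀ k : S, (∀ j, j < k → β) → β :=
    fun k IH => step k (fun j => if h : j < k then IH j h else b₀)
  refine ⟨WellFounded.fix wellFounded_lt F, fun k => ?_⟩
  rw [WellFounded.fix_eq]
  exact h k _ _ (fun j hj => by simp [hj])

/-- Chains with fewer than `θ` members have lower bounds. -/
def Closed {Q : Type} (R : Q → Q → Prop) (θ : Cardinal.{0}) : Prop :=
  ∀ (ι : Type) (q : ι → Q), Nonempty ι → #ι < θ → (∀ i j, R (q i) (q j) ∨ R (q j) (q i)) →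
    ∃ r, ∀ i, R r (q i)

theorem reduce {Q : Type} {R : Q → Q → Prop} (hrefl : ∀ q, R q q)
    (htrans : ∀ p q r, R p q → R q r → R p r) {θ : Cardinal.{0}} (hθ : ℵ₀ ≤ θ) (hcl : Closed R θ)
    {J : Type} (I : Set J) (hI : #I < θ) (Z : J → Q → Prop)
    (hZ : ∀ i ∈ I, ∀ q r, R r q → Z i q → Z i r) (q₀ : Q) :
    ∃ q, R q q₀ ∧ ∀ i ∈ I, ∀ r, R r q → Z i r → Z i q := by
  classical
  obtain ⟨_, _⟩ := exists_wellFoundedLT I
  let Spec : I → (I → Q) → Q → Prop := fun i g r =>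
    R r q₀ ∧ (∀ j < i, R r (g j)) ∧ ∀ r', R r' r → Z i r' → Z i r
  obtain ⟨M, hM⟩ := exists_rec q₀ (fun i g => if h : ∃ r, Spec i g r then h.choose else q₀)
    (fun k f g hfg => by
      have : Spec k f = Spec k g := by
        funext r
        exact propext (and_congr_right fun _ => and_congr_left fun _ =>
          forall₂_congr fun j hj => by rw [hfg j hj])
      simp only [this])
  have hlb : ∀ s : Set I, (∀ j ∈ s, Spec j M (M j)) → ∃ r, R r q₀ ∧ ∀ j ∈ s, R r (M j) := by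
    intro s hs
    obtain ⟨r, hr⟩ := hcl (Option s) (fun o => o.elim q₀ fun j => M j) ⟨none⟩
      (by rw [mk_option]; exact add_lt_of_lt hθ ((mk_set_le s).trans_lt hI) (one_lt_aleph0.trans_le hθ))
      (by
        rintro (_ | i) (_ | j)
        · exact Or.inl (hrefl _)
        · exact Or.inr (hs j j.2).1
        · exact Or.inl (hs i i.2).1
        · rcases lt_trichotomy i.1 j.1 with h | h | h
          · exact Or.inr ((hs j j.2).2.1 _ h)
          · left; simp only [Option.elim, h]; exact hrefl _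
          · exact Or.inl ((hs i i.2).2.1 _ h))
    exact ⟨r, hr none, fun j hj => hr (some ⟨j, hj⟩)⟩
  have key : ∀ i, Spec i M (M i) := by
    intro i
    induction i using WellFoundedLT.induction with
    | ind i ih =>
      have h : ∃ r, Spec i M r := by
        obtain ⟨r, h1, h2⟩ := hlb (Iio i) ih
        by_cases hc : ∃ r', R r' r ∧ Z i r'
        · obtain ⟨r', h3, h4⟩ := hc
          exact ⟨r', htrans _ _ _ h3 h1, fun j hj => htrans _ _ _ h3 (h2 j hj), fun _ _ _ => h4⟩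
        · exact ⟨r, h1, h2, fun r' h3 h4 => absurd ⟨r', h3, h4⟩ hc⟩
      rw [hM i, dif_pos h]
      exact h.choose_spec
  obtain ⟨r, h1, h2⟩ := hlb univ fun j _ => key j
  refine ⟨r, h1, fun i hi r' h3 h4 => ?_⟩
  have h5 := h2 ⟨i, hi⟩ trivial
  exact hZ i hi _ _ h5 ((key ⟨i, hi⟩).2.2 r' (htrans _ _ _ h3 h5) h4)

/-- A set of size at most `μ⁺` closed under an operation on sets of size at most `μ`. -/
theorem exists_closed {O : Type} {μ : Cardinal.{0}} (hμ : ℵ₀ ≤ μ) (h2 : 2 ^ μ = succ μ)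
    (F : Set O → Set O) (hF : ∀ s : Set O, #s ≤ μ → #(F s) ≤ succ μ) :
    ∃ S : Set O, #S ≤ succ μ ∧ ∀ s ⊆ S, #s ≤ μ → F s ⊆ S := by
  have hμ' : ℵ₀ ≤ succ μ := hμ.trans (le_succ μ)
  have hsub : ∀ T : Set O, #T ≤ succ μ → #{s : Set O | s ⊆ T ∧ #s ≤ μ} ≤ succ μ := by
    intro T hT
    refine (mk_bounded_subset_le T μ).trans ?_
    refine (power_le_power_right (max_le hT hμ')).trans ?_
    rw [← h2, ← power_mul, mul_eq_self hμ]
  let I := (succ μ).ord.ToType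
  have hI : #I = succ μ := by simp [I]
  obtain ⟨S, hS⟩ := exists_rec (S := I) (∅ : Set O)
    (fun i g => ⋃ s ∈ {s : Set O | s ⊆ (⋃ j ∈ Iio i, g j) ∧ #s ≤ μ}, F s)
    (fun k f g hfg => by
      have : (⋃ j ∈ Iio k, f j) = ⋃ j ∈ Iio k, g j := iUnion₂_congr hfg
      simp only [this])
  have hsm : ∀ i, #(S i) ≤ succ μ := by
    intro i
    induction i using WellFoundedLT.induction with
    | ind i ih =>
      rw [hS i]
      exact sm_biUnion hμ' (hsub _ (sm_biUnion hμ' ((mk_set_le _).trans hI.le) ih))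
        fun s hs => hF s hs.2
  refine ⟨⋃ i, S i, sm_iUnion hμ' hI.le hsm, fun s hs hsμ => ?_⟩
  choose g hg using fun x : s => mem_iUnion.1 (hs x.2)
  have hb : ∃ i : I, ∀ x, g x < i := by
    by_contra hc
    push Not at hc
    have h1 : (univ : Set I) ⊆ ⋃ x, Iic (g x) := fun i _ => by
      obtain ⟨x, hx⟩ := hc i
      exact mem_iUnion.2 ⟨x, hx⟩
    have h3 : #(univ : Set I) ≤ μ := by
      refine sm_mono h1 (sm_iUnion hμ hsμ fun x => ?_)
      rw [← Iio_union_right]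
      refine sm_union hμ (le_of_lt_succ ?_) (by rw [mk_singleton]; exact one_le_aleph0.trans hμ)
      simpa [I] using mk_Iio_lt (g x) (by simp [I])
    rw [mk_univ, hI] at h3
    exact absurd h3 (not_le.2 (lt_succ μ))
  obtain ⟨i, hi⟩ := hb
  refine Subset.trans ?_ (subset_iUnion _ i)
  rw [hS i]
  refine subset_biUnion_of_mem (u := F) ⟨fun x hx => ?_, hsμ⟩
  exact mem_biUnion (hi ⟨x, hx⟩) (hg ⟨x, hx⟩)

/-- Small predense subsets from a counting of types. -/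
theorem exists_predense {O Q T : Type} {μ : Cardinal.{0}} (hμ : ℵ₀ ≤ μ) (h2 : 2 ^ μ = succ μ)
    (supp : Q → Set O) (hsupp : ∀ p, #(supp p) ≤ μ) (tp : Set O → Q → T)
    (htp : ∀ s : Set O, #s ≤ μ → #(range (tp s)) ≤ succ μ) (C : Q → Q → Prop)
    (hC : ∀ p q s, tp s p = tp s q → supp p ∩ supp q ⊆ s → C p q) (A : Set Q) :
    ∃ B ⊆ A, #B ≤ succ μ ∧ ∀ p ∈ A, ∃ q ∈ B, C p q := by
  have hμ' : ℵ₀ ≤ succ μ := hμ.trans (le_succ μ)
  have h1 : ∀ s, ∃ B ⊆ A, #B ≤ #(range (tp s)) ∧ ∀ p ∈ A, ∃ q ∈ B, tp s p = tp s q := by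
    intro s
    choose g hg using fun t : (tp s '' A) => t.2
    refine ⟨range g, ?_, mk_range_le.trans (mk_le_mk_of_subset (image_subset_range _ _)),
      fun p hp => ⟨g ⟨_, p, hp, rfl⟩, mem_range_self _, (hg ⟨_, p, hp, rfl⟩).2.symm⟩⟩
    rintro _ ⟨t, rfl⟩
    exact (hg t).1
  choose B hB1 hB2 hB3 using h1
  obtain ⟨S, hS1, hS2⟩ := exists_closed hμ h2 (fun s => ⋃ q ∈ B s, supp q) fun s hs =>
    sm_biUnion hμ' ((hB2 s).trans (htp s hs)) fun q _ => (hsupp q).trans (le_succ μ)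
  refine ⟨⋃ s ∈ {s : Set O | s ⊆ S ∧ #s ≤ μ}, B s, iUnion₂_subset fun s _ => hB1 s, ?_,
    fun p hp => ?_⟩
  · refine sm_biUnion hμ' ?_ fun s hs => (hB2 s).trans (htp s hs.2)
    refine (mk_bounded_subset_le S μ).trans ?_
    refine (power_le_power_right (max_le hS1 hμ')).trans ?_
    rw [← h2, ← power_mul, mul_eq_self hμ]
  · have hs : #(supp p ∩ S : Set O) ≤ μ := sm_mono inter_subset_left (hsupp p)
    obtain ⟨q, hq, h⟩ := hB3 (supp p ∩ S) p hp
    refine ⟨q, mem_biUnion (show supp p ∩ S ∈ _ from ⟨inter_subset_right, hs⟩) hq,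
      hC p q _ h fun x hx => ⟨hx.1, hS2 _ inter_subset_right hs (mem_biUnion hq hx.2)⟩⟩

/-- Functions from a subset of `D` to `R` of size less than `θ`, as sets of pairs. -/
def Fn {O : Type} (D R : Set O) (θ : Cardinal.{0}) : Set (Set (O × O)) :=
  {c | c ⊆ D ×ˢ R ∧ (∀ i y y', (i, y) ∈ c → (i, y') ∈ c → y = y') ∧ #c < θ}

section fn
variable {O : Type} {D R : Set O} {θ : Cardinal.{0}}

theorem Fn.empty (h : 0 < θ) : (∅ : Set (O × O)) ∈ Fn D R θ :=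
  ⟨empty_subset _, fun _ _ _ h => h.elim, by simpa using h⟩

theorem Fn.sub {c c' : Set (O × O)} (h : c ∈ Fn D R θ) (h' : c' ⊆ c) : c' ∈ Fn D R θ :=
  ⟨h'.trans h.1, fun i y y' h1 h2 => h.2.1 i y y' (h' h1) (h' h2),
    (mk_le_mk_of_subset h').trans_lt h.2.2⟩

theorem Fn.iUnion (hθ : θ.IsRegular) {ι : Type} (hι : #ι < θ) {c : ι → Set (O × O)}
    (hc : ∀ i, c i ∈ Fn D R θ) (hch : ∀ i j, c i ⊆ c j ∨ c j ⊆ c i) : (⋃ i, c i) ∈ Fn D R θ := by
  refine ⟨iUnion_subset fun i => (hc i).1, fun x y y' h1 h2 => ?_,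
    (card_iUnion_lt_iff_forall_of_isRegular hθ hι).2 fun i => (hc i).2.2⟩
  obtain ⟨i, hi⟩ := mem_iUnion.1 h1
  obtain ⟨j, hj⟩ := mem_iUnion.1 h2
  rcases hch i j with h | h
  · exact (hc j).2.1 _ _ _ (h hi) hj
  · exact (hc i).2.1 _ _ _ hi (h hj)

theorem Fn.reduce (hθ : θ.IsRegular) {J : Type} (I : Set J) (hI : #I < θ)
    (Z : J → Set (O × O) → Prop)
    (hZ : ∀ i ∈ I, ∀ c ∈ Fn D R θ, ∀ d ∈ Fn D R θ, c ⊆ d → Z i c → Z i d) {c₀ : Set (O × O)}
    (h₀ : c₀ ∈ Fn D R θ) :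
    ∃ c ∈ Fn D R θ, c₀ ⊆ c ∧ ∀ i ∈ I, ∀ d ∈ Fn D R θ, c ⊆ d → Z i d → Z i c := by
  obtain ⟨c, h1, h2⟩ := MP_58a5a1_lc.reduce (Q := Fn D R θ) (R := fun d c => c.1 ⊆ d.1)
    (fun _ => Subset.rfl) (fun _ _ _ h h' => h'.trans h) hθ.aleph0_le
    (fun ι q _ hι hch => ⟨⟨⋃ i, (q i).1, Fn.iUnion hθ hι (fun i => (q i).2)
      fun i j => (hch i j).symm⟩, fun i => subset_iUnion (fun i => (q i).1) i⟩)
    I hI (fun i c => Z i c.1) (fun i hi c d h => hZ i hi _ c.2 _ d.2 h) ⟨c₀, h₀⟩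
  exact ⟨c.1, c.2, h1, fun i hi d hd h => h2 i hi ⟨d, hd⟩ h⟩

/-- A new value can be added. -/
theorem Fn.extend (hθ : ℵ₀ ≤ θ) (hD : θ ≤ #D) {c : Set (O × O)} (hc : c ∈ Fn D R θ) {y : O}
    (hy : y ∈ R) : ∃ i ∈ D, insert (i, y) c ∈ Fn D R θ := by
  have h1 : ∃ i ∈ D, i ∉ Prod.fst '' c := by
    by_contra h
    push Not at h
    exact absurd (hD.trans ((mk_le_mk_of_subset h).trans mk_image_le)) (not_le.2 hc.2.2)
  obtain ⟨i, hi, h⟩ := h1
  refine ⟨i, hi, insert_subset ⟨hi, hy⟩ hc.1, ?_, ?_⟩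
  · rintro j z z' (h1 | h1) (h2 | h2)
    · exact (Prod.mk.inj h1).2.trans (Prod.mk.inj h2).2.symm
    · exact absurd ⟨_, h2, (Prod.mk.inj h1).1⟩ h
    · exact absurd ⟨_, h1, (Prod.mk.inj h2).1⟩ h
    · exact hc.2.1 _ _ _ h1 h2
  · exact mk_insert_le.trans_lt (add_lt_of_lt hθ hc.2.2 (one_lt_aleph0.trans_le hθ))

end fn

theorem exists_bound {μ : Cardinal.{0}} (hμ : μ.IsRegular) (s : Set μ.ord.ToType) (hs : #s < μ) :
    ∃ i, ∀ x ∈ s, x < i := by
  by_contra hc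
  push Not at hc
  have h1 : (univ : Set μ.ord.ToType) ⊆ ⋃ x ∈ s, Iic x := fun i _ => by
    obtain ⟨x, h1, h2⟩ := hc i
    exact mem_biUnion h1 h2
  have h2 : #(⋃ x ∈ s, Iic x) < μ :=
    (card_biUnion_lt_iff_forall_of_isRegular (t := fun x _ => Iic x) hμ hs).2 fun x _ => by
      rw [← Iio_union_right]
      refine lt_union hμ.aleph0_le (by simpa using mk_Iio_lt x (by simp)) ?_
      rw [mk_singleton]; exact one_lt_aleph0.trans_le hμ.aleph0_le
  have h3 := (mk_le_mk_of_subset h1).trans_lt h2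
  simp at h3

theorem mk_small_le {α : Type} {μ c : Cardinal.{0}} (hμ : μ.IsRegular) (hc : c < μ)
    (h : ∀ m < μ, ℵ₀ ≤ m → m ^ c ≤ μ) (h0 : ℵ₀ < μ) {Y : Set α} (hY : #Y ≤ μ) :
    #{F : Set α | F ⊆ Y ∧ #F ≤ c} ≤ μ := by
  obtain ⟨e⟩ := (Cardinal.le_def Y μ.ord.ToType).1 (by simpa using hY)
  let Z : μ.ord.ToType → Set α := fun i => Subtype.val '' (e ⁻¹' Iio i)
  have hZ : ∀ i, #(Z i) < μ := fun i => mk_image_le.trans_lt
    ((mk_preimage_of_injective _ _ e.injective).trans_lt (by simpa using mk_Iio_lt i (by simp)))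
  refine sm_mono (t := ⋃ i, {F : Set α | F ⊆ Z i ∧ #F ≤ c}) (fun F hF => ?_)
    (sm_iUnion hμ.aleph0_le (by simp) fun i => (mk_bounded_subset_le _ c).trans
      (h _ (max_lt (hZ i) h0) (le_max_right _ _)))
  obtain ⟨i, hi⟩ := exists_bound hμ (e '' (Subtype.val ⁻¹' F)) (mk_image_le.trans_lt
    ((mk_preimage_of_injective _ _ Subtype.val_injective).trans_lt (hF.2.trans_lt hc)))
  exact mem_iUnion.2 ⟨i, fun x hx => ⟨⟨x, hF.1 hx⟩, hi _ ⟨_, hx, rfl⟩, rfl⟩, hF.2⟩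

theorem mk_small_pow {α : Type} {μ c : Cardinal.{0}} (hμ : ℵ₀ ≤ μ) (hc : c ≤ μ) {Y : Set α}
    (hY : #Y ≤ 2 ^ μ) : #{F : Set α | F ⊆ Y ∧ #F ≤ c} ≤ 2 ^ μ := by
  refine (mk_bounded_subset_le Y c).trans ((power_le_power_right
    (max_le hY (hμ.trans (cantor μ).le))).trans ?_)
  rw [← power_mul]
  exact power_le_power_left two_ne_zero ((mul_le_mul' le_rfl hc).trans (mul_eq_self hμ).le)

theorem mk_small_succ {α : Type} {μ c : Cardinal.{0}} (hμ : ℵ₀ ≤ μ) (hc : c ≤ μ) {Y : Set α}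
    (hY : #Y ≤ succ (2 ^ μ)) : #{F : Set α | F ⊆ Y ∧ #F ≤ c} ≤ succ (2 ^ μ) := by
  have h0 := hμ.trans (cantor μ).le
  refine mk_small_le (isRegular_succ h0) (hc.trans_lt ((cantor μ).trans (lt_succ _)))
    (fun m hm _ => (power_le_power_right (le_of_lt_succ hm)).trans (le_trans ?_ (le_succ _)))
    (lt_succ_of_le h0) hY
  rw [← power_mul]
  exact power_le_power_left two_ne_zero ((mul_le_mul' le_rfl hc).trans (mul_eq_self hμ).le)

theorem exists_fiber {α β : Type} {S : Set α} {T : Set β} {θ : Cardinal.{0}} (hθ : θ.IsRegular)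
    (hT : #T < θ) (hS : θ ≤ #S) (f : α → β) (hf : MapsTo f S T) :
    ∃ Y ⊆ S, θ ≤ #Y ∧ ∀ y ∈ Y, ∀ y' ∈ Y, f y = f y' := by
  obtain ⟨a, Y, h1, h2, h3⟩ := infinite_pigeonhole_set (s := S)
    (fun y => (⟨f y.1, hf y.2⟩ : T)) θ hS hθ.aleph0_le (by rwa [hθ.cof_ord])
  exact ⟨Y, h1, h2, fun y hy y' hy' => Subtype.mk.inj ((h3 hy).trans (h3 hy').symm)⟩

/-- Small predense subsets below a strengthened guide. -/
theorem exists_lpre {O Q T G : Type} {μ : Cardinal.{0}} (hμ : ℵ₀ ≤ μ) (h2 : 2 ^ μ = succ μ)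
    (supp : Q → Set O) (hsupp : ∀ p, #(supp p) ≤ μ) (tp : Set O → Q → T)
    (htp : ∀ s : Set O, #s ≤ μ → #(range (tp s)) ≤ succ μ) (C : Q → Q → Prop)
    (hs : ∀ p q, C p q → C q p) {R : G → G → Prop} (hrefl : ∀ q, R q q)
    (htrans : ∀ p q r, R p q → R q r → R p r) (hcl : Closed R (succ (succ μ))) (gd : Q → G)
    (hC : ∀ p q s, tp s p = tp s q → supp p ∩ supp q ⊆ s → R (gd p) (gd q) → C p q)
    {J : Type} (I : Set J) (hI : #I ≤ succ μ) (A : J → Set Q) (g₀ : G) :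
    ∃ g, R g g₀ ∧ ∀ j ∈ I, ∃ B ⊆ A j, #B ≤ succ μ ∧ (∀ q ∈ B, R g (gd q)) ∧
      ∀ p ∈ A j, R (gd p) g → ∃ q ∈ B, C p q := by
  classical
  have hμ' : ℵ₀ ≤ succ μ := hμ.trans (le_succ μ)
  have hreg := isRegular_succ hμ'
  let Z : J → G → Prop := fun j g => ∃ B ⊆ A j, #B ≤ succ μ ∧ (∀ q ∈ B, R g (gd q)) ∧
      ∀ p ∈ A j, R (gd p) g → ∃ q ∈ B, C p q
  have key : ∀ j g₀, ∃ g, R g g₀ ∧ Z j g := by
    intro j g₀
    by_contra hc
    push Not at hc
    obtain ⟨p₀, -⟩ : ∃ p, p ∈ A j := by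
      by_contra h
      exact hc g₀ (hrefl _) ⟨∅, empty_subset _, by simp, fun _ h => h.elim,
        fun p hp => absurd ⟨p, hp⟩ h⟩
    let K := (succ (succ μ)).ord.ToType
    let Spec : K → (K → Q) → Q → Prop := fun i f r =>
      r ∈ A j ∧ R (gd r) g₀ ∧ ∀ k < i, R (gd r) (gd (f k)) ∧ ¬ C r (f k)
    obtain ⟨M, hM⟩ := exists_rec p₀ (fun i f => if h : ∃ r, Spec i f r then h.choose else p₀)
      (fun k f g hfg => by
        have : Spec k f = Spec k g := by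
          funext r
          exact propext (and_congr_right fun _ => and_congr_right fun _ =>
            forall₂_congr fun j hj => by rw [hfg j hj])
        simp only [this])
    have h3 : ∀ i, Spec i M (M i) := by
      intro i
      induction i using WellFoundedLT.induction with
      | ind i ih =>
        have hi : #(Iio i) < succ (succ μ) := by simpa [K] using mk_Iio_lt i (by simp [K])
        have h : ∃ r, Spec i M r := by
          obtain ⟨g, hg⟩ := hcl (Option (Iio i)) (fun o => o.elim g₀ fun k => gd (M k)) ⟨none⟩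
            (by rw [mk_option]; exact add_lt_of_lt hreg.aleph0_le hi
                  (one_lt_aleph0.trans_le hreg.aleph0_le))
            (by
              rintro (_ | k) (_ | l)
              · exact Or.inl (hrefl _)
              · exact Or.inr (ih l l.2).2.1
              · exact Or.inl (ih k k.2).2.1
              · rcases lt_trichotomy k.1 l.1 with h | h | h
                · exact Or.inr ((ih l l.2).2.2 _ h).1
                · left; simp only [Option.elim, h]; exact hrefl _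
                · exact Or.inl ((ih k k.2).2.2 _ h).1)
          by_contra h4
          refine hc g (hg none) ⟨M '' Iio i, ?_, sm_image _ (le_of_lt_succ hi), ?_, fun p hp h5 => ?_⟩
          · rintro _ ⟨k, hk, rfl⟩; exact (ih k hk).1
          · rintro _ ⟨k, hk, rfl⟩; exact hg (some ⟨k, hk⟩)
          · by_contra h6
            exact h4 ⟨p, hp, htrans _ _ _ h5 (hg none), fun k hk =>
              ⟨htrans _ _ _ h5 (hg (some ⟨k, hk⟩)), fun h7 => h6 ⟨_, ⟨k, hk, rfl⟩, h7⟩⟩⟩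
        rw [hM i, dif_pos h]
        exact h.choose_spec
    obtain ⟨B, -, h4, h5⟩ := exists_predense hμ h2 (fun i => supp (M i)) (fun i => hsupp _)
      (fun s i => tp s (M i)) (fun s hs => sm_mono (by rintro _ ⟨i, rfl⟩; exact ⟨_, rfl⟩) (htp s hs))
      (fun i k => C (M i) (M k)) (fun i k s h4 h5 => by
        rcases lt_trichotomy i k with h | h | h
        · exact hs _ _ (hC _ _ s h4.symm (inter_comm _ _ ▸ h5) ((h3 k).2.2 i h).1)
        · subst h; exact hC _ _ s rfl h5 (hrefl _)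
        · exact hC _ _ s h4 h5 ((h3 i).2.2 k h).1) (univ : Set K)
    obtain ⟨i, hi⟩ := exists_bound hreg B (lt_succ_of_le h4)
    obtain ⟨k, hk, h6⟩ := h5 i trivial
    exact ((h3 i).2.2 k (hi k hk)).2 h6
  obtain ⟨g, h3, h4⟩ := reduce hrefl htrans hreg.aleph0_le hcl I (lt_succ_of_le hI) Z
    (fun j _ g g' h ⟨B, h1, h2, h3, h4⟩ => ⟨B, h1, h2, fun q hq => htrans _ _ _ h (h3 q hq),
      fun p hp h5 => h4 p hp (htrans _ _ _ h5 h)⟩) g₀
  refine ⟨g, h3, fun j hj => ?_⟩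
  obtain ⟨g', h5, h6⟩ := key j g
  exact h4 j hj g' h5 h6

section fn2
variable {O : Type}

/-- Closure under unions of short chains. -/
def UCl (S : Set (Set (O × O))) (θ : Cardinal.{0}) : Prop :=
  ∀ (ι : Type) (c : ι → Set (O × O)), #ι < θ → (∀ i, c i ∈ S) → (∀ i j, c i ⊆ c j ∨ c j ⊆ c i) →
    (⋃ i, c i) ∈ S

theorem UCl.mono {S : Set (Set (O × O))} {θ θ' : Cardinal.{0}} (h : UCl S θ) (h' : θ' ≤ θ) :
    UCl S θ' := fun ι c hι => h ι c (hι.trans_le h')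

theorem Fn.ucl {D R : Set O} {θ : Cardinal.{0}} (hθ : θ.IsRegular) : UCl (Fn D R θ) θ :=
  fun _ _ hι => Fn.iUnion hθ hι

theorem UCl.closed {S : Set (Set (O × O))} {θ : Cardinal.{0}} (h : UCl S θ) :
    Closed (fun d c : S => c.1 ⊆ d.1) θ :=
  fun ι q _ hι hch => ⟨⟨⋃ i, (q i).1, h ι _ hι (fun i => (q i).2)
    fun i j => (hch i j).symm⟩, fun i => subset_iUnion (fun i => (q i).1) i⟩

theorem UCl.reduce {S : Set (Set (O × O))} {θ : Cardinal.{0}} (h : UCl S θ) (hθ : ℵ₀ ≤ θ)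
    {J : Type} (I : Set J) (hI : #I < θ) (Z : J → Set (O × O) → Prop)
    (hZ : ∀ i ∈ I, ∀ c ∈ S, ∀ d ∈ S, c ⊆ d → Z i c → Z i d) {c₀ : Set (O × O)} (h₀ : c₀ ∈ S) :
    ∃ c ∈ S, c₀ ⊆ c ∧ ∀ i ∈ I, ∀ d ∈ S, c ⊆ d → Z i d → Z i c := by
  obtain ⟨c, h1, h2⟩ := MP_58a5a1_lc.reduce (Q := S) (R := fun d c => c.1 ⊆ d.1)
    (fun _ => Subset.rfl) (fun _ _ _ h h' => h'.trans h) hθ h.closed
    I hI (fun i c => Z i c.1) (fun i hi c d h => hZ i hi _ c.2 _ d.2 h) ⟨c₀, h₀⟩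
  exact ⟨c.1, c.2, h1, fun i hi d hd h => h2 i hi ⟨d, hd⟩ h⟩

theorem Fn.mk_le {c : Set (O × O)} (h : ∀ i y y', (i, y) ∈ c → (i, y') ∈ c → y = y') {a : Set O}
    (ha : ∀ p ∈ c, p.1 ∈ a) : #c ≤ #a :=
  sm_inj Prod.fst (fun p hp _ hq e => Prod.ext e (h p.1 _ _ hp (e ▸ hq))) ha le_rfl

variable [LinearOrder O]

def lo (t : O) (c : Set (O × O)) : Set (O × O) := {p ∈ c | p.1 < t}
def up (t : O) (c : Set (O × O)) : Set (O × O) := {p ∈ c | t ≤ p.1}

/-- Pairs of conditions, coded on disjoint domains. -/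
def Fn2 (t : O) (S T : Set (Set (O × O))) : Set (Set (O × O)) := {c | lo t c ∈ S ∧ up t c ∈ T}

variable {t : O} {c d : Set (O × O)}

theorem lo_mono (h : c ⊆ d) : lo t c ⊆ lo t d := fun _ hp => ⟨h hp.1, hp.2⟩
theorem up_mono (h : c ⊆ d) : up t c ⊆ up t d := fun _ hp => ⟨h hp.1, hp.2⟩
theorem lo_sub : lo t c ⊆ c := fun _ hp => hp.1
theorem up_sub : up t c ⊆ c := fun _ hp => hp.1
theorem lo_union_up (t : O) (c : Set (O × O)) : lo t c ∪ up t c = c :=
  Subset.antisymm (union_subset lo_sub up_sub) fun p hp =>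
    (lt_or_ge p.1 t).imp (fun h => ⟨hp, h⟩) fun h => ⟨hp, h⟩
theorem lo_union (h1 : ∀ p ∈ c, p.1 < t) (h2 : ∀ p ∈ d, t ≤ p.1) : lo t (c ∪ d) = c :=
  Subset.antisymm (fun p hp => hp.1.resolve_right fun h => absurd hp.2 (not_lt.2 (h2 p h)))
    fun p hp => ⟨Or.inl hp, h1 p hp⟩
theorem up_union (h1 : ∀ p ∈ c, p.1 < t) (h2 : ∀ p ∈ d, t ≤ p.1) : up t (c ∪ d) = d :=
  Subset.antisymm (fun p hp => hp.1.resolve_left fun h => absurd (h1 p h) (not_lt.2 hp.2))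
    fun p hp => ⟨Or.inr hp, h2 p hp⟩

variable {D R D' R' : Set O} {θ θ' : Cardinal.{0}} {S T : Set (Set (O × O))}

theorem Fn2.mk (h1 : ∀ p ∈ c, p.1 < t) (h2 : ∀ p ∈ d, t ≤ p.1) (hc : c ∈ S) (hd : d ∈ T) :
    c ∪ d ∈ Fn2 t S T := ⟨by rwa [lo_union h1 h2], by rwa [up_union h1 h2]⟩

theorem Fn2.empty (h : 0 < θ) (h' : 0 < θ') :
    (∅ : Set (O × O)) ∈ Fn2 t (Fn D R θ) (Fn D' R' θ') :=
  ⟨Fn.sub (Fn.empty h) lo_sub, Fn.sub (Fn.empty h') up_sub⟩

theorem Fn2.sub (h : d ∈ Fn2 t (Fn D R θ) (Fn D' R' θ')) (h' : c ⊆ d) :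
    c ∈ Fn2 t (Fn D R θ) (Fn D' R' θ') := ⟨Fn.sub h.1 (lo_mono h'), Fn.sub h.2 (up_mono h')⟩

theorem Fn2.ucl {μ : Cardinal.{0}} (h : UCl S μ) (h' : UCl T μ) : UCl (Fn2 t S T) μ := by
  intro ι c hι hc hch
  have e1 : lo t (⋃ i, c i) = ⋃ i, lo t (c i) := by ext p; simp [lo]
  have e2 : up t (⋃ i, c i) = ⋃ i, up t (c i) := by ext p; simp [up]
  exact ⟨e1 ▸ h ι _ hι (fun i => (hc i).1) fun i j => (hch i j).imp lo_mono lo_mono,
    e2 ▸ h' ι _ hι (fun i => (hc i).2) fun i j => (hch i j).imp up_mono up_mono⟩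

/-- Enlarging the upper part. -/
theorem Fn2.union_up (h : c ∈ Fn2 t S T) (hd : d ∈ T) (h1 : up t c ⊆ d) (h2 : ∀ p ∈ d, t ≤ p.1) :
    c ∪ d ∈ Fn2 t S T := by
  have : c ∪ d = lo t c ∪ d := by
    conv_lhs => rw [← lo_union_up t c, union_assoc, union_eq_self_of_subset_left h1]
  rw [this]
  exact Fn2.mk (fun p hp => hp.2) h2 h.1 hd

/-- Enlarging the lower part. -/
theorem Fn2.union_lo (h : c ∈ Fn2 t S T) (hd : d ∈ S) (h1 : lo t c ⊆ d) (h2 : ∀ p ∈ d, p.1 < t) :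
    c ∪ d ∈ Fn2 t S T := by
  have : c ∪ d = d ∪ up t c := by
    conv_lhs => rw [← lo_union_up t c, union_comm (lo t c), union_assoc,
      union_eq_self_of_subset_left h1, union_comm]
  rw [this]
  exact Fn2.mk h2 (fun p hp => hp.2) hd h.2

end fn2

end Pool.Agent.Work.MP_58a5a1_lc
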