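import Mathlib.Order.Monotone.Basic

/-! The combinatorial properties of the forcing that are used on the model side. -/

namespace Pool.Agent.Work.MP_58a5a1_lc

section general
variable {P : Type} [Preorder P]

def Mono (U : P → Prop) : Prop := ∀ p q, q ≤ p → U p → U q

/-- `U` holds densely below `p`. -/
def Dns (U : P → Prop) (p : P) : Prop := ∀ r, r ≤ p → ∃ s, s ≤ r ∧ U s

variable {U : P → Prop} {p q : P}

theorem Dns.mono (h : Dns U p) (hq : q ≤ p) : Dns U q := fun r hr => h r (hr.trans hq)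

theorem Mono.dns (hU : Mono U) (h : U p) : Dns U p := fun r hr => ⟨r, le_rfl, hU _ _ hr h⟩

theorem Dns.dns (h : Dns (Dns U) p) : Dns U p := fun r hr => by
  obtain ⟨s, h1, h2⟩ := h r hr
  obtain ⟨t, h3, h4⟩ := h2 s le_rfl
  exact ⟨t, h3.trans h1, h4⟩

end general

variable {P O : Type} [Preorder P] [LinearOrder O]

/-- `q` forces that `e` is a total injective relation from `c` to `b`. -/
def TI (e : O → O → P → Prop) (c b : O) (q : P) : Prop :=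
  (∀ x y, Mono (e x y)) ∧ (∀ x < c, Dns (fun s => ∃ y < b, e x y s) q) ∧
    ∀ x x' y r, e x y r → e x' y r → x = x'

def RegS (P : Type) [Preorder P] (ν : O) : Prop :=
  ∀ V : O → O → P → Prop, (∀ b c, Mono (V b c)) → (∀ b c c' r, V b c r → V b c' r → c = c') →
    ∀ β < ν, ∀ p, ∃ q, q ≤ p ∧ ∃ γ < ν, ∃ b₀ < ν, ∃ I : O → O → P → Prop, (∀ x y, Mono (I x y)) ∧
      (∀ x x' y r, I x y r → I x' y r → x = x') ∧
      ∀ b < β, ∀ c' < ν, ∀ r, r ≤ q → V b c' r → c' < γ ∨ ∀ c < c', ∃ z < b₀, I c z r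

def PolS (P : Type) [Preorder P] (kk : ℕ → O) (lam ν : O) : Prop :=
  ∀ C : O → O → P → Prop, (∀ x y, Mono (C x y)) → ∀ p, ∃ q, q ≤ p ∧
    ∃ (K : O → P → Prop) (B : ℕ → O → P → Prop), (∀ x, Mono (K x)) ∧ (∀ n y, Mono (B n y)) ∧
      (∀ γ < ν, Dns (fun s => ∃ α, γ ≤ α ∧ α < ν ∧ K α s) q) ∧
      (∃ n₀, ∀ n, n₀ ≤ n → ∃ I, TI I (kk n) lam q ∧ ∀ z y r, I z y r → B n y r) ∧
      ∀ α r, r ≤ q → K α r → ∃ s, s ≤ r ∧ ∃ m, ∀ n, m ≤ n → ∀ y y' s', s' ≤ s →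
        B n y s' → B n y' s' → C α y s' → Dns (C α y') s'

structure PSys (P O : Type) [Preorder P] [LinearOrder O] where
  ne : Nonempty P
  nat : ℕ → O
  w : O
  lam : O
  kk : ℕ → O
  top : O
  lt_nat : ∀ x n, x < nat n ↔ ∃ m < n, x = nat m
  lt_w : ∀ x, x < w ↔ ∃ n, x = nat n
  w_lt : w < lam
  kk_lt : ∀ n, kk n < lam
  kk_mono : Monotone kk
  kk_cof : ∀ x < lam, ∃ n, x < kk n
  le_top : ∀ x, x ≤ top
  succ : ∀ a, w < a → a < lam → ∀ p : P, ∃ q, q ≤ p ∧ ∃ b < a, ∀ c < a, ∃ e, TI e c b q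
  pow : ∀ a ≤ lam, ∀ p : P, ∃ q, q ≤ p ∧ ∃ b, (a < lam → b < lam) ∧ ∃ S : O → O → P → Prop,
    (∀ z x, Mono (S z x)) ∧ ∀ U : O → P → Prop, (∀ x, Mono (U x)) → ∀ r, r ≤ q → ∃ s, s ≤ r ∧
      ∃ z < b, ∀ x < a, ∀ s', s' ≤ s → (Dns (U x) s' ↔ Dns (S z x) s')
  big : ∀ ν, lam < ν → (∃ b < ν, ∃ e : O → O → P → Prop, ∀ q, TI e ν b q) ∨
    (RegS P ν ∧ PolS P kk lam ν)

end Pool.Agent.Work.MP_58a5a1_lc
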