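import Pool.Agent.Lib.ZFModel.DefsZFC
import Pool.Agent.Work.MP_63c7e0_lc.Defs
import Mathlib.SetTheory.Cardinal.Order
import Mathlib.Order.Filter.Ultrafilter.Defs

/-! The large cardinal hypothesis (about the ambient universe of small types) and the notions of
the problem interpreted inside a structure `(M, E)` for the language of set theory.  In the second
part every quantifier ranges over `M` and the only primitive relations are `E` and `=`, so each
definition is the truth in `(M, E)` of the usual first-order definition. -/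

namespace Pool.Agent.Work.MP_58a5a1_lc
open Pool.Agent.Work.MP_63c7e0_lc Cardinal

/-- `κ` is supercompact: it is uncountable, and for every set `X` of size at least `κ` there is a
`κ`-complete, fine and normal ultrafilter on the subsets of `X` of size less than `κ`. -/
def Supercompact (κ : Cardinal.{0}) : Prop :=
  ℵ₀ < κ ∧ ∀ X : Type, κ ≤ #X → ∃ U : Ultrafilter (Set X),
    {x : Set X | #x < κ} ∈ U ∧
    (∀ S : Set (Set (Set X)), #S < κ → (∀ A ∈ S, A ∈ U) → ⋂₀ S ∈ U) ∧
    (∀ a : X, {x | a ∈ x} ∈ U) ∧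
    ∀ g : Set X → X, {x | g x ∈ x} ∈ U → ∃ a, {x | g x = a} ∈ U

universe u
variable {M : Type u} (E : M → M → Prop)

/-- `A` injects into `B`, that is `|A| ≤ |B|`. -/
def Injects (A B : M) : Prop :=
  ∃ f, IsFun E f A B ∧ ∀ x x' y, App E f x y → App E f x' y → x = x'

/-- `|A| = |B|`. -/
def Equinum (A B : M) : Prop := ∃ f, IsBij E f A B

/-- `W` is the power set of `A`. -/
def IsPow (W A : M) : Prop := ∀ a, E a W ↔ Sub E a A

/-- `W` is the cartesian product `A × B`. -/
def IsProd (W A B : M) : Prop := ∀ p, E p W ↔ ∃ a b, E a A ∧ E b B ∧ IsPair E p a b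

/-- `α` is a von Neumann ordinal: transitive and linearly ordered by membership. -/
def IsOrd (α : M) : Prop :=
  (∀ x, E x α → Sub E x α) ∧ ∀ x y, E x α → E y α → E x y ∨ x = y ∨ E y x

/-- `κ` is a cardinal: an ordinal that does not inject into a smaller ordinal. -/
def IsCard (κ : M) : Prop := IsOrd E κ ∧ ∀ α, E α κ → ¬ Injects E κ α

/-- `κ` is an uncountable cardinal. -/
def IsUncountableCard (κ : M) : Prop := IsCard E κ ∧ ∃ w, IsOmega E w ∧ E w κ

/-- `κ` is an uncountable limit cardinal. -/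
def IsLimitCard (κ : M) : Prop :=
  IsUncountableCard E κ ∧ ∀ α, E α κ → ∃ β, E β κ ∧ IsCard E β ∧ E α β

/-- `l = ℵ_ω`, the least uncountable limit cardinal. -/
def IsAlephOmega (l : M) : Prop := IsLimitCard E l ∧ ∀ δ, E δ l → ¬ IsLimitCard E δ

/-- `2 ^ θ < l` for all `θ < l`. -/
def IsStrongLimit (l : M) : Prop :=
  ∀ θ W, E θ l → IsPow E W θ → ∃ β, E β l ∧ Injects E W β

/-- `cf l < l`: some function from an ordinal below `l` to `l` has unbounded range. -/
def IsSingular (l : M) : Prop :=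
  ∃ α f, E α l ∧ IsFun E f α l ∧ ∀ x, E x l → ∃ i y, App E f i y ∧ E x y

/-- `κ` is measurable: uncountable, with a nonprincipal `κ`-complete ultrafilter `U`. -/
def IsMeasurable (κ : M) : Prop :=
  IsUncountableCard E κ ∧ ∃ U,
    (∀ Y, E Y U → Sub E Y κ) ∧ E κ U ∧ (∀ Y, E Y U → ∃ x, E x Y) ∧
    (∀ Y Z, E Y U → Sub E Y Z → Sub E Z κ → E Z U) ∧
    (∀ Y Z, Sub E Y κ → (∀ x, E x Z ↔ E x κ ∧ ¬ E x Y) → E Y U ∨ E Z U) ∧
    (∀ s x, IsSing E s x → ¬ E s U) ∧
    ∀ β F Z, E β κ → IsFun E F β U →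
      (∀ x, E x Z ↔ E x κ ∧ ∀ i Y, App E F i Y → E x Y) → E Z U

/-- The strong polarized relation for the pair `(μ, l)` and two colours: every colouring
`c : μ × l → 2` is constant on some `A × B` with `A ⊆ μ`, `|A| = μ`, `B ⊆ l`, `|B| = l`. -/
def Polarized (μ l : M) : Prop :=
  ∀ W t c, IsProd E W μ l → IsTwo E t → IsFun E c W t →
    ∃ A B i, Sub E A μ ∧ Equinum E A μ ∧ Sub E B l ∧ Equinum E B l ∧
      ∀ a b p, E a A → E b B → IsPair E p a b → App E c p i

end Pool.Agent.Work.MP_58a5a1_lc
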