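import Pool.Agent.Work.MP_58a5a1_lc.Card
import Pool.Agent.Work.MP_58a5a1_lc.Defs
import Mathlib.Order.Filter.Ultrafilter.Basic

/-! The ground data: cardinals `κ n` with supremum `lam`, the ordinals up to `s3 lam` and the
normal measures. -/

namespace Pool.Agent.Work.MP_58a5a1_lc
open Cardinal Set Order Filter

noncomputable abbrev s3 (c : Cardinal.{0}) : Cardinal.{0} := succ (2 ^ succ c)

theorem ss_le_pow (c : Cardinal.{0}) : succ (succ c) ≤ 2 ^ succ c := succ_le_of_lt (cantor _)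
theorem ss_lt_s3 (c : Cardinal.{0}) : succ (succ c) < s3 c := lt_succ_of_le (ss_le_pow c)
theorem succ_lt_s3 (c : Cardinal.{0}) : succ c < s3 c := (lt_succ _).trans (ss_lt_s3 c)
theorem lt_s3 (c : Cardinal.{0}) : c < s3 c := (lt_succ _).trans (succ_lt_s3 c)
theorem le_s3 (c : Cardinal.{0}) : c ≤ s3 c := (lt_s3 c).le
theorem s3_mono {a b : Cardinal.{0}} (h : a ≤ b) : s3 a ≤ s3 b :=
  succ_le_succ (power_le_power_left two_ne_zero (succ_le_succ h))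

structure Ctx (O : Type) [LinearOrder O] where
  κ : ℕ → Cardinal.{0}
  lam : Cardinal.{0}
  κ_zero : κ 0 = ℵ₀
  reg : ∀ n, (κ n).IsRegular
  slim : ∀ n c, c < κ (n + 1) → 2 ^ c < κ (n + 1)
  lt : ∀ n, κ n < κ (n + 1)
  lt_lam : ∀ n, κ n < lam
  cof : ∀ c < lam, ∃ n, c < κ n
  ini : Cardinal.{0} → O
  mk_ini : ∀ c ≤ s3 lam, #(Iio (ini c)) = c
  lt_ini : ∀ c ≤ s3 lam, ∀ b, b < ini c ↔ #(Iio b) < c
  le_top : ∀ a, a ≤ ini (s3 lam)
  U : ℕ → Ultrafilter (Set O)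
  small : ∀ n, ∀ᶠ x : Set O in (U n : Filter (Set O)), #x < κ (n + 1)
  complete : ∀ n (S : Set (Set (Set O))), #S < κ (n + 1) → (∀ A ∈ S, A ∈ U n) → ⋂₀ S ∈ U n
  fine : ∀ n a, ∀ᶠ x in (U n : Filter (Set O)), a ∈ x
  normal : ∀ n (g : Set O → O), (∀ᶠ x in (U n : Filter (Set O)), g x ∈ x) →
    ∃ a, ∀ᶠ x in (U n : Filter (Set O)), g x = a

theorem ae_all_of {X J : Type} {κ : Cardinal.{0}} {U : Ultrafilter X}
    (hU : ∀ S : Set (Set X), #S < κ → (∀ A ∈ S, A ∈ U) → ⋂₀ S ∈ U) {I : Set J} (hI : #I < κ)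
    {p : J → X → Prop} (h : ∀ i ∈ I, ∀ᶠ x in (U : Filter X), p i x) :
    ∀ᶠ x in (U : Filter X), ∀ i ∈ I, p i x := by
  have := hU ((fun i => {x | p i x}) '' I) (mk_image_le.trans_lt hI) (by
    rintro _ ⟨i, hi, rfl⟩; exact h i hi)
  exact mem_of_superset this fun x hx i hi => hx _ ⟨i, hi, rfl⟩

theorem Supercompact.isRegular {κ : Cardinal.{0}} (h : Supercompact κ) : κ.IsRegular := by
  refine ⟨h.1.le, le_of_not_gt fun hc => ?_⟩
  obtain ⟨U, h1, h2, h3, -⟩ := h.2 κ.ord.ToType (by simp)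
  obtain ⟨s, hs1, hs2⟩ := Order.exists_cof_eq κ.ord.ToType
  have h4 : #s < κ := by rw [hs2, Ordinal.cof_toType]; exact hc
  have h5 := ae_all_of h2 h4 (p := fun a x => ∀ b ∈ Iic a, b ∈ x) fun a _ =>
    ae_all_of h2 (by
      rw [← Iio_union_right]
      refine lt_union h.1.le (by simpa using mk_Iio_lt a (by simp)) ?_
      rw [mk_singleton]; exact one_lt_aleph0.trans h.1) fun b _ => h3 b
  obtain ⟨x, h6, h7⟩ := (h5.and h1).exists
  have : x = Set.univ := eq_univ_of_forall fun b => by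
    obtain ⟨a, ha, hb⟩ := hs1 b
    exact h6 a ha b hb
  rw [this, mk_univ] at h7
  simp at h7

theorem Supercompact.pow_lt {κ : Cardinal.{0}} (h : Supercompact κ) {c : Cardinal.{0}}
    (hc : c < κ) : 2 ^ c < κ := by
  refine not_le.1 fun he => ?_
  obtain ⟨U, h1, h2, h3, -⟩ := h.2 (Set c.out) (by simpa using he)
  have h4 : ∀ x : Set (Set c.out), ∃ S, #x < κ → S ∉ x := fun x => by
    by_contra hn
    push Not at hn
    have h5 : x = Set.univ := eq_univ_of_forall fun S => (hn S).2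
    have h6 := (hn ∅).1
    rw [h5, mk_univ] at h6
    exact absurd he (not_le.2 (by simpa using h6))
  choose S hS using h4
  have h5 := ae_all_of h2 (I := (univ : Set c.out)) (by simpa using hc)
    (p := fun i x => (i ∈ S x ↔ ∀ᶠ y in (U : Filter _), i ∈ S y)) fun i _ => by
      rcases U.em (fun y => i ∈ S y) with h | h
      · exact h.mono fun x hx => iff_of_true hx h
      · exact h.mono fun x hx => iff_of_false hx (Ultrafilter.eventually_not.1 h)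
  obtain ⟨x, h6, h7, h8⟩ :=
    (h5.and (Eventually.and h1 (h3 {i | ∀ᶠ y in (U : Filter _), i ∈ S y}))).exists
  exact hS x h7 ((show S x = _ from Set.ext fun i => h6 i trivial) ▸ h8)

theorem exists_ctx (κ : ℕ → Cardinal.{0}) (hκ : StrictMono κ)
    (hs : ∀ n, Supercompact (κ n)) :
    ∃ (O : Type) (_ : LinearOrder O) (_ : WellFoundedLT O), Nonempty (Ctx O) := by
  classical
  let lam : Cardinal.{0} := ⨆ n, κ n
  have hle : ∀ n, κ n ≤ lam := fun n => le_ciSup bddAbove_of_small n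
  have hlt : ∀ n, κ n < lam := fun n => (hκ (Nat.lt_succ_self n)).trans_le (hle _)
  let O := (succ (s3 lam).ord).ToType
  have hO : ∀ n, κ n ≤ #O := fun n => by
    rw [Cardinal.mk_toType]
    exact (hle n).trans ((le_s3 _).trans
      ((card_ord _).symm.le.trans (Ordinal.card_le_card (le_succ _))))
  choose U h1 h2 h3 h4 using fun n => (hs n).2 O (hO n)
  have hm : ∀ c ≤ s3 lam, c.ord ∈ Iio (succ (s3 lam).ord) := fun c hc =>
    lt_succ_of_le (ord_le_ord.2 hc)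
  let ini : Cardinal.{0} → O := fun c => Ordinal.ToType.mk ⟨(min c (s3 lam)).ord, hm _ (min_le_right _ _)⟩
  have hcard : ∀ x : O, #(Iio x) = (x : Ordinal.{0}).card := fun _ => rfl
  have hcoe : ∀ c ≤ s3 lam, ((ini c : O) : Ordinal.{0}) = c.ord := fun c hc => by
    simp [ini, Ordinal.ToType.toOrd, min_eq_left hc]
  have hlt' : ∀ x y : O, (x : Ordinal.{0}) < (y : Ordinal.{0}) ↔ x < y := fun x y => by
    simp [Ordinal.ToType.toOrd]
  let κ' : ℕ → Cardinal.{0} := fun n => Nat.casesOn n ℵ₀ κ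
  refine ⟨O, inferInstance, inferInstance, ⟨⟨κ', lam, rfl, ?_,
    fun n c hc => (hs n).pow_lt hc, ?_, ?_, ?_, ini, ?_, ?_, ?_, U, h1, h2, h3, h4⟩⟩⟩
  · rintro (_ | n)
    · exact isRegular_aleph0
    · exact (hs n).isRegular
  · rintro (_ | n)
    · exact (hs 0).1
    · exact hκ (Nat.lt_succ_self n)
  · rintro (_ | n)
    · exact (hs 0).1.trans (hlt 0)
    · exact hlt n
  · intro c hc
    obtain ⟨n, hn⟩ := exists_lt_of_lt_ciSup hc
    exact ⟨n + 1, hn⟩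
  · intro c hc
    rw [hcard, hcoe c hc, card_ord]
  · intro c hc b
    rw [← hlt', hcoe c hc, lt_ord, hcard]
  · intro a
    rw [← not_lt, ← hlt', hcoe _ le_rfl, not_lt, ← lt_succ_iff]
    exact (Ordinal.ToType.mk.symm a).2

theorem exists_injOn {α β : Type} {s : Set α} {t : Set β} (h : #s ≤ #t) (b : β) :
    ∃ g : α → β, InjOn g s ∧ MapsTo g s t ∧ ∀ a, a ∉ s → g a = b := by
  classical
  obtain ⟨e⟩ := (Cardinal.le_def _ _).1 h
  refine ⟨fun a => if h : a ∈ s then (e ⟨a, h⟩).1 else b, fun a ha a' ha' h => ?_, fun a ha => ?_,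
    fun a ha => dif_neg ha⟩
  · simp only [dif_pos ha, dif_pos ha'] at h
    exact congrArg Subtype.val (e.injective (Subtype.ext h))
  · simp only [dif_pos ha]; exact (e ⟨a, ha⟩).2

theorem exists_bijOn {α β : Type} {s : Set α} {t : Set β} (h : #s = #t) (b : β) :
    ∃ g : α → β, BijOn g s t ∧ ∀ a, a ∉ s → g a = b := by
  classical
  obtain ⟨e⟩ := Cardinal.eq.1 h
  refine ⟨fun a => if h : a ∈ s then (e ⟨a, h⟩).1 else b, ⟨fun a ha => ?_, fun a ha a' ha' h => ?_,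
    fun y hy => ⟨(e.symm ⟨y, hy⟩).1, (e.symm ⟨y, hy⟩).2, ?_⟩⟩, fun a ha => dif_neg ha⟩
  · simp only [dif_pos ha]; exact (e ⟨a, ha⟩).2
  · simp only [dif_pos ha, dif_pos ha'] at h
    exact congrArg Subtype.val (e.injective (Subtype.ext h))
  · simp only [dif_pos (e.symm ⟨y, hy⟩).2]; simp

namespace Ctx
variable {O : Type} [LinearOrder O] (X : Ctx O)

theorem aleph0_le_κ (n : ℕ) : ℵ₀ ≤ X.κ n := (X.reg n).aleph0_le
theorem aleph0_le_lam : ℵ₀ ≤ X.lam := (X.aleph0_le_κ 0).trans (X.lt_lam 0).le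
theorem κ_mono : Monotone X.κ := monotone_nat_of_le_succ fun n => (X.lt n).le
theorem le_Lam {c : Cardinal.{0}} (h : c ≤ X.lam) : c ≤ s3 X.lam := h.trans (le_s3 _)
theorem κ_le_Lam (n : ℕ) : X.κ n ≤ s3 X.lam := X.le_Lam (X.lt_lam n).le
theorem lim (n : ℕ) (c : Cardinal.{0}) (h : c < X.κ (n + 1)) : succ c < X.κ (n + 1) :=
  (succ_le_of_lt (cantor c)).trans_lt (X.slim n c h)
theorem pow_lt_lam {c : Cardinal.{0}} (h : c < X.lam) : 2 ^ c < X.lam := by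
  obtain ⟨n, hn⟩ := X.cof c h
  exact (X.slim n c (hn.trans (X.lt n))).trans (X.lt_lam _)
theorem succ_lt_lam {c : Cardinal.{0}} (h : c < X.lam) : succ c < X.lam := by
  obtain ⟨n, hn⟩ := X.cof c h
  exact (X.lim n c (hn.trans (X.lt n))).trans (X.lt_lam _)
theorem s3_lt {n : ℕ} {c : Cardinal.{0}} (h : c < X.κ (n + 1)) : s3 c < X.κ (n + 1) :=
  X.lim _ _ (X.slim _ _ (X.lim _ _ h))
theorem lam_reg : (succ X.lam).IsRegular := isRegular_succ X.aleph0_le_lam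
theorem lam2_reg : (succ (succ X.lam)).IsRegular := isRegular_succ X.lam_reg.aleph0_le

theorem mk_Iio_le (a : O) : #(Iio a) ≤ s3 X.lam := by
  rw [← X.mk_ini _ le_rfl]
  exact mk_le_mk_of_subset (Iio_subset_Iio (X.le_top a))

theorem mk_O_le : #O ≤ s3 X.lam := by
  have h : (univ : Set O) ⊆ Iio (X.ini (s3 X.lam)) ∪ {X.ini (s3 X.lam)} := fun a _ =>
    (X.le_top a).lt_or_eq
  rw [← mk_univ]
  have h0 := X.le_Lam X.aleph0_le_lam
  exact sm_mono h (sm_union h0 (X.mk_Iio_le _) (sm_sing h0 _))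

theorem ini_le_ini {a b : Cardinal.{0}} (h : a ≤ b) (hb : b ≤ s3 X.lam) : X.ini a ≤ X.ini b :=
  not_lt.1 fun hc => by
    have := (X.lt_ini a (h.trans hb) _).1 hc
    rw [X.mk_ini b hb] at this
    exact absurd h (not_le.2 this)

theorem ini_lt_ini {a b : Cardinal.{0}} (h : a < b) (hb : b ≤ s3 X.lam) : X.ini a < X.ini b :=
  (X.lt_ini b hb _).2 (by rwa [X.mk_ini a (h.le.trans hb)])

theorem ini_le {a : O} {c : Cardinal.{0}} (h : c ≤ #(Iio a)) : X.ini c ≤ a :=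
  not_lt.1 fun hc => absurd ((X.lt_ini c (h.trans (X.mk_Iio_le a)) a).1 hc) (not_lt.2 h)

theorem mk_Ico {c : Cardinal.{0}} (h0 : ℵ₀ ≤ c) (hc : c ≤ s3 X.lam) {a : O} (ha : a < X.ini c) :
    #(Ico a (X.ini c)) = c := by
  refine le_antisymm ((mk_le_mk_of_subset Ico_subset_Iio_self).trans (X.mk_ini c hc).le)
    (not_lt.1 fun h => ?_)
  have := lt_union h0 ((X.lt_ini c hc a).1 ha) h
  rw [Iio_union_Ico_eq_Iio ha.le, X.mk_ini c hc] at this
  exact lt_irrefl _ this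

theorem bounded {μ : Cardinal.{0}} (hμ : μ.IsRegular) (h : μ ≤ s3 X.lam) {s : Set O}
    (hs : s ⊆ Iio (X.ini μ)) (hc : #s < μ) : ∃ γ < X.ini μ, ∀ x ∈ s, x < γ := by
  by_contra hn
  push Not at hn
  have h1 : Iio (X.ini μ) ⊆ ⋃ x ∈ s, Iic x := fun γ hγ => by
    obtain ⟨x, h1, h2⟩ := hn γ hγ
    exact mem_biUnion h1 h2
  have h2 : #(⋃ x ∈ s, Iic x) < μ :=
    (card_biUnion_lt_iff_forall_of_isRegular (t := fun x _ => Iic x) hμ hc).2 fun x hx => by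
      rw [← Iio_union_right]
      refine lt_union hμ.aleph0_le ((X.lt_ini μ h x).1 (hs hx)) ?_
      rw [mk_singleton]; exact one_lt_aleph0.trans_le hμ.aleph0_le
  exact absurd ((X.mk_ini μ h).symm.trans_le (mk_le_mk_of_subset h1)) (not_le.2 h2)

/-- The least element. -/
def bot : O := X.ini 0
theorem bot_le (a : O) : X.bot ≤ a := X.ini_le (zero_le)
/-- The ordinals below `lam`. -/
def L : Set O := Iio (X.ini X.lam)
/-- The ordinal `κ n`. -/
def k (n : ℕ) : O := X.ini (X.κ n)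

theorem mk_L : #X.L = X.lam := X.mk_ini _ (le_s3 _)
theorem mk_k (n : ℕ) : #(Iio (X.k n)) = X.κ n := X.mk_ini _ (X.κ_le_Lam n)
theorem lt_k {n : ℕ} {a : O} : a < X.k n ↔ #(Iio a) < X.κ n := X.lt_ini _ (X.κ_le_Lam n) a
theorem mem_L {a : O} : a ∈ X.L ↔ #(Iio a) < X.lam := X.lt_ini _ (le_s3 _) a
theorem k_mem_L (n : ℕ) : X.k n ∈ X.L := X.ini_lt_ini (X.lt_lam n) (le_s3 _)
theorem k_mono {m n : ℕ} (h : m ≤ n) : X.k m ≤ X.k n := X.ini_le_ini (X.κ_mono h) (X.κ_le_Lam n)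
theorem Iio_sub_L {a : O} {n : ℕ} (h : a ≤ X.k n) : Iio a ⊆ X.L :=
  fun _ hb => (hb.trans_le h).trans (X.k_mem_L n)

theorem ae_all {n : ℕ} {J : Type} {I : Set J} (hI : #I < X.κ (n + 1)) {p : J → Set O → Prop}
    (h : ∀ i ∈ I, ∀ᶠ x in (X.U n : Filter (Set O)), p i x) :
    ∀ᶠ x in (X.U n : Filter (Set O)), ∀ i ∈ I, p i x := ae_all_of (X.complete n) hI h

theorem ae_sub {n : ℕ} {s : Set O} (hs : #s < X.κ (n + 1)) :
    ∀ᶠ x in (X.U n : Filter (Set O)), s ⊆ x := X.ae_all hs fun a _ => X.fine n a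

theorem normal' {n : ℕ} {R : Set O → O → Prop}
    (h : ∀ᶠ x in (X.U n : Filter (Set O)), ∃ a ∈ x, R x a) :
    ∃ a, ∀ᶠ x in (X.U n : Filter (Set O)), R x a := by
  classical
  let g : Set O → O := fun x => if h : ∃ a ∈ x, R x a then h.choose else X.bot
  have hg : ∀ x, (∃ a ∈ x, R x a) → g x ∈ x ∧ R x (g x) := fun x h => by
    simp only [g, dif_pos h]; exact h.choose_spec
  obtain ⟨a, ha⟩ := X.normal n g (h.mono fun x hx => (hg x hx).1)
  exact ⟨a, (ha.and h).mono fun x hx => hx.1 ▸ (hg x hx.2).2⟩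

theorem ae_closed (n : ℕ) (g : O → O → O) :
    ∀ᶠ x in (X.U n : Filter (Set O)), ∀ a ∈ x, ∀ b ∈ x, g a b ∈ x := by
  by_contra hc
  rw [← Ultrafilter.eventually_not] at hc
  obtain ⟨a, ha⟩ := X.normal' (R := fun x a => ∃ b ∈ x, g a b ∉ x) (hc.mono fun x hx => by
    push Not at hx; exact hx)
  obtain ⟨b, hb⟩ := X.normal' ha
  obtain ⟨x, h1, h2⟩ := (hb.and (X.fine n (g a b))).exists
  exact h1 h2

theorem exists_trace {n : ℕ} {W : Set O → Set O}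
    (h : ∀ᶠ x in (X.U n : Filter (Set O)), W x ⊆ x) :
    ∃ S, ∀ᶠ x in (X.U n : Filter (Set O)), W x = x ∩ S := by
  refine ⟨{γ | ∀ᶠ x in (X.U n : Filter (Set O)), γ ∈ W x}, by_contra fun hc => ?_⟩
  rw [← Ultrafilter.eventually_not] at hc
  obtain ⟨γ, hγ⟩ := X.normal' (n := n) (R := fun x γ =>
      ¬ (γ ∈ W x ↔ ∀ᶠ x in (X.U n : Filter (Set O)), γ ∈ W x)) (by
    filter_upwards [hc, h] with x h1 h2
    by_contra h3
    push Not at h3
    exact h1 (Set.ext fun γ => ⟨fun h4 => ⟨h2 h4, (h3 γ (h2 h4)).1 h4⟩,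
      fun h4 => (h3 γ h4.1).2 h4.2⟩))
  rcases (X.U n).em (fun x => γ ∈ W x) with h1 | h1
  · obtain ⟨x, h2, h3⟩ := (hγ.and h1).exists
    exact h2 (iff_of_true h3 h1)
  · obtain ⟨x, h2, h3⟩ := (hγ.and h1).exists
    exact h2 (iff_of_false h3 (Ultrafilter.eventually_not.1 h1))

theorem ae_le (n : ℕ) {S T : Set O} (h : #S ≤ #T) :
    ∀ᶠ x in (X.U n : Filter (Set O)), #(x ∩ S : Set O) ≤ #(x ∩ T : Set O) := by
  obtain ⟨g, h1, h2, -⟩ := exists_injOn h X.bot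
  exact (X.ae_closed n fun a _ => g a).mono fun x hx => sm_inj g (h1.mono inter_subset_right)
    (fun a ha => show _ ∈ x ∩ T from ⟨hx a ha.1 a ha.1, h2 ha.2⟩) le_rfl

theorem le_of_ae {n : ℕ} {S T : Set O}
    (h : ∀ᶠ x in (X.U n : Filter (Set O)), #(x ∩ S : Set O) ≤ #(x ∩ T : Set O)) : #S ≤ #T := by
  have h1 : ∀ x : Set O, ∃ g : O → O, #(x ∩ S : Set O) ≤ #(x ∩ T : Set O) →
      InjOn g (x ∩ S) ∧ MapsTo g (x ∩ S) (x ∩ T) := fun x => by
    by_cases hx : #(x ∩ S : Set O) ≤ #(x ∩ T : Set O)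
    · obtain ⟨g, h1, h2, -⟩ := exists_injOn hx X.bot
      exact ⟨g, fun _ => ⟨h1, h2⟩⟩
    · exact ⟨id, fun h => absurd h hx⟩
  choose g hg using h1
  have h2 : ∀ a, ∃ v, a ∈ S → v ∈ T ∧ ∀ᶠ x in (X.U n : Filter (Set O)), g x a = v := fun a => by
    by_cases ha : a ∈ S
    · obtain ⟨v, hv⟩ := X.normal' (n := n) (R := fun x v => v ∈ T ∧ g x a = v) (by
        filter_upwards [h, X.fine n a] with x h1 h2
        exact ⟨_, ((hg x h1).2 ⟨h2, ha⟩).1, ((hg x h1).2 ⟨h2, ha⟩).2, rfl⟩)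
      exact ⟨v, fun _ => ⟨hv.exists.choose_spec.1, hv.mono fun _ h => h.2⟩⟩
    · exact ⟨a, fun h => absurd h ha⟩
  choose v hv using h2
  refine sm_inj v (fun a ha b hb e => ?_) (fun a ha => (hv a ha).1) le_rfl
  obtain ⟨x, h3, h4, h5, h6, h7⟩ :=
    (h.and ((hv a ha).2.and ((hv b hb).2.and ((X.fine n a).and (X.fine n b))))).exists
  exact (hg x h3).1 ⟨h6, ha⟩ ⟨h7, hb⟩ (by rw [h4, h5, e])

theorem ae_lt (n : ℕ) {S T : Set O} (h : #S < #T) :
    ∀ᶠ x in (X.U n : Filter (Set O)), #(x ∩ S : Set O) < #(x ∩ T : Set O) := by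
  by_contra hc
  rw [← Ultrafilter.eventually_not] at hc
  exact absurd (X.le_of_ae (hc.mono fun x hx => not_lt.1 hx)) (not_le.2 h)

theorem ae_succ (n : ℕ) {S T : Set O} (h : #T ≤ succ #S) :
    ∀ᶠ x in (X.U n : Filter (Set O)), #(x ∩ T : Set O) ≤ succ #(x ∩ S : Set O) := by
  by_contra hc
  rw [← Ultrafilter.eventually_not] at hc
  have h1 : ∀ x : Set O, ∃ W, ¬ #(x ∩ T : Set O) ≤ succ #(x ∩ S : Set O) →
      W ⊆ x ∧ #W = succ #(x ∩ S : Set O) := fun x => by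
    by_cases hx : #(x ∩ T : Set O) ≤ succ #(x ∩ S : Set O)
    · exact ⟨∅, fun h => absurd hx h⟩
    · obtain ⟨W, h1, h2⟩ := le_mk_iff_exists_subset.1 (not_le.1 hx).le
      exact ⟨W, fun _ => ⟨h1.trans inter_subset_left, h2⟩⟩
  choose W hW using h1
  obtain ⟨Y, hY⟩ := X.exists_trace (hc.mono fun x hx => (hW x hx).1)
  rcases le_or_gt #Y #S with h1 | h1
  · obtain ⟨x, h2, h3, h4⟩ := (hc.and (hY.and (X.ae_le n h1))).exists
    rw [← h3, (hW x h2).2] at h4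
    exact absurd h4 (not_le.2 (lt_succ _))
  · obtain ⟨x, h2, h3, h4⟩ := (hc.and (hY.and (X.ae_le n (h.trans (succ_le_of_lt h1))))).exists
    rw [← h3, (hW x h2).2] at h4
    exact h2 h4

theorem ae_eq_succ (n : ℕ) {S T : Set O} (h : #T = succ #S) :
    ∀ᶠ x in (X.U n : Filter (Set O)), #(x ∩ T : Set O) = succ #(x ∩ S : Set O) := by
  filter_upwards [X.ae_succ n h.le, X.ae_lt n ((lt_succ _).trans_eq h.symm)] with x h1 h2
  exact h1.antisymm (succ_le_of_lt h2)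

theorem ae_eq_pow (n : ℕ) {S T : Set O} (h : #T = 2 ^ #S) :
    ∀ᶠ x in (X.U n : Filter (Set O)), #(x ∩ T : Set O) = 2 ^ #(x ∩ S : Set O) := by
  obtain ⟨en, h1, -⟩ := exists_bijOn (s := T) (t := 𝒫 S) (by rw [h, mk_powerset]) ∅
  have h2 : ∀ a b, ∃ γ, en a ≠ en b → ¬ (γ ∈ en a ↔ γ ∈ en b) := fun a b => by
    by_cases h : en a = en b
    · exact ⟨a, fun h' => absurd h h'⟩
    · obtain ⟨γ, hγ⟩ := not_forall.1 fun h' => h (Set.ext h')
      exact ⟨γ, fun _ => hγ⟩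
  choose g hg using h2
  have h3 : ∀ᶠ x in (X.U n : Filter (Set O)), ∀ W ⊆ x ∩ S, ∃ z ∈ x ∩ T, x ∩ en z = W := by
    by_contra hc
    rw [← Ultrafilter.eventually_not] at hc
    have h3 : ∀ x : Set O, ∃ W, ¬ (∀ W ⊆ x ∩ S, ∃ z ∈ x ∩ T, x ∩ en z = W) →
        W ⊆ x ∩ S ∧ ∀ z ∈ x ∩ T, x ∩ en z ≠ W := fun x => by
      by_cases hx : ∀ W ⊆ x ∩ S, ∃ z ∈ x ∩ T, x ∩ en z = W
      · exact ⟨∅, fun h => absurd hx h⟩
      · push Not at hx
        exact hx.imp fun W h _ => h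
    choose W hW using h3
    obtain ⟨Y, hY⟩ := X.exists_trace (hc.mono fun x hx => (hW x hx).1.trans inter_subset_left)
    obtain ⟨z, h4, h5⟩ := h1.2.2 (show Y ∩ S ∈ 𝒫 S from inter_subset_right)
    obtain ⟨x, h6, h7, h8⟩ := (hc.and (hY.and (X.fine n z))).exists
    refine (hW x h6).2 z ⟨h8, h4⟩ ?_
    rw [h5, ← inter_assoc, ← h7]
    exact inter_eq_self_of_subset_left ((hW x h6).1.trans inter_subset_right)
  filter_upwards [h3, X.ae_closed n g] with x h4 h5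
  rw [← mk_powerset, ← mk_image_eq_of_injOn (fun z => x ∩ en z) (x ∩ T) fun a ha b hb e => ?_]
  · congr 2
    refine Subset.antisymm ?_ h4
    rintro _ ⟨z, hz, rfl⟩
    exact inter_subset_inter_right _ (h1.1 hz.2)
  · refine h1.2.1 ha.2 hb.2 (by_contra fun hc => hg a b hc ?_)
    have h6 := h5 a ha.1 b hb.1
    have e' : x ∩ en a = x ∩ en b := e
    exact ⟨fun h => (e'.subset ⟨h6, h⟩).2, fun h => (e'.symm.subset ⟨h6, h⟩).2⟩

theorem ae_card (n : ℕ) :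
    ∀ᶠ x : Set O in (X.U n : Filter (Set O)),
      #(x ∩ Iio (X.ini (succ X.lam)) : Set O) = succ #(x ∩ X.L : Set O) ∧
      #(x ∩ Ico (X.ini X.lam) (X.ini (succ (succ X.lam))) : Set O) =
        succ (succ #(x ∩ X.L : Set O)) ∧
      #(x ∩ Iio (X.ini (2 ^ succ X.lam)) : Set O) = 2 ^ succ #(x ∩ X.L : Set O) ∧
      #x ≤ s3 #(x ∩ X.L : Set O) := by
  have e1 := X.mk_ini _ (succ_lt_s3 X.lam).le
  have e2 := X.mk_ini (2 ^ succ X.lam) (le_succ _)
  filter_upwards [X.ae_eq_succ n (S := X.L) (e1.trans (by rw [X.mk_L])),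
    X.ae_eq_succ n (S := Iio (X.ini (succ X.lam))) ((X.mk_Ico X.lam2_reg.aleph0_le
      (ss_lt_s3 _).le (X.ini_lt_ini ((lt_succ _).trans (lt_succ _)) (ss_lt_s3 _).le)).trans
      (by rw [e1])),
    X.ae_eq_pow n (S := Iio (X.ini (succ X.lam))) (e2.trans (by rw [e1])),
    X.ae_succ n (S := Iio (X.ini (2 ^ succ X.lam))) (T := univ)
      (by rw [e2, mk_univ]; exact X.mk_O_le)] with x h1 h2 h3 h4
  rw [h1] at h2 h3
  rw [h3, inter_univ] at h4
  exact ⟨h1, h2, h3, h4⟩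

theorem ae_large (n : ℕ) {c : Cardinal.{0}} (hc : c < X.κ (n + 1)) :
    ∀ᶠ x in (X.U n : Filter (Set O)), c ≤ #(x ∩ X.L : Set O) := by
  have h1 := hc.le.trans (X.κ_le_Lam _)
  filter_upwards [X.ae_sub (s := Iio (X.ini c)) (by rwa [X.mk_ini c h1])] with x hx
  rw [← X.mk_ini c h1]
  exact mk_le_mk_of_subset fun a ha => ⟨hx ha, X.Iio_sub_L (X.ini_le_ini hc.le (X.κ_le_Lam _)) ha⟩

/-- Solovay's theorem at `lam`. -/
theorem sch [WellFoundedLT O] : 2 ^ X.lam = succ X.lam := by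
  classical
  refine le_antisymm ?_ (succ_le_of_lt (cantor _))
  have hμ := (succ_lt_s3 X.lam).le
  have h0 := X.lam_reg.aleph0_le
  let m := X.ini (succ X.lam)
  have h1 : ∀ x : Set O, ∃ δ ≤ m, (∀ β ∈ x, β < m → β < δ) ∧ ∀ γ < δ, ∃ β ∈ x, β < m ∧ γ ≤ β :=
    fun x => by
      obtain ⟨δ, h1, h2⟩ := wellFounded_lt.has_min {a | ∀ β ∈ x, β < m → β < a} ⟨m, fun _ _ h => h⟩
      refine ⟨δ, not_lt.1 (h2 m fun _ _ h => h), h1, fun γ hγ => by_contra fun hc => ?_⟩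
      push Not at hc
      exact h2 γ hc hγ
  choose δ h1 h2 h3 using h1
  have h4 : ∀ a, ∃ y : Set O, #y < X.κ 1 ∧ ∀ x : Set O, #x < X.κ 1 → δ x = a → δ y = a := fun a => by
    by_cases h : ∃ x : Set O, #x < X.κ 1 ∧ δ x = a
    · obtain ⟨x, h1, h2⟩ := h
      exact ⟨x, h1, fun _ _ _ => h2⟩
    · exact ⟨∅, by simpa using (X.reg 1).pos, fun x h1 h2 => absurd ⟨x, h1, h2⟩ h⟩
  choose rep h4 h5 using h4
  have h6 : ∀ η, ∃ β, η < m → β < m ∧ ∀ᶠ x in (X.U 0 : Filter (Set O)),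
      ∃ ζ ∈ rep (δ x), η ≤ ζ ∧ ζ ≤ β := fun η => by
    by_cases hη : η < m
    swap
    · exact ⟨η, fun h => absurd h hη⟩
    obtain ⟨β, hβ⟩ := X.normal' (n := 0)
      (R := fun x β => β < m ∧ ∃ ζ ∈ rep (δ x), η ≤ ζ ∧ ζ ≤ β) (by
        filter_upwards [X.fine 0 η, X.small 0] with x h6 h7
        have e := h5 _ x h7 rfl
        obtain ⟨ζ, h8, h9, h10⟩ := h3 (rep (δ x)) η (e.symm ▸ h2 x η h6 hη)
        obtain ⟨β, h11, h12, h13⟩ := h3 x ζ (e ▸ h2 _ ζ h8 h9)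
        exact ⟨β, h11, h12, ζ, h8, h10, h13⟩)
    exact ⟨β, fun _ => ⟨hβ.exists.choose_spec.1, hβ.mono fun _ h => h.2⟩⟩
  choose F hF using h6
  obtain ⟨B, hB⟩ := exists_rec (S := O) False (fun η B => η < m ∧ ∀ η' < η, B η' → F η' < η)
    fun k f g h => propext (and_congr_right fun _ => forall₂_congr fun j hj => by rw [h j hj])
  have h7 : succ X.lam ≤ #{η | B η} := by
    refine not_lt.1 fun hc => ?_
    obtain ⟨γ, h7, h8⟩ := X.bounded X.lam_reg hμ (s := {η | B η} ∪ F '' {η | B η})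
      (union_subset (fun η hη => ((hB η).mp hη).1) (by
        rintro _ ⟨η, hη, rfl⟩; exact (hF η ((hB η).mp hη).1).1))
      (lt_union h0 hc (mk_image_le.trans_lt hc))
    exact lt_irrefl γ (h8 γ (Or.inl ((hB γ).mpr ⟨h7, fun η _ h => h8 _ (Or.inr ⟨η, h, rfl⟩)⟩)))
  let M : O → Set O := fun a => {η | B η ∧ ∃ ζ ∈ rep a, η ≤ ζ ∧ ζ ≤ F η}
  have h8 : ∀ a, #(M a) ≤ #(rep a) := fun a => by
    choose ζ h8 h9 h10 using fun η : M a => η.2.2
    refine mk_le_of_injective (f := fun η => (⟨ζ η, h8 η⟩ : rep a)) fun η η' e => ?_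
    have e' : ζ η = ζ η' := Subtype.mk.inj e
    refine Subtype.ext (le_antisymm (not_lt.1 fun h => ?_) (not_lt.1 fun h => ?_))
    · exact absurd ((h9 η).trans (e' ▸ h10 η')) (not_le.2 (((hB _).mp η.2.1).2 _ h η'.2.1))
    · exact absurd ((h9 η').trans (e' ▸ h10 η)) (not_le.2 (((hB _).mp η'.2.1).2 _ h η.2.1))
  obtain ⟨g, h9, h10, -⟩ := exists_injOn (s := ⋃ n, 𝒫 (Iio (X.k n))) (t := {η | B η})
    ((sm_iUnion X.aleph0_le_lam (mk_le_aleph0.trans X.aleph0_le_lam) fun n =>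
      (sm_pow (X.mk_k n).le).trans (X.pow_lt_lam (X.lt_lam n)).le).trans
      ((le_succ _).trans h7)) X.bot
  have h11 : ∀ (S : Set O) n, S ∩ Iio (X.k n) ∈ ⋃ n, 𝒫 (Iio (X.k n)) := fun S n =>
    mem_iUnion.2 ⟨n, inter_subset_right⟩
  rw [← X.mk_L, ← mk_powerset, X.mk_L]
  refine sm_inj (t := ⋃ a ∈ Iic m, 𝒫 (M a)) (fun S => range fun n => g (S ∩ Iio (X.k n))) ?_
    (fun S _ => ?_) (sm_biUnion h0 ?_ fun a _ => (sm_pow le_rfl).trans
      ((X.pow_lt_lam (((h8 a).trans_lt (h4 a)).trans (X.lt_lam 1))).le.trans (le_succ _)))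
  · have : ∀ S ∈ 𝒫 X.L, ∀ S' : Set O, (range fun n => g (S ∩ Iio (X.k n))) =
        (range fun n => g (S' ∩ Iio (X.k n))) → S ⊆ S' := fun S hS S' e γ hγ => by
      obtain ⟨n, hn⟩ := X.cof _ (X.mem_L.1 (hS hγ))
      obtain ⟨n', h12⟩ := e.subset ⟨n, rfl⟩
      exact ((h9 (h11 _ _) (h11 _ _) h12).symm.subset ⟨hγ, X.lt_k.2 hn⟩).1
    exact fun S hS S' hS' e => (this S hS S' e).antisymm (this S' hS' S e.symm)
  · obtain ⟨x, hx⟩ := (X.ae_all (I := (univ : Set ℕ)) (by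
      rw [mk_univ, mk_nat, ← X.κ_zero]; exact X.lt 0) fun n _ =>
        (hF _ ((hB _).mp (h10 (h11 S n))).1).2).exists
    refine mem_biUnion (h1 x) ?_
    rintro _ ⟨n, rfl⟩
    exact ⟨h10 (h11 S n), hx n trivial⟩
  · rw [← Iio_union_right]
    exact sm_union h0 (X.mk_ini _ hμ).le (sm_sing h0 _)

end Ctx

end Pool.Agent.Work.MP_58a5a1_lc
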