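import Pool.Agent.Work.MP_58a5a1_lc.Iface
import Pool.Agent.Work.MP_63c7e0_lc.Basic
import Pool.Agent.Lib.ZFModel.ZFC

/-! The generic extension by a `PSys` and the external description of its small ordinals. -/

namespace Pool.Agent.Work.MP_58a5a1_lc
open Pool.Agent.Lib.ZFModel Pool.Agent.Work.MP_63c7e0_lc Name Set

section data
variable {M : Type 1} (E : M → M → Prop) {J : Type} [LinearOrder J] (ord : J → M)

def Ap (f : M) (a b : J) : Prop := App E f (ord a) (ord b)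

def TIm (f : M) (c b : J) : Prop :=
  (∀ x < c, ∃ y < b, Ap E ord f x y) ∧ ∀ x x' y, Ap E ord f x y → Ap E ord f x' y → x = x'

def RegM (ν : J) : Prop :=
  ∀ f, ∀ β < ν, (∀ b c c', Ap E ord f b c → Ap E ord f b c' → c = c') →
    (∃ γ < ν, ∀ b < β, ∀ c < ν, Ap E ord f b c → c ≤ γ) ∨ ∃ b₀ < ν, ∃ i, TIm E ord i ν b₀

def PolM (nat kk : ℕ → J) (lam ν : J) : Prop :=
  ∀ C, ∃ K B, (∀ γ < ν, ∃ α, γ ≤ α ∧ α < ν ∧ Ap E ord K (nat 0) α) ∧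
    (∃ n₀, ∀ n, n₀ ≤ n → ∃ i, TIm E ord i (kk n) lam ∧
      ∀ z y, Ap E ord i z y → Ap E ord B (nat n) y) ∧
    ∀ α, Ap E ord K (nat 0) α → ∃ m, ∀ n, m ≤ n → ∀ y y', Ap E ord B (nat n) y →
      Ap E ord B (nat n) y' → Ap E ord C α y → Ap E ord C α y'

/-- The external description of the ordinals up to `top` of the model. -/
structure MD (J : Type) [LinearOrder J] where
  ord : J → M
  mem_ord : ∀ x a, E x (ord a) ↔ ∃ b < a, x = ord b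
  nat : ℕ → J
  w : J
  lam : J
  kk : ℕ → J
  top : J
  lt_nat : ∀ x n, x < nat n ↔ ∃ m < n, x = nat m
  lt_w : ∀ x, x < w ↔ ∃ n, x = nat n
  w_lt : w < lam
  kk_lt : ∀ n, kk n < lam
  kk_mono : Monotone kk
  kk_cof : ∀ x < lam, ∃ n, x < kk n
  le_top : ∀ x, x ≤ top
  cof : ∃ f, ∀ x y, Ap E ord f x y ↔ ∃ n, x = nat n ∧ y = kk n
  succ : ∀ a, w < a → a < lam → ∃ b < a, ∀ c < a, ∃ f, TIm E ord f c b
  pow : ∀ a ≤ lam, ∃ b, (a < lam → b < lam) ∧ ∃ S, ∀ u, ∃ z < b, ∀ x < a,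
    (Ap E ord u (nat 0) x ↔ Ap E ord S z x)
  big : ∀ ν, lam < ν → (∃ b < ν, ∃ f, TIm E ord f ν b) ∨
    (RegM E ord ν ∧ PolM E ord nat kk lam ν)

end data

variable {P O : Type} [LinearOrder O] [WellFoundedLT O]

noncomputable def ordN : O → Name P :=
  wellFounded_lt.fix fun a IH => rName (fun b : Iio a => IH b.1 b.2) fun _ _ => True

theorem ordN_eq (a : O) : (ordN a : Name P) = rName (fun b : Iio a => ordN b.1) fun _ _ => True := by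
  rw [ordN, WellFounded.fix_eq]

noncomputable def relN (R : O → O → P → Prop) : Name P :=
  rName (fun i : O × O => pairN (ordN i.1) (ordN i.2)) fun i q => R i.1 i.2 q

variable [Preorder P]

def Rl (σ : Name P) (a b : O) (q : P) : Prop := MemF (pairN (ordN a) (ordN b)) σ q

theorem not_eqF_ordN (b : O) : ∀ a, b < a → ∀ s : P, ¬ EqF (ordN a) (ordN b) s := by
  induction b using WellFoundedLT.induction with
  | ind b ih =>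
    intro a h s he
    have h1 : MemF (ordN b) (ordN a) s := by
      rw [ordN_eq a]
      exact fun r hr => ⟨r, le_rfl, ⟨(⟨b, h⟩, s), trivial⟩, hr, EqF.refl _ _⟩
    have h2 : MemF (ordN b) (rName (fun c : Iio b => ordN c.1) fun _ _ => True) s :=
      ordN_eq (P := P) b ▸ h1.congr_right he
    obtain ⟨r, _, j, _, h3⟩ := h2 s le_rfl
    exact ih _ j.1.1.2 b j.1.1.2 r h3

theorem eq_of_eqF_ordN {a b : O} {s : P} (h : EqF (ordN a) (ordN b) s) : a = b := by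
  rcases lt_trichotomy a b with h1 | h1 | h1
  · exact absurd h.symm (not_eqF_ordN a b h1 s)
  · exact h1
  · exact absurd h (not_eqF_ordN b a h1 s)

omit [LinearOrder O] [WellFoundedLT O] in
theorem eqF_upair {u v u' v' : Name P} {s : P} (h : EqF (upairN u v) (upairN u' v') s) :
    (∃ r, EqF u u' r ∨ EqF u v' r) ∧ ∃ r, EqF v u' r ∨ EqF v v' r := by
  constructor
  · obtain ⟨r, _, ⟨⟨_ | _, p⟩, hj⟩, _, h1⟩ := h.1 ⟨(true, s), trivial⟩ s le_rfl le_rfl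
    · exact ⟨r, Or.inr h1⟩
    · exact ⟨r, Or.inl h1⟩
  · obtain ⟨r, _, ⟨⟨_ | _, p⟩, hj⟩, _, h1⟩ := h.1 ⟨(false, s), trivial⟩ s le_rfl le_rfl
    · exact ⟨r, Or.inr h1⟩
    · exact ⟨r, Or.inl h1⟩

theorem eqF_upair_ord {x y x' y' : O} {s : P}
    (h : EqF (upairN (ordN x) (ordN y)) (upairN (ordN x') (ordN y')) s) :
    ((x = x' ∨ x = y') ∧ (y = x' ∨ y = y')) ∧ (x' = x ∨ x' = y) ∧ (y' = x ∨ y' = y) := by
  obtain ⟨⟨_, h1⟩, _, h2⟩ := eqF_upair h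
  obtain ⟨⟨_, h3⟩, _, h4⟩ := eqF_upair h.symm
  exact ⟨⟨h1.imp eq_of_eqF_ordN eq_of_eqF_ordN, h2.imp eq_of_eqF_ordN eq_of_eqF_ordN⟩,
    h3.imp eq_of_eqF_ordN eq_of_eqF_ordN, h4.imp eq_of_eqF_ordN eq_of_eqF_ordN⟩

theorem eq_of_eqF_pair {a b a' b' : O} {s : P}
    (h : EqF (pairN (ordN a) (ordN b)) (pairN (ordN a') (ordN b')) s) : a = a' ∧ b = b' := by
  obtain ⟨⟨_, h1⟩, _, h2⟩ := eqF_upair h
  obtain ⟨-, _, h4⟩ := eqF_upair h.symm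
  have e1 := h1.imp eqF_upair_ord eqF_upair_ord
  have e2 := h2.imp eqF_upair_ord eqF_upair_ord
  have e4 := h4.imp eqF_upair_ord eqF_upair_ord
  grind

theorem Rl.mono (σ : Name P) (a b : O) : Mono (Rl σ a b) := fun _ _ hq h => MemF.mono h hq

theorem Rl.reg {σ : Name P} {a b : O} {q : P} (h : Dns (Rl σ a b) q) : Rl σ a b q := MemF.reg h

theorem rl_relN {R : O → O → P → Prop} (hR : ∀ a b, Mono (R a b)) {a b : O} {q : P} :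
    Rl (relN R) a b q ↔ Dns (R a b) q := by
  refine ⟨fun h r hr => ?_, fun h r hr => ?_⟩
  · obtain ⟨s, hs, j, h1, h2⟩ := h r hr
    obtain ⟨rfl, rfl⟩ := eq_of_eqF_pair h2
    exact ⟨s, hs, hR _ _ _ _ h1 j.2⟩
  · obtain ⟨s, hs, h1⟩ := h r hr
    exact ⟨s, hs, ⟨((a, b), s), h1⟩, le_rfl, EqF.refl _ _⟩

theorem inj_relN {e : O → O → P → Prop} (h1 : ∀ a b, Mono (e a b))
    (h2 : ∀ x x' y r, e x y r → e x' y r → x = x') (x x' y : O) (r : P)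
    (h3 : Rl (relN e) x y r) (h4 : Rl (relN e) x' y r) : x = x' := by
  obtain ⟨s, h5, h6⟩ := (rl_relN h1).1 h3 r le_rfl
  obtain ⟨t, h7, h8⟩ := (rl_relN h1).1 h4 s h5
  exact h2 x x' y t (h1 _ _ _ _ h7 h6) h8

theorem TI.name {e : O → O → P → Prop} {c b : O} {q : P} (h : TI e c b q) :
    TI (Rl (relN e)) c b q := by
  refine ⟨Rl.mono _, fun x hx r hr => ?_, inj_relN h.1 h.2.2⟩
  obtain ⟨s, hs, y, h1, h2⟩ := h.2.1 x hx r hr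
  exact ⟨s, hs, y, h1, (rl_relN h.1).2 ((h.1 _ _).dns h2)⟩

variable (S : PSys P O)

def EN (σ : Name P) (a b : O) (q : P) : Prop :=
  ∀ u : Name P, ∀ r, r ≤ q → ∃ s, s ≤ r ∧ ∃ z < b, ∀ x < a, ∀ s', s' ≤ s →
    (Rl u (S.nat 0) x s' ↔ Rl σ z x s')

def Vm (σ : Name P) (b c : O) (r : P) : Prop :=
  Rl σ b c r ∧ ∀ c' < c, ∀ s, s ≤ r → ¬ Rl σ b c' s

def RG (σ i : Name P) (β ν γ b₀ : O) (q : P) : Prop :=
  (∀ (x x' y : O) r, Rl i x y r → Rl i x' y r → x = x') ∧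
    ∀ b < β, ∀ c' < ν, ∀ r, r ≤ q → Vm σ b c' r → c' < γ ∨ ∀ c < c', ∃ z < b₀, Rl i c z r

def Cst (σ B : Name P) (α : O) (s : P) : Prop :=
  ∃ m, ∀ n, m ≤ n → ∀ y y' s', s' ≤ s →
    Rl B (S.nat n) y s' → Rl B (S.nat n) y' s' → Rl σ α y s' → Rl σ α y' s'

def PI (B i : Name P) (n : ℕ) (q : P) : Prop :=
  TI (Rl i) (S.kk n) S.lam q ∧ ∀ z y r, Rl i z y r → Rl B (S.nat n) y r

def PL (σ K B : Name P) (ν : O) (q : P) : Prop :=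
  (∀ γ < ν, Dns (fun s => ∃ α, Rl K (S.nat 0) α s ∧ γ ≤ α ∧ α < ν) q) ∧
    (∃ n₀, ∀ n, n₀ ≤ n → ∃ i, PI S B i n q) ∧
    ∀ α r, r ≤ q → Rl K (S.nat 0) α r → ∃ s, s ≤ r ∧ Cst S σ B α s

omit [WellFoundedLT O] in
theorem PSys.nat_inj {m n : ℕ} (h : S.nat m = S.nat n) : m = n := by
  rcases lt_trichotomy m n with h1 | h1 | h1
  · exact absurd h ((S.lt_nat _ _).2 ⟨m, h1, rfl⟩).ne
  · exact h1
  · exact absurd h ((S.lt_nat _ _).2 ⟨n, h1, rfl⟩).ne'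

theorem exists_EN {a : O} (ha : a ≤ S.lam) (p : P) :
    ∃ q, q ≤ p ∧ ∃ b, (a < S.lam → b < S.lam) ∧ ∃ σ, EN S σ a b q := by
  obtain ⟨q, h1, b, h2, T, h3, h4⟩ := S.pow a ha p
  refine ⟨q, h1, b, h2, relN T, fun u r hr => ?_⟩
  obtain ⟨s, h5, z, h6, h7⟩ := h4 (Rl u (S.nat 0)) (Rl.mono u _) r hr
  refine ⟨s, h5, z, h6, fun x hx s' hs' => ?_⟩
  rw [rl_relN h3, ← h7 x hx s' hs']
  exact ⟨(Rl.mono _ _ _).dns, Rl.reg⟩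

theorem exists_RG {ν : O} (h : RegS P ν) (σ : Name P) {β : O} (hβ : β < ν) (p : P) :
    ∃ q, q ≤ p ∧ ∃ γ < ν, ∃ b₀ < ν, ∃ i, RG σ i β ν γ b₀ q := by
  obtain ⟨q, hq, γ, h1, b₀, h2, I, h3, h4, h5⟩ := h (Vm σ)
    (fun b c p q hq h => ⟨h.1.mono _ _ _ _ _ hq, fun c' hc s hs => h.2 c' hc s (hs.trans hq)⟩)
    (fun b c c' r h h' => by
      rcases lt_trichotomy c c' with h1 | h1 | h1
      · exact absurd h.1 (h'.2 c h1 r le_rfl)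
      · exact h1
      · exact absurd h'.1 (h.2 c' h1 r le_rfl)) β hβ p
  refine ⟨q, hq, γ, h1, b₀, h2, relN I, inj_relN h3 h4, fun b hb c' hc' r hr' hr =>
    (h5 b hb c' hc' r hr' hr).imp_right fun h c hc => ?_⟩
  obtain ⟨z, h6, h7⟩ := h c hc
  exact ⟨z, h6, (rl_relN h3).2 ((h3 _ _).dns h7)⟩

theorem exists_PL {ν : O} (h : PolS P S.kk S.lam ν) (σ : Name P) (p : P) :
    ∃ q, q ≤ p ∧ ∃ K B, PL S σ K B ν q := by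
  obtain ⟨q, h1, K, B, h2, h3, h4, ⟨n₀, h5⟩, h6⟩ := h (Rl σ) (Rl.mono σ) p
  have hK : ∀ a b : O, Mono fun r => K b r := fun _ => h2
  have hB : ∀ a y : O, Mono fun r => ∃ n, a = S.nat n ∧ B n y r :=
    fun a y p q hq ⟨n, h, h'⟩ => ⟨n, h, h3 _ _ _ _ hq h'⟩
  refine ⟨q, h1, relN fun _ b r => K b r, relN fun a y r => ∃ n, a = S.nat n ∧ B n y r,
    fun γ hγ r hr => ?_, ⟨n₀, fun n hn => ?_⟩, fun α r hr hα => ?_⟩
  · obtain ⟨s, hs, α, h7, h8, h9⟩ := h4 γ hγ r hr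
    exact ⟨s, hs, α, (rl_relN hK).2 ((h2 _).dns h9), h7, h8⟩
  · obtain ⟨I, h7, h8⟩ := h5 n hn
    refine ⟨relN I, h7.name, fun z y r h => (rl_relN hB).2 fun s hs => ?_⟩
    obtain ⟨t, h9, h10⟩ := (rl_relN h7.1).1 h s hs
    exact ⟨t, h9, n, rfl, h8 _ _ _ h10⟩
  · obtain ⟨r', h7, h8⟩ := (rl_relN hK).1 hα r le_rfl
    obtain ⟨s, h9, m, h10⟩ := h6 α r' (h7.trans hr) h8
    refine ⟨s, h9.trans h7, m, fun n hn y y' s' hs' h11 h12 h13 => Rl.reg (Dns.dns fun t ht => ?_)⟩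
    obtain ⟨t₁, h14, n₁, h15, h16⟩ := (rl_relN hB).1 h11 t ht
    obtain ⟨t₂, h17, n₂, h18, h19⟩ := (rl_relN hB).1 h12 t₁ (h14.trans ht)
    obtain rfl := S.nat_inj h15
    obtain rfl := S.nat_inj h18
    have h20 := h17.trans (h14.trans ht)
    exact ⟨t₂, h17.trans h14, h10 n hn y y' t₂ (h20.trans hs') (h3 _ _ _ _ h17 h16) h19
      (h13.mono _ _ _ _ _ h20)⟩

inductive Kd : Type
  | ord | nat (n : ℕ) | kk (n : ℕ) | w | lam | top | ex | min | inj | succ | pow | powz | nc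
  | reg1 | reg2 | pol | polB | polI (n : ℕ) | const | cof
  deriving Countable

def RN : Fam P O Kd (Name P) := fun k v c a y => match k with
  | .ord => y = ordN (a 0)
  | .inj => TI (Rl y) (a 0) (a 1) (c 0)
  | .pow => EN S y (a 0) (a 1) (c 0)
  | .reg2 => RG (v 0) y (a 0) (a 1) (a 2) (a 3) (c 0)
  | .pol => ∃ B, PL S (v 0) y B (a 0) (c 0)
  | .polB => PL S (v 0) (v 1) y (a 0) (c 0)
  | .polI n => PI S (v 0) y n (c 0)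
  | .cof => ∀ x z q, Rl y x z q ↔ ∃ n, x = S.nat n ∧ z = S.kk n
  | _ => True

def WW : Fam P O Kd (P × O) := fun k v c a y => match k with
  | .ord => v 0 = ordN y.2
  | .nat n => y.2 = S.nat n
  | .kk n => y.2 = S.kk n
  | .w => y.2 = S.w
  | .lam => y.2 = S.lam
  | .top => y.2 = S.top
  | .ex => Rl (v 0) (a 0) y.2 y.1 ∧ a 1 ≤ y.2 ∧ y.2 < a 2
  | .min => Vm (v 0) (a 0) y.2 y.1
  | .succ => y.2 < a 0 ∧ ∀ c < a 0, ∃ σ, TI (Rl σ) c y.2 y.1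
  | .pow => (a 0 < S.lam → y.2 < S.lam) ∧ ∃ σ, EN S σ (a 0) y.2 y.1
  | .powz => y.2 < a 1 ∧ ∀ x < a 0, ∀ s, s ≤ y.1 → (Rl (v 1) (S.nat 0) x s ↔ Rl (v 0) y.2 x s)
  | .nc => y.2 < a 0 ∧ ∃ σ, TI (Rl σ) (a 0) y.2 y.1
  | .reg1 => y.2 < a 1 ∧ ∃ b₀ < a 1, ∃ i, RG (v 0) i (a 0) (a 1) y.2 b₀ y.1
  | .reg2 => y.2 < a 1 ∧ ∃ i, RG (v 0) i (a 0) (a 1) (a 2) y.2 (c 0)
  | .pol => ∃ K B, PL S (v 0) K B (a 0) y.1
  | .const => Cst S (v 0) (v 1) (a 0) y.1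
  | _ => True

variable {S} {p₀ : P} (g : GenW p₀ (S.nat 0) (RN S) (WW S))

theorem ord_mem {a : O} (ha : a ∈ g.AN) : ordN a ∈ g.N := by
  obtain ⟨y, hy, h⟩ := g.clN .ord [] [] [a] mem_list₀ mem_list₀ (mem_list₁ ha) ⟨_, rfl⟩
  exact h ▸ hy

noncomputable def ordM (a : g.AN) : g.toGen.M := g.toGen.cl ⟨_, ord_mem g a.2⟩

theorem mem_ordM (x : g.toGen.M) (a : g.AN) :
    g.toGen.E x (ordM g a) ↔ ∃ b < a, x = ordM g b := by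
  have h1 : rName (fun b : Iio a.1 => ordN b.1) (fun _ _ => True) ∈ g.N :=
    ordN_eq (P := P) a.1 ▸ ord_mem g a.2
  have h2 : ordM g a = g.toGen.cl ⟨_, h1⟩ := congrArg g.toGen.cl (Subtype.ext (ordN_eq a.1))
  rw [h2, g.toGen.E_rName]
  constructor
  · rintro ⟨i, p, _, _, hi, rfl⟩
    obtain ⟨_, _, _, j, hj, h⟩ := g.meet .ord [ordN i.1] [] [] (mem_list₁ hi) mem_list₀ mem_list₀
      p₀ g.G_p0 fun q _ => ⟨q, le_rfl, i, rfl⟩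
    have h3 : ordN i.1 = ordN j := h
    obtain rfl : i.1 = j := eq_of_eqF_ordN (s := p₀) (h3 ▸ EqF.refl _ _)
    exact ⟨⟨_, hj⟩, i.2, rfl⟩
  · rintro ⟨b, hb, rfl⟩
    exact ⟨⟨b.1, hb⟩, p₀, trivial, g.G_p0, _, rfl⟩

theorem isPair_pairN {a b : Name P} (ha : a ∈ g.N) (hb : b ∈ g.N) (h : pairN a b ∈ g.N) :
    IsPair g.toGen.E (g.toGen.cl ⟨_, h⟩) (g.toGen.cl ⟨_, ha⟩) (g.toGen.cl ⟨_, hb⟩) := by
  have zf := g.zfc.zf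
  have h1 := g.toGen.mem_upair ha ha (g.upair_mem _ ha _ ha)
  have h2 := g.toGen.mem_upair ha hb (g.upair_mem _ ha _ hb)
  intro z
  refine (g.toGen.mem_upair (g.upair_mem _ ha _ ha) (g.upair_mem _ ha _ hb) h z).trans ⟨?_, ?_⟩
  · rintro (rfl | rfl)
    · exact Or.inl fun x => (h1 x).trans or_self_iff
    · exact Or.inr h2
  · rintro (h3 | h3)
    · exact Or.inl (zf.extensionality _ _ fun x => (h3 x).trans ((h1 x).trans or_self_iff).symm)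
    · exact Or.inr (zf.extensionality _ _ fun x => (h3 x).trans (h2 x).symm)

theorem ap_iff {σ : Name P} (hσ : σ ∈ g.N) (a b : g.AN) :
    Ap g.toGen.E (ordM g) (g.toGen.cl ⟨σ, hσ⟩) a b ↔ ∃ q, g.G q ∧ Rl σ a.1 b.1 q := by
  have h3 := ord_mem g a.2
  have h4 := ord_mem g b.2
  have h5 : pairN (ordN a.1) (ordN b.1) ∈ g.N :=
    g.upair_mem _ (g.upair_mem _ h3 _ h3) _ (g.upair_mem _ h3 _ h4)
  have h6 := isPair_pairN g h3 h4 h5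
  refine Iff.trans ⟨fun ⟨p, h1, h2⟩ => ?_, fun h => ⟨_, h, h6⟩⟩
    (g.toGen.E_cl (x := ⟨_, h5⟩) (y := ⟨σ, hσ⟩))
  rwa [pair_unique g.zfc.zf h2 h6] at h1

theorem exists_ap {σ : Name P} (hσ : σ ∈ g.N) (a b c : g.AN) {q : P} (hq : g.G q)
    (h : Dns (fun s => ∃ y, Rl σ a.1 y s ∧ b.1 ≤ y ∧ y < c.1) q) :
    ∃ y : g.AN, b ≤ y ∧ y < c ∧ Ap g.toGen.E (ordM g) (g.toGen.cl ⟨σ, hσ⟩) a y := by
  obtain ⟨r, _, hr, j, hj, h1, h2, h3⟩ := g.meet .ex [σ] [] [a, b, c] (mem_list₁ hσ) mem_list₀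
    (mem_listc a.2 (mem_list₂ b.2 c.2)) q hq h
  exact ⟨⟨j, hj⟩, h2, h3, (ap_iff g hσ _ _).2 ⟨r, hr, h1⟩⟩

omit [WellFoundedLT O] in
theorem PSys.zero_le (S : PSys P O) (a : O) : S.nat 0 ≤ a := not_lt.1 fun h => by
  obtain ⟨m, hm, _⟩ := (S.lt_nat _ _).1 h
  omega

theorem inj_ap {σ : Name P} (hσ : σ ∈ g.N)
    (h : ∀ (x x' y : O) r, Rl σ x y r → Rl σ x' y r → x = x') (x x' y : g.AN)
    (h1 : Ap g.toGen.E (ordM g) (g.toGen.cl ⟨σ, hσ⟩) x y)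
    (h2 : Ap g.toGen.E (ordM g) (g.toGen.cl ⟨σ, hσ⟩) x' y) : x = x' := by
  obtain ⟨q, hq, h3⟩ := (ap_iff g hσ _ _).1 h1
  obtain ⟨q', hq', h4⟩ := (ap_iff g hσ _ _).1 h2
  obtain ⟨r, _, h5, h6⟩ := g.dir _ _ hq hq'
  exact Subtype.ext (h _ _ _ r (h3.mono _ _ _ _ _ h5) (h4.mono _ _ _ _ _ h6))

theorem tim_of_TI {σ : Name P} (hσ : σ ∈ g.N) {c b : g.AN} {q : P} (hq : g.G q)
    (h : TI (Rl σ) c.1 b.1 q) : TIm g.toGen.E (ordM g) (g.toGen.cl ⟨σ, hσ⟩) c b := by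
  refine ⟨fun x hx => ?_, inj_ap g hσ h.2.2⟩
  obtain ⟨y, _, h1, h2⟩ := exists_ap g hσ x ⟨_, g.a0_mem⟩ b hq fun r hr => by
    obtain ⟨s, hs, y, h1, h2⟩ := h.2.1 x hx r hr
    exact ⟨s, hs, y, h2, S.zero_le y, h1⟩
  exact ⟨y, h1, h2⟩

theorem exists_tim {c b : g.AN} {q : P} (hq : g.G q) (hq' : q ∈ g.PN)
    (h : ∃ σ, TI (Rl σ) c.1 b.1 q) : ∃ f, TIm g.toGen.E (ordM g) f c b := by
  obtain ⟨σ, hσ, h1⟩ := g.clN .inj [] [q] [c, b] mem_list₀ (mem_list₁ hq') (mem_list₂ c.2 b.2) h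
  exact ⟨_, tim_of_TI g hσ hq h1⟩

theorem cst_mem (k : Kd) (a : O) (h : ∀ v c b y, WW S k v c b y ↔ y.2 = a) : a ∈ g.AN := by
  obtain ⟨_, _, _, j, hj, h1⟩ := g.meet k [] [] [] mem_list₀ mem_list₀ mem_list₀ p₀ g.G_p0
    fun q _ => ⟨q, le_rfl, a, (h _ _ _ _).2 rfl⟩
  exact (h _ _ _ _).1 h1 ▸ hj

def natJ (n : ℕ) : g.AN := ⟨S.nat n, cst_mem g (.nat n) _ fun _ _ _ _ => Iff.rfl⟩
def kkJ (n : ℕ) : g.AN := ⟨S.kk n, cst_mem g (.kk n) _ fun _ _ _ _ => Iff.rfl⟩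
def lamJ : g.AN := ⟨S.lam, cst_mem g .lam _ fun _ _ _ _ => Iff.rfl⟩

theorem regM {ν : g.AN} (h : RegS P ν.1) : RegM g.toGen.E (ordM g) ν := by
  intro f β hβ hf
  obtain ⟨⟨σ, hσ⟩, rfl⟩ := g.toGen.cl_surj f
  obtain ⟨q₀, hq₀', hq₀, γ, hγ, h1, h2⟩ := g.meet .reg1 [σ] [] [β, ν] (mem_list₁ hσ) mem_list₀
    (mem_list₂ β.2 ν.2) p₀ g.G_p0 fun q _ => exists_RG h σ hβ q
  obtain ⟨_, _, _, b₀, hb₀, h3, h4⟩ := g.meet .reg2 [σ] [q₀] [β, ν, γ] (mem_list₁ hσ)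
    (mem_list₁ hq₀') (mem_listc β.2 (mem_list₂ ν.2 hγ)) p₀ g.G_p0 fun q _ => ⟨q, le_rfl, h2⟩
  obtain ⟨i, hi, h5, h6⟩ := g.clN .reg2 [σ] [q₀] [β, ν, γ, b₀] (mem_list₁ hσ) (mem_list₁ hq₀')
    (mem_listc β.2 (mem_listc ν.2 (mem_list₂ hγ hb₀))) h4
  by_cases hc : ∃ γ < ν, ∀ b < β, ∀ c < ν,
    Ap g.toGen.E (ordM g) (g.toGen.cl ⟨σ, hσ⟩) b c → c ≤ γ
  · exact Or.inl hc
  refine Or.inr ⟨⟨b₀, hb₀⟩, h3, g.toGen.cl ⟨i, hi⟩, fun c hcν => ?_, inj_ap g hi h5⟩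
  push Not at hc
  obtain ⟨b, h7, c₁, h8, h9, h10⟩ := hc (max c ⟨γ, hγ⟩) (max_lt hcν h1)
  have h12 := (le_max_left _ _).trans_lt h10
  have h13 := ((le_max_right _ _).trans_lt h10).le
  obtain ⟨q₁, hq₁, h14⟩ := (ap_iff g hσ _ _).1 h9
  obtain ⟨q, hq, l1, l2⟩ := g.dir _ _ hq₁ hq₀
  obtain ⟨r₁, _, hr₁, j, hj, h15⟩ := g.meet .min [σ] [] [b] (mem_list₁ hσ) mem_list₀
    (mem_list₁ b.2) q hq fun r hr => by
      obtain ⟨j, ⟨s, h1, h2⟩, h3⟩ := wellFounded_lt.has_min {j | ∃ s, s ≤ r ∧ Rl σ b.1 j s}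
        ⟨c₁.1, r, le_rfl, h14.mono _ _ _ _ _ (hr.trans l1)⟩
      exact ⟨s, h1, j, h2, fun c' hc' t ht h => h3 c' ⟨t, ht.trans h1, h⟩ hc'⟩
  obtain rfl := hf b c₁ ⟨j, hj⟩ h9 ((ap_iff g hσ _ _).2 ⟨r₁, hr₁, h15.1⟩)
  obtain ⟨r, hr, l3, l4⟩ := g.dir _ _ hr₁ hq₀
  obtain ⟨z, h16, h17⟩ := (h6 b h7 j h8 r l4 ⟨h15.1.mono _ _ _ _ _ l3,
    fun c' hc s hs => h15.2 c' hc s (hs.trans l3)⟩).resolve_left (not_lt.2 h13) c h12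
  obtain ⟨y, _, h18, h19⟩ := exists_ap g hi c ⟨_, g.a0_mem⟩ ⟨b₀, hb₀⟩ hr fun s hs =>
    ⟨s, le_rfl, z, h17.mono _ _ _ _ _ hs, S.zero_le z, h16⟩
  exact ⟨y, h18, h19⟩

theorem polM {ν : g.AN} (h : PolS P S.kk S.lam ν.1) :
    PolM g.toGen.E (ordM g) (natJ g) (kkJ g) (lamJ g) ν := by
  intro C
  obtain ⟨⟨σ, hσ⟩, rfl⟩ := g.toGen.cl_surj C
  obtain ⟨q, hq', hq, _, _, h1⟩ := g.meet .pol [σ] [] [ν] (mem_list₁ hσ) mem_list₀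
    (mem_list₁ ν.2) p₀ g.G_p0 fun q _ => by
      obtain ⟨r, h1, h2⟩ := exists_PL S h σ q
      exact ⟨r, h1, ν, h2⟩
  obtain ⟨K, hK, h2⟩ := g.clN .pol [σ] [q] [ν] (mem_list₁ hσ) (mem_list₁ hq') (mem_list₁ ν.2) h1
  obtain ⟨B, hB, h3, ⟨n₀, h4⟩, h5⟩ := g.clN .polB [σ, K] [q] [ν] (mem_list₂ hσ hK) (mem_list₁ hq')
    (mem_list₁ ν.2) h2
  refine ⟨g.toGen.cl ⟨K, hK⟩, g.toGen.cl ⟨B, hB⟩, fun γ hγ => exists_ap g hK _ γ ν hq (h3 γ hγ),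
    ⟨n₀, fun n hn => ?_⟩, fun α hα => ?_⟩
  · obtain ⟨i, hi, h6, h7⟩ := g.clN (.polI n) [B] [q] [] (mem_list₁ hB) (mem_list₁ hq') mem_list₀
      (h4 n hn)
    refine ⟨_, tim_of_TI g hi hq h6, fun z y h => ?_⟩
    obtain ⟨r, hr, h8⟩ := (ap_iff g hi _ _).1 h
    exact (ap_iff g hB _ _).2 ⟨r, hr, h7 _ _ _ h8⟩
  · obtain ⟨r, hr, h6⟩ := (ap_iff g hK _ _).1 hα
    obtain ⟨r', hr', h7, h8⟩ := g.dir _ _ hr hq
    obtain ⟨s, _, hs, _, _, m, h9⟩ := g.meet .const [σ, B] [] [α] (mem_list₂ hσ hB) mem_list₀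
      (mem_list₁ α.2) r' hr' fun s hs => by
        obtain ⟨t, h1, h2⟩ := h5 α s (hs.trans h8) (h6.mono _ _ _ _ _ (hs.trans h7))
        exact ⟨t, h1, ν, h2⟩
    refine ⟨m, fun n hn y y' h10 h11 h12 => ?_⟩
    obtain ⟨t₁, g1, h13⟩ := (ap_iff g hB _ _).1 h10
    obtain ⟨t₂, g2, h14⟩ := (ap_iff g hB _ _).1 h11
    obtain ⟨t₃, g3, h15⟩ := (ap_iff g hσ _ _).1 h12
    obtain ⟨u₁, g4, l1, l2⟩ := g.dir _ _ g1 g2
    obtain ⟨u₂, g5, l3, l4⟩ := g.dir _ _ g3 hs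
    obtain ⟨u, g6, l5, l6⟩ := g.dir _ _ g4 g5
    exact (ap_iff g hσ _ _).2 ⟨u, g6, h9 n hn _ _ u (l6.trans l4)
      (h13.mono _ _ _ _ _ (l5.trans l1)) (h14.mono _ _ _ _ _ (l5.trans l2))
      (h15.mono _ _ _ _ _ (l6.trans l3))⟩

noncomputable def md : MD g.toGen.E g.AN where
  ord := ordM g
  mem_ord := mem_ordM g
  nat := natJ g
  w := ⟨S.w, cst_mem g .w _ fun _ _ _ _ => Iff.rfl⟩
  lam := lamJ g
  kk := kkJ g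
  top := ⟨S.top, cst_mem g .top _ fun _ _ _ _ => Iff.rfl⟩
  lt_nat x n := (S.lt_nat x n).trans (exists_congr fun _ => and_congr_right fun _ =>
    ⟨fun h => Subtype.ext h, fun h => congrArg Subtype.val h⟩)
  lt_w x := (S.lt_w x).trans (exists_congr fun _ => ⟨fun h => Subtype.ext h, fun h => congrArg Subtype.val h⟩)
  w_lt := S.w_lt
  kk_lt := S.kk_lt
  kk_mono := S.kk_mono
  kk_cof x := S.kk_cof x
  le_top x := S.le_top x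
  cof := by
    obtain ⟨σ, hσ, h⟩ := g.clN .cof [] [] [] mem_list₀ mem_list₀ mem_list₀
      ⟨relN fun x z _ => ∃ n, x = S.nat n ∧ z = S.kk n, fun x z q =>
        (rl_relN fun _ _ _ _ _ h => h).trans ⟨fun h => (h q le_rfl).choose_spec.2,
          fun h r _ => ⟨r, le_rfl, h⟩⟩⟩
    refine ⟨g.toGen.cl ⟨σ, hσ⟩, fun x y => (ap_iff g hσ x y).trans ⟨?_, ?_⟩⟩
    · rintro ⟨q, _, h1⟩
      obtain ⟨n, h2, h3⟩ := (h _ _ q).1 h1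
      exact ⟨n, Subtype.ext h2, Subtype.ext h3⟩
    · rintro ⟨n, rfl, rfl⟩
      exact ⟨p₀, g.G_p0, (h _ _ _).2 ⟨n, rfl, rfl⟩⟩
  succ a h1 h2 := by
    obtain ⟨q, hq', hq, b, hb, h3, h4⟩ := g.meet .succ [] [] [a] mem_list₀ mem_list₀
      (mem_list₁ a.2) p₀ g.G_p0 fun q _ => by
        obtain ⟨r, h3, b, h4, h5⟩ := S.succ a h1 h2 q
        exact ⟨r, h3, b, h4, fun c hc => (h5 c hc).elim fun e he => ⟨_, he.name⟩⟩
    exact ⟨⟨b, hb⟩, h3, fun c hc => exists_tim g hq hq' (h4 c hc)⟩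
  pow a ha := by
    obtain ⟨q, hq', hq, b, hb, h1, h2⟩ := g.meet .pow [] [] [a] mem_list₀ mem_list₀
      (mem_list₁ a.2) p₀ g.G_p0 fun q _ => exists_EN S ha q
    obtain ⟨σ, hσ, h3⟩ := g.clN .pow [] [q] [a, b] mem_list₀ (mem_list₁ hq') (mem_list₂ a.2 hb) h2
    refine ⟨⟨b, hb⟩, h1, g.toGen.cl ⟨σ, hσ⟩, fun u => ?_⟩
    obtain ⟨⟨u, hu⟩, rfl⟩ := g.toGen.cl_surj u
    obtain ⟨s, _, hs, z, hz, h4, h5⟩ := g.meet .powz [σ, u] [] [a, b] (mem_list₂ hσ hu) mem_list₀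
      (mem_list₂ a.2 hb) q hq (h3 u)
    refine ⟨⟨z, hz⟩, h4, fun x hx => ?_⟩
    rw [ap_iff, ap_iff]
    constructor <;> rintro ⟨r, hr, h6⟩ <;> obtain ⟨t, ht, h7, h8⟩ := g.dir _ _ hr hs
    · exact ⟨t, ht, (h5 x hx t h8).1 (h6.mono _ _ _ _ _ h7)⟩
    · exact ⟨t, ht, (h5 x hx t h8).2 (h6.mono _ _ _ _ _ h7)⟩
  big ν hν := by
    rcases S.big ν hν with ⟨b, h1, e, h2⟩ | ⟨h1, h2⟩
    · obtain ⟨q, hq', hq, b, hb, h3, h4⟩ := g.meet .nc [] [] [ν] mem_list₀ mem_list₀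
        (mem_list₁ ν.2) p₀ g.G_p0 fun q _ => ⟨q, le_rfl, b, h1, _, (h2 q).name⟩
      exact Or.inl ⟨⟨b, hb⟩, h3, exists_tim g hq hq' h4⟩
    · exact Or.inr ⟨regM g h1, polM g h2⟩

omit g in
theorem PSys.exists_md (S : PSys P O) : ∃ (M : Type 1) (E : M → M → Prop), IsZFC E ∧
    ∃ (J : Type) (_ : LinearOrder J) (_ : WellFoundedLT J), Nonempty (MD E J) := by
  obtain ⟨p₀⟩ := S.ne
  obtain ⟨g⟩ := exists_genW p₀ (S.nat 0) (RN S) (WW S)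
  exact ⟨_, g.toGen.E, g.zfc, g.AN, inferInstance, inferInstance, ⟨md g⟩⟩

end Pool.Agent.Work.MP_58a5a1_lc
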