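import Pool.Agent.Work.MP_58a5a1_lc.Prikry

/-! The chain condition, regularity, collapses and the enumeration of subsets. -/

namespace Pool.Agent.Work.MP_58a5a1_lc
open Cardinal Set Order Filter

variable {O : Type} [LinearOrder O] {X : Ctx O}

namespace Cond

def supp (p : Cond X) : Set O := ⋃ n, p.a n ∪ Prod.fst '' p.f n

def tp (s : Set O) (p : Cond X) : Set (ℕ × ℕ × O × O × O) :=
  {z | match z with
    | (0, n, x, y, w) => n = p.l ∧ x = X.bot ∧ y = X.bot ∧ w = X.bot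
    | (1, n, x, y, w) => x ∈ s ∧ (x, y) ∈ p.f n ∧ w = X.bot
    | (2, n, x, y, w) => x ∈ s ∧ x ∈ p.a n ∧ y = X.bot ∧ w = X.bot
    | (3, n, x, y, w) => n < p.l ∧ x = (p.s n).τ ∧ y = X.bot ∧ w = X.bot
    | (4, n, x, y, w) => n < p.l ∧ (x, y) ∈ (p.s n).d ∧ w = X.bot
    | (5, n, x, y, w) => n < p.l ∧ (x, y) ∈ (p.s n).h ∧ w = X.bot
    | (6, n, x, y, w) => p.l ≤ n ∧ (x, y) ∈ lo X.lm (p.s n).c ∧ w = X.bot
    | (_ + 7, n, x, y, w) => p.l ≤ n ∧ (y, w) ∈ (p.s n).H x}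

theorem bot_mem_L : X.bot ∈ X.L := (X.bot_le _).trans_lt (X.k_mem_L 0)

theorem tp_sub (s : Set O) (p : Cond X) :
    tp s p ⊆ Set.univ ×ˢ Set.univ ×ˢ (s ∪ X.L) ×ˢ X.L ×ˢ X.L := by
  have hb := bot_mem_L (X := X)
  have hk : ∀ {n} {x : O}, x < X.k n → x ∈ X.L := fun h => X.Iio_sub_L le_rfl h
  have hσ : ∀ {n} {x : O}, x < X.ini (X.σ n) → x ∈ X.L := fun h =>
    hk (h.trans (X.ini_lt_ini (X.σ_lt _) (X.κ_le_Lam _)))
  rintro ⟨i, n, x, y, w⟩ h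
  refine ⟨trivial, trivial, ?_⟩
  rcases i with _ | _ | _ | _ | _ | _ | _ | i
  · obtain ⟨-, rfl, rfl, rfl⟩ := h; exact ⟨Or.inr hb, hb, hb⟩
  · obtain ⟨h1, h2, rfl⟩ := h; exact ⟨Or.inl h1, ((p.hf n).1 h2).2, hb⟩
  · obtain ⟨h1, -, rfl, rfl⟩ := h; exact ⟨Or.inl h1, hb, hb⟩
  · obtain ⟨h1, rfl, rfl, rfl⟩ := h; exact ⟨Or.inr (hk (p.hc n h1).2.1.2), hb, hb⟩
  · obtain ⟨h1, h2, rfl⟩ := h
    have := X.LC_sub (p.hc n h1).2.1 (p.hc n h1).2.2.1 h2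
    exact ⟨Or.inr (hk this.1), hk this.2, hb⟩
  · obtain ⟨h1, h2, rfl⟩ := h
    have := (X.HC_sub (p.hc n h1).2.2.2).1 h2
    exact ⟨Or.inr (hσ this.1), hσ this.2, hb⟩
  · obtain ⟨h1, h2, rfl⟩ := h
    exact ⟨Or.inr h2.2, ((p.hu n h1).2.2.1.1.1 h2).2, hb⟩
  · obtain ⟨h1, h2⟩ := h
    have h3 := (p.hu n h1).2.2.2 x
    have := (X.HC_sub h3).1 h2
    exact ⟨Or.inr (hk (X.HC_lt h3 h2)), hσ this.1, hσ this.2⟩

theorem compat_of_tp {p q : Cond X} {s : Set O} (h : tp s p = tp s q) (hs : p.supp ∩ q.supp ⊆ s)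
    (hq : q.q ⊆ p.q) : ∃ r, r ≤ p ∧ r ≤ q := by
  have h' : ∀ z, z ∈ tp s q → z ∈ tp s p := fun z hz => h ▸ hz
  have hl : q.l = p.l := (h' (0, q.l, X.bot, X.bot, X.bot) ⟨rfl, rfl, rfl, rfl⟩).1
  have ha : ∀ {p : Cond X} {n γ}, γ ∈ p.a n → γ ∈ p.supp := fun h => mem_iUnion.2 ⟨_, Or.inl h⟩
  have hf : ∀ {p : Cond X} {n γ y}, (γ, y) ∈ p.f n → γ ∈ p.supp := fun h =>
    mem_iUnion.2 ⟨_, Or.inr ⟨_, h, rfl⟩⟩
  have h1 : ∀ n γ y, γ ∈ p.supp → (γ, y) ∈ q.f n → (γ, y) ∈ p.f n := fun n γ y h1 h2 =>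
    (h' (1, n, γ, y, X.bot) ⟨hs ⟨h1, hf h2⟩, h2, rfl⟩).2.1
  have h2 : ∀ n γ, γ ∈ p.supp → γ ∈ q.a n → γ ∈ p.a n := fun n γ h1 h2 =>
    (h' (2, n, γ, X.bot, X.bot) ⟨hs ⟨h1, ha h2⟩, h2, rfl, rfl⟩).2.1
  refine ⟨⟨p.l, fun n => p.f n ∪ q.f n,
    fun n => {p.s n with a := p.a n ∪ q.a n, A := (p.s n).A ∩ (q.s n).A, c := (p.s n).c ∪ p.q},
      p.q, p.hq, fun n hn => Ctx.up_union_sub (p.hg n hn), fun n =>
      ⟨union_subset (p.hf n).1 (q.hf n).1, ?_,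
        lt_union X.lam_reg.aleph0_le (p.hf n).2.2 (q.hf n).2.2⟩, ?_,
      fun n hn => ⟨union_empty_iff.2 ⟨(p.hc n hn).1, (q.hc n (hl ▸ hn)).1⟩, (p.hc n hn).2⟩,
      fun n hn => ⟨lt_union (X.aleph0_le_κ _) (p.mk_a_lt n) (q.mk_a_lt n),
        inter_mem (p.hu n hn).2.1 (q.hu n (hl ▸ hn)).2.1,
        Ctx.LC_union (p.hu n hn).2.2.1 p.hq (p.hg n hn), (p.hu n hn).2.2.2⟩⟩,
    ⟨le_rfl, fun _ => subset_union_left, Subset.rfl, fun n _ => ⟨rfl, Subset.rfl, Subset.rfl⟩,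
      fun n h3 h4 => absurd h3 (not_le.2 h4),
      fun n _ => ⟨subset_union_left, inter_subset_left, subset_union_left, fun _ => Subset.rfl⟩⟩,
    ⟨hl.le, fun _ => subset_union_right, hq, fun n hn => ⟨?_, fun z hz => ?_, fun z hz => ?_⟩,
      fun n h3 h4 => absurd (hl ▸ h3) (not_le.2 h4),
      fun n hn => ⟨subset_union_right, inter_subset_right, fun z hz => ?_, fun t z hz => ?_⟩⟩⟩
  · rintro i y y' (h3 | h3) (h4 | h4)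
    · exact (p.hf n).2.1 _ _ _ h3 h4
    · exact (p.hf n).2.1 _ _ _ h3 (h1 n _ _ (hf h3) h4)
    · exact (p.hf n).2.1 _ _ _ (h1 n _ _ (hf h4) h3) h4
    · exact (q.hf n).2.1 _ _ _ h3 h4
  · rintro n γ y (h3 | h3) (h4 | h4)
    · exact p.hd n γ y h3 h4
    · exact p.hd n γ y h3 (h1 n _ _ (ha h3) h4)
    · exact p.hd n γ y (h2 n _ (hf h4) h3) h4
    · exact q.hd n γ y h3 h4
  · exact (h' (3, n, (q.s n).τ, X.bot, X.bot) ⟨hn, rfl, rfl, rfl⟩).2.1.symm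
  · exact (h' (4, n, z.1, z.2, X.bot) ⟨hn, hz, rfl⟩).2.1
  · exact (h' (5, n, z.1, z.2, X.bot) ⟨hn, hz, rfl⟩).2.1
  · rcases lt_or_ge z.1 X.lm with h3 | h3
    · exact Or.inl (h' (6, n, z.1, z.2, X.bot) ⟨hl.trans_le hn, ⟨hz, h3⟩, rfl⟩).2.1.1
    · exact Or.inr (hq (q.hg n (hl.trans_le hn) ⟨hz, h3⟩))
  · exact (h' (7, n, t, z.1, z.2) ⟨hl.trans_le hn, hz⟩).2

theorem lcc [WellFoundedLT O] {J : Type} (I : Set J) (hI : #I ≤ succ X.lam) (A : J → Set (Cond X))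
    {g₀ : Set (O × O)} (h₀ : g₀ ∈ X.QF) : ∃ g ∈ X.QF, g₀ ⊆ g ∧ ∀ j ∈ I, ∃ B ⊆ A j,
      #B ≤ succ X.lam ∧ ∀ p ∈ A j, g ⊆ p.q → ∃ q ∈ B, ∃ r, r ≤ p ∧ r ≤ q := by
  have h0 := X.aleph0_le_lam
  obtain ⟨g, h1, h2⟩ := exists_lpre h0 X.sch supp (fun p => sm_iUnion h0 (mk_le_aleph0.trans h0)
    fun n => sm_union h0 ((p.mk_a_lt n).le.trans (X.lt_lam _).le)
      (sm_image _ (le_of_lt_succ (p.hf n).2.2)))
    tp (fun s hs => by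
      refine sm_mono ?_ ((sm_pow (sm_prod h0 (sm_count h0 (Set.univ : Set ℕ))
        (sm_prod h0 (sm_count h0 (Set.univ : Set ℕ)) (sm_prod h0 (sm_union h0 hs X.mk_L.le)
          (sm_prod h0 X.mk_L.le X.mk_L.le))))).trans X.sch.le)
      rintro _ ⟨p, rfl⟩
      exact tp_sub s p)
    (fun p q => ∃ r, r ≤ p ∧ r ≤ q) (fun p q ⟨r, h1, h2⟩ => ⟨r, h2, h1⟩)
    (G := X.QF) (R := fun d c => c.1 ⊆ d.1)
    (fun _ => Subset.rfl) (fun _ _ _ h h' => h'.trans h) X.QF_ucl.closed (fun p => ⟨p.q, p.hq⟩)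
    (fun p q s => compat_of_tp) I hI A ⟨g₀, h₀⟩
  exact ⟨g.1, g.2, h1, fun j hj => (h2 j hj).imp fun B h => ⟨h.1, h.2.1, h.2.2.2⟩⟩

end Cond

/-- Local small predense subsets of fewer than `μ` open sets. -/
def LP (X : Ctx O) (μ : Cardinal.{0}) : Prop :=
  ∀ (J : Type) (I : Set J), #I < μ → ∀ D : J → Set (Cond X), (∀ j, Mono (· ∈ D j)) → ∀ p,
    ∃ q, q ≤ p ∧ ∀ j ∈ I, ∃ B ⊆ D j, #B < μ ∧ ∀ r, r ≤ q → r ∈ D j → ∃ r' ∈ B, ∃ s, s ≤ r ∧ s ≤ r'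

theorem LP_two [WellFoundedLT O] (X : Ctx O) : LP X (succ (succ X.lam)) := by
  intro J I hI D _ p
  obtain ⟨g, h1, h2, h3⟩ := Cond.lcc I (le_of_lt_succ hI) D p.hq
  exact ⟨p.wq g h1 h2, (Cond.wq_lek 0).1, fun j hj => (h3 j hj).imp fun B h =>
    ⟨h.1, lt_succ_of_le h.2.1, fun r hr h4 => h.2.2 r h4 hr.q⟩⟩

theorem Ctx.mk_QF (X : Ctx O) : #X.QF ≤ 2 ^ succ X.lam := by
  have h0 := X.lam_reg.aleph0_le
  have h1 := X.mk_ini (2 ^ succ X.lam) (le_succ _)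
  refine sm_mono (fun g hg => ?_)
    (mk_small_pow h0 le_rfl (sm_prod (h0.trans (cantor _).le) h1.le h1.le))
  exact ⟨fun z hz => ⟨(hg.1 hz).1.2.trans_le (X.ini_le_ini (ss_le_pow _) (le_succ _)),
    (hg.1 hz).2⟩, le_of_lt_succ hg.2.2⟩

theorem LP_top [WellFoundedLT O] (X : Ctx O) : LP X (s3 X.lam) := by
  intro J I _ D hD p
  refine ⟨p, le_rfl, fun j _ => ?_⟩
  choose g h1 h2 h3 using fun g : X.QF => Cond.lcc {j}
    (sm_sing X.lam_reg.aleph0_le j) D g.2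
  choose B h4 h5 h6 using fun g => h3 g j rfl
  refine ⟨⋃ g, B g, iUnion_subset h4, lt_succ_of_le (sm_iUnion
    (X.lam_reg.aleph0_le.trans (cantor _).le) X.mk_QF fun g => (h5 g).trans (cantor _).le),
    fun r _ hr => ?_⟩
  have h7 := (Cond.wq_lek 0 (hg := h1 ⟨_, r.hq⟩) (h := h2 ⟨_, r.hq⟩)).1
  obtain ⟨r', h8, s, h9, h10⟩ := h6 ⟨_, r.hq⟩ _ (hD j _ _ h7 hr) Subset.rfl
  exact ⟨r', mem_iUnion.2 ⟨_, h8⟩, s, h9.trans h7, h10⟩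

theorem regS_high {μ : Cardinal.{0}} (hμ : μ.IsRegular) (h : μ ≤ s3 X.lam) (h' : LP X μ) :
    RegS (Cond X) (X.ini μ) := by
  intro V hV hfun β hβ p
  obtain ⟨p', hp', h0⟩ := h' O (Iio β) ((X.lt_ini μ h β).1 hβ) (fun b => {q | ∃ c < X.ini μ, V b c q})
    (fun b r s hs ⟨c, h1, h2⟩ => ⟨c, h1, hV _ _ _ _ hs h2⟩) p
  choose! B h1 h2 h3 using h0
  obtain ⟨γ, h4, h5⟩ := X.bounded hμ h (s := ⋃ b ∈ Iio β, ⋃ q ∈ B b, {c | c < X.ini μ ∧ V b c q})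
    (iUnion₂_subset fun _ _ => iUnion₂_subset fun _ _ _ h => h.1)
    ((card_biUnion_lt_iff_forall_of_isRegular
      (t := fun b _ => ⋃ q ∈ B b, {c | c < X.ini μ ∧ V b c q}) hμ ((X.lt_ini μ h β).1 hβ)).2
      fun b hb => (card_biUnion_lt_iff_forall_of_isRegular
        (t := fun q _ => {c | c < X.ini μ ∧ V b c q}) hμ (h2 b hb)).2 fun q _ =>
        (mk_le_one_iff_set_subsingleton.2 fun c hc c' hc' => hfun b c c' q hc.2 hc'.2).trans_lt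
          (one_lt_aleph0.trans_le hμ.aleph0_le))
  refine ⟨p', hp', γ, h4, γ, h4, fun _ _ _ => False, fun _ _ _ _ _ h => h, fun _ _ _ _ h => h.elim,
    fun b hb c hc r hp hr => Or.inl ?_⟩
  obtain ⟨q, h6, s, h7, h8⟩ := h3 b hb r hp ⟨c, hc, hr⟩
  obtain ⟨c', h9, h10⟩ := h1 b hb h6
  rw [hfun b c c' s (hV _ _ _ _ h7 hr) (hV _ _ _ _ h8 h10)]
  exact h5 _ (mem_biUnion hb (mem_biUnion h6 ⟨h9, h10⟩))

theorem regS_low (X : Ctx O) (P : Type) [Preorder P] : RegS P (X.ini (succ X.lam)) := by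
  intro V hV hfun β hβ p
  have h : succ X.lam ≤ s3 X.lam := (succ_lt_s3 _).le
  have h1 : ∀ a, ∃ g : O → O, a < X.ini (succ X.lam) → InjOn g (Iio a) ∧ MapsTo g (Iio a) X.L := by
    intro a
    by_cases ha : a < X.ini (succ X.lam)
    · obtain ⟨g, h1, h2, -⟩ := exists_injOn (s := Iio a) (t := X.L) (by
        rw [X.mk_L]; exact le_of_lt_succ ((X.lt_ini _ h a).1 ha)) a
      exact ⟨g, fun _ => ⟨h1, h2⟩⟩
    · exact ⟨id, fun h => absurd h ha⟩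
  choose g hg using h1
  obtain ⟨π, h2, h3, -⟩ := exists_injOn (s := X.L ×ˢ X.L) (t := X.L)
    (by rw [X.mk_L]; exact sm_prod X.aleph0_le_lam X.mk_L.le X.mk_L.le) X.bot
  have h4 := X.ini_lt_ini (lt_succ X.lam) h
  refine ⟨p, le_rfl, _, h4, _, h4, fun c z r => ∃ b < β, ∃ c' < X.ini (succ X.lam), V b c' r ∧ c < c' ∧
    z = π (g β b, g c' c), ?_, ?_, fun b hb c' hc' r _ hr => Or.inr fun c hc =>
      ⟨_, h3 ⟨(hg β hβ).2 hb, (hg c' hc').2 hc⟩, b, hb, c', hc', hr, hc, rfl⟩⟩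
  · rintro c z p q hq ⟨b, h5, c', h6, h7, h8⟩
    exact ⟨b, h5, c', h6, hV _ _ _ _ hq h7, h8⟩
  · rintro c₁ c₂ z r ⟨b₁, h5, c₁', h6, h7, h8, h9⟩ ⟨b₂, h5', c₂', h6', h7', h8', h9'⟩
    have h10 := Prod.mk.inj (h2 ⟨(hg β hβ).2 h5, (hg _ h6).2 h8⟩ ⟨(hg β hβ).2 h5', (hg _ h6').2 h8'⟩
      (h9.symm.trans h9'))
    obtain rfl := (hg β hβ).1 h5 h5' h10.1
    obtain rfl := hfun _ _ _ _ h7 h7'
    exact (hg _ h6).1 h8 h8' h10.2

theorem TI_of_le {P : Type} [Preorder P] {c b : O} (h : #(Iio c) ≤ #(Iio b)) :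
    ∃ e : O → O → P → Prop, ∀ q, TI e c b q := by
  obtain ⟨g, h1, h2, -⟩ := exists_injOn h b
  exact ⟨fun x y _ => x < c ∧ g x = y, fun q => ⟨fun _ _ _ _ _ h => h,
    fun x hx r _ => ⟨r, le_rfl, g x, h2 hx, hx, rfl⟩,
    fun x x' y r h3 h4 => h1 h3.1 h4.1 (h3.2.trans h4.2.symm)⟩⟩

namespace Cond

theorem exists_cc {p : Cond X} {n : ℕ} (hn : n < p.l) {r : Rest O} (hr : X.VC n r)
    (h : CC r (p.s n)) : ∃ q, q ≤ p ∧ q.s n = r := by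
  refine ⟨⟨p.l, p.f, Function.update p.s n r, p.q, p.hq,
    fun m hm => by rw [Function.update_of_ne (by omega)]; exact p.hg m hm, p.hf,
    fun m γ y hγ => ?_, fun m hm => ?_,
    fun m hm => ?_⟩, ⟨le_rfl, fun _ => Subset.rfl, Subset.rfl, fun m _ => ?_,
      fun m h1 h2 => absurd h1 (not_le.2 h2), fun m hm => ?_⟩, Function.update_self ..⟩
  · by_cases h1 : m = n
    · subst h1; rw [Function.update_self, hr.1] at hγ; exact hγ.elim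
    · rw [Function.update_of_ne h1] at hγ; exact p.hd m γ y hγ
  · by_cases h1 : m = n
    · subst h1; rwa [Function.update_self]
    · rw [Function.update_of_ne h1]; exact p.hc m hm
  · rw [Function.update_of_ne (by omega)]; exact p.hu m hm
  · show CC (Function.update p.s n r m) _
    by_cases h1 : m = n
    · subst h1; rwa [Function.update_self]
    · rw [Function.update_of_ne h1]; exact CC.refl _
  · show UU (Function.update p.s n r m) _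
    rw [Function.update_of_ne (hn.trans_le hm).ne']; exact UU.refl _

theorem TI_d {q : Cond X} {n : ℕ} (hn : n < q.l) (W : Set (O × O) → Set (O × O))
    (hW : ∀ c d, c ⊆ d → W c ⊆ W d) {c b : O}
    (h1 : ∀ d ∈ X.LC n (q.s n).τ, ∀ i y y', (i, y) ∈ W d → (i, y') ∈ W d → y = y')
    (h2 : ∀ d ∈ X.LC n (q.s n).τ, ∀ x < c, ∃ d' ∈ X.LC n (q.s n).τ, d ⊆ d' ∧ ∃ i < b, (i, x) ∈ W d') :
    ∃ e, TI e c b q := by
  refine ⟨fun x y r => r ≤ q ∧ (y, x) ∈ W (r.s n).d, fun x y r s hs h =>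
    ⟨hs.trans h.1, hW _ _ (hs.cc n (hn.trans_le h.1.l)).2.1 h.2⟩, fun x hx r hr => ?_,
    fun x x' y r h3 h4 => h1 _ ((h3.1.cc n hn).1 ▸ (r.hc n (hn.trans_le h3.1.l)).2.2.1) _ _ _
      h3.2 h4.2⟩
  have h3 := hn.trans_le hr.l
  have hv := r.hc n h3
  have e := (hr.cc n hn).1
  obtain ⟨d, h4, h5, i, h6, h7⟩ := h2 _ (e ▸ hv.2.2.1) x hx
  obtain ⟨s, h8, h9⟩ := exists_cc h3 (r := {r.s n with d := d})
    ⟨hv.1, hv.2.1, e.symm ▸ h4, hv.2.2.2⟩ ⟨rfl, h5, Subset.rfl⟩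
  exact ⟨s, h8, i, h6, h8.trans hr, by rwa [h9]⟩

theorem TI_h {q : Cond X} {n : ℕ} (hn : n < q.l) (W : Set (O × O) → Set (O × O))
    (hW : ∀ c d, c ⊆ d → W c ⊆ W d) {c b : O}
    (h1 : ∀ d ∈ X.HC n (q.s n).τ, ∀ i y y', (i, y) ∈ W d → (i, y') ∈ W d → y = y')
    (h2 : ∀ d ∈ X.HC n (q.s n).τ, ∀ x < c, ∃ d' ∈ X.HC n (q.s n).τ, d ⊆ d' ∧ ∃ i < b, (i, x) ∈ W d') :
    ∃ e, TI e c b q := by
  refine ⟨fun x y r => r ≤ q ∧ (y, x) ∈ W (r.s n).h, fun x y r s hs h =>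
    ⟨hs.trans h.1, hW _ _ (hs.cc n (hn.trans_le h.1.l)).2.2 h.2⟩, fun x hx r hr => ?_,
    fun x x' y r h3 h4 => h1 _ ((h3.1.cc n hn).1 ▸ (r.hc n (hn.trans_le h3.1.l)).2.2.2) _ _ _
      h3.2 h4.2⟩
  have h3 := hn.trans_le hr.l
  have hv := r.hc n h3
  have e := (hr.cc n hn).1
  obtain ⟨d, h4, h5, i, h6, h7⟩ := h2 _ (e ▸ hv.2.2.2) x hx
  obtain ⟨s, h8, h9⟩ := exists_cc h3 (r := {r.s n with h := d})
    ⟨hv.1, hv.2.1, hv.2.2.1, e.symm ▸ h4⟩ ⟨rfl, Subset.rfl, h5⟩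
  exact ⟨s, h8, i, h6, h8.trans hr, by rwa [h9]⟩

theorem TI_low {q : Cond X} {n : ℕ} (hn : n < q.l) {c : O} (hc : c ≤ (q.s n).τ) :
    ∃ e, TI e c (X.ini (X.θ n)) q := by
  refine TI_d hn (lo (q.s n).τ) (fun _ _ => lo_mono) (fun d hd => hd.1.2.1) fun d hd x hx => ?_
  obtain ⟨i, h1, h2⟩ := Fn.extend (X.θ_reg n).aleph0_le (X.mk_θ n).ge hd.1 (hx.trans_le hc)
  have h3 : i < (q.s n).τ := h1.trans_le (q.hc n hn).2.1.θ_le
  exact ⟨_, Fn2.union_lo hd h2 (subset_insert _ _) fun p hp => hp.elim (fun h => h ▸ h3) fun h => h.2,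
    subset_union_left, i, h1, Or.inr (mem_insert _ _), h3⟩

theorem TI_mid {q : Cond X} {n : ℕ} (hn : n < q.l) {c : O}
    (hc : c ≤ X.ini (2 ^ succ #(Iio (q.s n).τ))) :
    ∃ e, TI e c (X.ini (succ (succ #(Iio (q.s n).τ)))) q := by
  refine TI_d hn (up (q.s n).τ) (fun _ _ => up_mono) (fun d hd => hd.2.2.1) fun d hd x hx => ?_
  have hv := (q.hc n hn).2.1
  have h0 := (X.θ_reg n).aleph0_le.trans (hv.1.trans ((le_succ _).trans (le_succ _)))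
  have h4 := (ss_lt_s3 _).le.trans ((X.s3_lt (X.lt_k.1 hv.2)).le.trans (X.κ_le_Lam _))
  obtain ⟨i, h1, h2⟩ := Fn.extend h0 (X.mk_Ico h0 h4 ((X.lt_ini _ h4 _).2
    ((lt_succ _).trans (lt_succ _)))).ge hd.2 (hx.trans_le hc)
  exact ⟨_, Fn2.union_up hd h2 (subset_insert _ _) fun p hp => (h2.1 hp).1.1,
    subset_union_left, i, h1.2, Or.inr (mem_insert _ _), h1.1⟩

theorem TI_high {q : Cond X} {n : ℕ} (hn : n < q.l) {c : O} (hc : c ≤ X.k (n + 1)) :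
    ∃ e, TI e c (X.ini (X.hi n (q.s n).τ)) q := by
  refine TI_h hn (lo (X.k (n + 1))) (fun _ _ => lo_mono) (fun d hd => hd.1.2.1) fun d hd x hx => ?_
  have hv := (q.hc n hn).2.1
  obtain ⟨i, h1, h2⟩ := Fn.extend (X.hi_reg n _).aleph0_le
    (X.mk_ini _ ((X.hi_lt hv.2).le.trans (X.κ_le_Lam _))).ge hd.1 (y := x) ⟨hv.2, hx.trans_le hc⟩
  exact ⟨_, Fn2.union_lo hd h2 (subset_insert _ _) fun p hp => (X.H1_sub h2 hp).1,
    subset_union_left, i, h1, Or.inr (mem_insert _ _), (X.H1_sub h2 (mem_insert _ _)).1⟩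

theorem TI_ex {q : Cond X} {n : ℕ} (hn : n < q.l) {c : O} (hc : c ≤ X.ini (X.σ (n + 1))) :
    ∃ e, TI e c (X.ini (succ (X.κ (n + 1)))) q := by
  refine TI_h hn (up (X.k (n + 1))) (fun _ _ => up_mono) (fun d hd => hd.2.2.1) fun d hd x hx => ?_
  have h0 := (X.κs_reg (n + 1)).aleph0_le
  have h4 := X.le_Lam (X.succ_lt_lam (X.lt_lam (n + 1))).le
  obtain ⟨i, h1, h2⟩ := Fn.extend h0 (X.mk_Ico h0 h4 (X.ini_lt_ini (lt_succ _) h4)).ge hd.2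
    (y := x) ⟨(q.hc n hn).2.1.2, hx.trans_le hc⟩
  exact ⟨_, Fn2.union_up hd h2 (subset_insert _ _) fun p hp => (h2.1 hp).1.1,
    subset_union_left, i, h1.2, Or.inr (mem_insert _ _), h1.1⟩

theorem TI_top {c : O} (hc : c ≤ X.ini (2 ^ succ X.lam)) :
    ∃ e : O → O → Cond X → Prop, ∀ q, TI e c (X.ini (succ (succ X.lam))) q := by
  refine ⟨fun x y r => (y, x) ∈ r.q, fun q => ⟨fun x y r s hs h => hs.q h, fun x hx r _ => ?_,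
    fun x x' y r => r.hq.2.1 _ _ _⟩⟩
  obtain ⟨i, h1, h2⟩ := Fn.extend X.lam2_reg.aleph0_le (X.mk_Ico X.lam2_reg.aleph0_le
    (ss_lt_s3 _).le (X.ini_lt_ini ((lt_succ _).trans (lt_succ _)) (ss_lt_s3 _).le)).ge r.hq
    (hx.trans_le hc)
  exact ⟨r.wq _ h2 (subset_insert _ _), (wq_lek 0).1, i, h1.2, mem_insert _ _⟩

theorem succ_step {q : Cond X} {a : O} {μ : Cardinal.{0}} (hμ : succ μ ≤ s3 X.lam)
    (h : ¬ ∃ b < a, ∀ c < a, ∃ e, TI e c b q) (ha : a ≤ X.ini (succ μ)) : a ≤ X.ini μ := by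
  refine not_lt.1 fun hc => h ⟨_, hc, fun c h1 => ?_⟩
  obtain ⟨e, he⟩ := TI_of_le (P := Cond X) (c := c) (b := X.ini μ) (by
    rw [X.mk_ini μ ((le_succ _).trans hμ)]
    exact le_of_lt_succ ((X.lt_ini _ hμ c).1 (h1.trans_le ha)))
  exact ⟨e, he q⟩

theorem succ_sys (a : O) (h1 : X.k 0 < a) (h2 : a ∈ X.L) (p : Cond X) :
    ∃ q, q ≤ p ∧ ∃ b < a, ∀ c < a, ∃ e, TI e c b q := by
  classical
  have h3 : ∃ n, a ≤ X.k n := by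
    obtain ⟨n, hn⟩ := X.cof _ (X.mem_L.1 h2)
    exact ⟨n, (X.lt_k.2 hn).le⟩
  obtain ⟨n, h4, h5⟩ : ∃ n, X.k n < a ∧ a ≤ X.k (n + 1) := by
    have h4 := Nat.find_spec h3
    obtain h5 | h5 := Nat.eq_zero_or_eq_succ_pred (Nat.find h3)
    · rw [h5] at h4; exact absurd h1 (not_lt.2 h4)
    · exact ⟨(Nat.find h3).pred, not_le.1 (Nat.find_min h3 (by omega)), by rwa [h5] at h4⟩
  obtain ⟨q, h6, h7⟩ := p.exists_len (n + 1)
  refine ⟨q, h6, by_contra fun h => ?_⟩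
  have hv := (q.hc n h7).2.1
  have h8 : a ≤ X.ini (X.hi n (q.s n).τ) := not_lt.1 fun hc =>
    h ⟨_, hc, fun c hc => TI_high h7 (hc.le.trans h5)⟩
  have h9 := (X.hi_lt hv.2).le.trans (X.κ_le_Lam _)
  rw [hv.hi_eq] at h8 h9
  have l1 := (le_succ _).trans h9
  have l2 := (ss_lt_s3 _).le.trans l1
  have m1 := succ_step l1 h (succ_step h9 h h8)
  have m2 : a ≤ X.ini (succ (succ #(Iio (q.s n).τ))) := not_lt.1 fun hc =>
    h ⟨_, hc, fun c hc => TI_mid h7 (hc.le.trans m1)⟩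
  have h10 := (succ_step ((le_succ _).trans l2) h (succ_step l2 h m2)).trans (X.ini_le le_rfl)
  have h11 : a ≤ X.ini (X.θ n) := not_lt.1 fun hc =>
    h ⟨_, hc, fun c hc => TI_low h7 (hc.le.trans h10)⟩
  have h12 := succ_step (X.Γ_le_Lam n) h (succ_step (X.θ_le_Lam n) h h11)
  refine absurd h4 (not_lt.2 ?_)
  rcases n with _ | n
  · rwa [Ctx.k, X.κ_zero]
  · exact succ_step (X.le_Lam (X.succ_lt_lam (X.lt_lam _)).le) h (not_lt.1 fun hc =>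
      h ⟨_, hc, fun c hc => TI_ex (by omega) (hc.le.trans h12)⟩)

theorem enum_iff {r : Cond X} {U : O → Cond X → Prop} (hU : ∀ x, Mono (U x))
    {F : Set (O × ℕ × (ℕ → Sm O))} (h1 : ∀ x k t, (x, k, t) ∈ F → Δ r k t (U x) true) {x : O} {k : ℕ}
    (hx : x < X.ini (X.Γ k)) (hr : Red k r U) (h2 : ∀ t, Δ r k t (U x) true → (x, k, t) ∈ F)
    {s : Cond X} (hs : s ≤ r) : Dns (U x) s ↔ Dns (fun s => ∃ k t, (x, k, t) ∈ F ∧ Fits k s t) s := by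
  refine ⟨fun h s₁ h3 => ?_, fun h => Dns.dns fun s₁ h3 => ?_⟩
  · obtain ⟨s₂, h4, h5⟩ := s₁.exists_len k
    obtain ⟨s₃, h6, b, ht, h7⟩ := hr.capture hx (hU x) (h4.trans (h3.trans hs)) h5
    have h8 := h6.trans (h4.trans h3)
    have h9 := h5.trans h6.l
    obtain ⟨s₄, h10, h11⟩ := h s₃ h8
    obtain rfl := (h7.mono (h10.trans (le_ap_stem (h8.trans hs) h9))).eq_true h11
    exact ⟨s₃, h6.trans h4, k, _, h2 _ ⟨ht, h7⟩, fits_stem r h9⟩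
  · obtain ⟨s₂, h4, k, t, h5, h6⟩ := h s₁ h3
    obtain ⟨ht, h7⟩ := h1 x k t h5
    exact ⟨s₂, h4, h7.mono (le_ap ht h6 (above_of_le (h4.trans (h3.trans hs)) k))⟩

end Cond

theorem exists_enum {α : Type} {F : Set α} {b : O} (h : #F ≤ #(Iio b)) (a₀ : α) :
    ∃ en : O → α, ∀ a ∈ F, ∃ z < b, en z = a := by
  obtain ⟨g, h1, h2, -⟩ := exists_injOn h b
  have : Nonempty α := ⟨a₀⟩
  exact ⟨Function.invFunOn g F, fun a ha => ⟨g a, h2 ha, h1.leftInvOn_invFunOn ha⟩⟩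

theorem Ctx.mk_bounded (X : Ctx O) {α : Type} {Y : Set α} (h : #Y ≤ s3 X.lam) :
    #{F : Set α | F ⊆ Y ∧ #F ≤ X.lam} ≤ s3 X.lam :=
  mk_small_succ X.lam_reg.aleph0_le (le_succ _) h

theorem pow_sys (a : O) (ha : a ≤ X.ini X.lam) (p : Cond X) :
    ∃ q, q ≤ p ∧ ∃ b, (a < X.ini X.lam → b < X.ini X.lam) ∧ ∃ S : O → O → Cond X → Prop,
    (∀ z x, Mono (S z x)) ∧ ∀ U : O → Cond X → Prop, (∀ x, Mono (U x)) → ∀ r, r ≤ q → ∃ s, s ≤ r ∧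
      ∃ z < b, ∀ x < a, ∀ s', s' ≤ s → (Dns (U x) s' ↔ Dns (S z x) s') := by
  have hm : ∀ (en : O → Set (O × ℕ × (ℕ → Sm O))) z x,
      Mono fun s : Cond X => ∃ k t, (x, k, t) ∈ en z ∧ Cond.Fits k s t :=
    fun en z x p q hq ⟨k, t, h1, h2⟩ => ⟨k, t, h1, h2.mono hq⟩
  have hk : ∀ {x k}, x < X.k k → x < X.ini (X.Γ k) := fun h =>
    h.trans_le (X.ini_le_ini (X.κ_le_Γ _) (X.Γ_le_Lam _))
  rcases ha.lt_or_eq with ha | rfl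
  · obtain ⟨k, h1⟩ := X.cof _ (X.mem_L.1 ha)
    obtain ⟨q, h2, h3⟩ := p.exists_len k
    have h0 := X.aleph0_le_σ k
    have h4 := X.pow_lt_lam ((X.σ_lt k).trans (X.lt_lam _))
    obtain ⟨en, hen⟩ := exists_enum (F := 𝒫 (Iio a ×ˢ {k} ×ˢ X.St k fun _ => ∅))
      (b := X.ini (2 ^ X.σ k)) (by
        rw [X.mk_ini _ (X.le_Lam h4.le)]
        exact sm_pow (sm_prod h0 (h1.le.trans (X.κ_le_σ k)) (sm_prod h0 (sm_sing h0 _)
          (X.mk_St fun m => by rw [mk_eq_zero]; exact (X.reg _).pos)))) ∅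
    refine ⟨q, h2, _, fun _ => X.ini_lt_ini h4 (le_s3 _), _, hm en, fun U hU r hr => ?_⟩
    obtain ⟨s, h5, h6⟩ := Cond.exists_red k r U
    obtain ⟨z, h7, h8⟩ := hen {y | y.1 < a ∧ y.2.1 = k ∧ Cond.Δ s k y.2.2 (U y.1) true}
      fun y hy => ⟨hy.1, hy.2.1, by
        rw [Ctx.St_congr (b := s.a) fun m hm => (s.hc m (hm.trans_le (h3.trans (h5.1.trans hr).l))).1.symm]
        exact hy.2.2.1⟩
    refine ⟨s, h5.1, z, h7, fun x hx s' hs' => ?_⟩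
    rw [h8]
    exact Cond.enum_iff hU (fun x k' t h => by obtain ⟨-, rfl, h⟩ := h; exact h)
      (hk (hx.trans (X.lt_k.2 h1))) h6 (fun t ht => show _ ∧ _ ∧ _ from ⟨hx, rfl, ht⟩) hs'
  · have h0 := X.aleph0_le_lam
    have h1 := X.le_Lam h0
    let Z : Set (Sm O) := {s | #s.ν ≤ X.lam ∧ #s.d ≤ X.lam ∧ #s.h ≤ X.lam}
    have h2 := X.mk_bounded (Y := (Set.univ : Set O) ×ˢ (Set.univ : Set O))
      (sm_prod h1 (sm_univ X.mk_O_le) (sm_univ X.mk_O_le))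
    have hZ : #Z ≤ s3 X.lam := by
      refine sm_inj (fun s : Sm O => (s.τ, s.ν, s.d, s.h)) ?_ ?_
        (sm_prod h1 (sm_univ X.mk_O_le) (sm_prod h1 h2 (sm_prod h1 h2 h2)))
      · rintro ⟨_, _, _, _⟩ _ ⟨_, _, _, _⟩ _ h
        simp only [Prod.mk.injEq] at h
        obtain ⟨rfl, rfl, rfl, rfl⟩ := h
        rfl
      · exact fun s hs => ⟨trivial, ⟨fun _ _ => ⟨trivial, trivial⟩, hs.1⟩,
          ⟨fun _ _ => ⟨trivial, trivial⟩, hs.2.1⟩, ⟨fun _ _ => ⟨trivial, trivial⟩, hs.2.2⟩⟩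
    obtain ⟨en, hen⟩ := exists_enum (b := X.ini (s3 X.lam)) ((X.mk_bounded
      (sm_prod h1 (sm_univ X.mk_O_le) (sm_prod h1 (sm_count h1 (Set.univ : Set ℕ))
        (sm_iUnion h1 (mk_le_aleph0.trans h1) fun k => sm_seq h1 (fun _ => Z) X.dflt k
          fun _ _ => hZ)))).trans (X.mk_ini _ le_rfl).ge) ∅
    refine ⟨p, le_rfl, X.ini (s3 X.lam), fun h => absurd h (lt_irrefl _), _, hm en, fun U hU r _ => ?_⟩
    obtain ⟨s, h5, h6⟩ := Cond.exists_tr_all r U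
    have hs : ∀ {n} {d : Set (O × O)}, d ⊆ Iio (X.k n) ×ˢ Iio (X.k n) → #d ≤ X.lam := fun h =>
      sm_mono h (sm_prod h0 ((X.mk_k _).le.trans (X.lt_lam _).le) ((X.mk_k _).le.trans (X.lt_lam _).le))
    obtain ⟨z, h7, h8⟩ := hen {y | y.1 < X.k y.2.1 ∧ Cond.Δ s y.2.1 y.2.2 (U y.1) true}
      ⟨fun y hy => ⟨trivial, trivial, mem_iUnion.2 ⟨y.2.1, fun m hm => by
        have hv : X.SmV m (s.a m) (y.2.2 m) := hy.2.1.1 m hm
        exact ⟨sm_mono hv.sub (sm_prod h0 ((s.mk_a_lt m).le.trans (X.lt_lam _).le)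
          ((X.lt_k.1 hv.good.η_lt).le.trans (X.lt_lam _).le)), hs (X.LC_sub hv.good hv.d),
          (X.HC_sub hv.h).2.trans (X.lt_lam _).le⟩, hy.2.1.2⟩⟩,
        sm_mono (t := ⋃ k, Iio (X.k k) ×ˢ {k} ×ˢ X.St k s.a)
          (fun y hy => mem_iUnion.2 ⟨y.2.1, hy.1, rfl, hy.2.1⟩)
          (sm_iUnion h0 (mk_le_aleph0.trans h0) fun k => sm_prod h0
            ((X.mk_k k).le.trans (X.lt_lam k).le) (sm_prod h0 (sm_sing h0 _)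
              ((s.mk_St k).trans ((X.σ_lt k).trans (X.lt_lam _)).le)))⟩
    refine ⟨s, h5.1, z, h7, fun x hx s' hs' => ?_⟩
    obtain ⟨k, h9⟩ := X.cof _ (X.mem_L.1 hx)
    have h10 : x < X.k (max k s.l + 1) := (X.lt_k.2 h9).trans_le (X.k_mono (by omega))
    rw [h8]
    exact Cond.enum_iff hU (fun x k' t h => h.2) (hk h10) (h6 _ (le_max_right _ _)).red
      (fun t ht => show _ ∧ _ from ⟨h10, ht⟩) hs'

end Pool.Agent.Work.MP_58a5a1_lc
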