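import Pool.Agent.Work.MP_58a5a1_lc.Level

/-! The forcing conditions, their order, limits of chains and fusion. -/

namespace Pool.Agent.Work.MP_58a5a1_lc
open Cardinal Set Order Filter

structure Rest (O : Type) where
  τ : O
  d : Set (O × O)
  h : Set (O × O)
  a : Set O
  A : Set (Set O)
  c : Set (O × O)
  H : O → Set (O × O)

variable {O : Type} [LinearOrder O] (X : Ctx O)

namespace Ctx

def VC (n : ℕ) (r : Rest O) : Prop :=
  r.a = ∅ ∧ X.Good n r.τ ∧ r.d ∈ X.LC n r.τ ∧ r.h ∈ X.HC n r.τ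
def VU (n : ℕ) (r : Rest O) : Prop :=
  #r.a < X.κ (n + 1) ∧ r.A ∈ X.U n ∧ r.c ∈ X.LC n X.lm ∧ ∀ t, r.H t ∈ X.HC n t
def CU (f : Set (O × O)) (r p : Rest O) : Prop :=
  ∃ x ∈ p.A, r.τ = X.τ x ∧ X.tr x p.a ⊆ f ∧ X.rf x p.c ⊆ r.d ∧ p.H r.τ ⊆ r.h

end Ctx

omit [LinearOrder O] in
def CC (r p : Rest O) : Prop := r.τ = p.τ ∧ p.d ⊆ r.d ∧ p.h ⊆ r.h
omit [LinearOrder O] in
def UU (r p : Rest O) : Prop := p.a ⊆ r.a ∧ r.A ⊆ p.A ∧ p.c ⊆ r.c ∧ ∀ t, p.H t ⊆ r.H t

omit [LinearOrder O] in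
theorem CC.refl (r : Rest O) : CC r r := ⟨rfl, Subset.rfl, Subset.rfl⟩
omit [LinearOrder O] in
theorem UU.refl (r : Rest O) : UU r r := ⟨Subset.rfl, Subset.rfl, Subset.rfl, fun _ => Subset.rfl⟩
omit [LinearOrder O] in
theorem CC.trans {p q r : Rest O} (h : CC r q) (h' : CC q p) : CC r p :=
  ⟨h.1.trans h'.1, h'.2.1.trans h.2.1, h'.2.2.trans h.2.2⟩
omit [LinearOrder O] in
theorem UU.trans {p q r : Rest O} (h : UU r q) (h' : UU q p) : UU r p :=
  ⟨h'.1.trans h.1, h.2.1.trans h'.2.1, h'.2.2.1.trans h.2.2.1, fun t => (h'.2.2.2 t).trans (h.2.2.2 t)⟩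

variable {X} in
theorem CC.trans_CU {p q r : Rest O} {f g : Set (O × O)} (h : CC r q) (h' : X.CU f q p)
    (hf : f ⊆ g) : X.CU g r p := by
  obtain ⟨x, hx, h1, h2, h3, h4⟩ := h'
  exact ⟨x, hx, h.1.trans h1, h2.trans hf, h3.trans h.2.1, h.1 ▸ h4.trans h.2.2⟩

variable {X} in
theorem Ctx.CU.trans_UU {p q r : Rest O} {f : Set (O × O)} (h : X.CU f r q) (h' : UU q p) :
    X.CU f r p := by
  obtain ⟨x, hx, h1, h2, h3, h4⟩ := h
  exact ⟨x, h'.2.1 hx, h1, (X.tr_mono x h'.1).trans h2, (X.rf_mono x h'.2.2.1).trans h3,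
    (h'.2.2.2 _).trans h4⟩

structure Cond where
  l : ℕ
  f : ℕ → Set (O × O)
  s : ℕ → Rest O
  q : Set (O × O)
  hq : q ∈ X.QF
  hg : ∀ n, l ≤ n → up X.lm (s n).c ⊆ q
  hf : ∀ n, f n ∈ X.CF
  hd : ∀ n γ y, γ ∈ (s n).a → (γ, y) ∉ f n
  hc : ∀ n < l, X.VC n (s n)
  hu : ∀ n, l ≤ n → X.VU n (s n)

variable {X}

namespace Cond

theorem ext' {p q : Cond X} (h1 : p.l = q.l) (h2 : ∀ n, p.f n = q.f n) (h3 : ∀ n, p.s n = q.s n)
    (h4 : p.q = q.q) : p = q := by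
  cases p; cases q
  obtain rfl : _ = _ := h1
  obtain rfl : _ = _ := funext h2
  obtain rfl : _ = _ := funext h3
  obtain rfl : _ = _ := h4
  rfl

structure Le (r p : Cond X) : Prop where
  l : p.l ≤ r.l
  f : ∀ n, p.f n ⊆ r.f n
  q : p.q ⊆ r.q
  cc : ∀ n < p.l, CC (r.s n) (p.s n)
  cu : ∀ n, p.l ≤ n → n < r.l → X.CU (r.f n) (r.s n) (p.s n)
  uu : ∀ n, r.l ≤ n → UU (r.s n) (p.s n)

instance : Preorder (Cond X) where
  le := Le
  le_refl p := ⟨le_rfl, fun _ => Subset.rfl, Subset.rfl, fun _ _ => CC.refl _, fun _ h h' => absurd h (by omega),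
    fun _ _ => UU.refl _⟩
  le_trans r q p h h' := by
    have h1 := h.l
    have h2 := h'.l
    refine ⟨h2.trans h1, fun n => (h'.f n).trans (h.f n), h'.q.trans h.q,
      fun n hn => (h.cc n (by omega)).trans (h'.cc n hn), fun n h3 h4 => ?_,
      fun n hn => (h.uu n hn).trans (h'.uu n (by omega))⟩
    by_cases h5 : n < q.l
    · exact (h.cc n h5).trans_CU (h'.cu n h3 h5) (h.f n)
    · exact (h.cu n (by omega) h4).trans_UU (h'.uu n (by omega))

theorem mk_a_lt (p : Cond X) (n : ℕ) : #(p.s n).a < X.κ (n + 1) := by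
  by_cases h : n < p.l
  · rw [(p.hc n h).1, mk_eq_zero]; exact (X.reg _).pos
  · exact (p.hu n (by omega)).1

/-- Direct extensions not changing the small data below level `k`. -/
def Lek (k : ℕ) (r p : Cond X) : Prop := r ≤ p ∧ r.l = p.l ∧ ∀ m < k, r.s m = p.s m

theorem Lek.refl (k : ℕ) (p : Cond X) : Lek k p p := ⟨le_rfl, rfl, fun _ _ => rfl⟩
theorem Lek.trans {k : ℕ} {p q r : Cond X} (h : Lek k r q) (h' : Lek k q p) : Lek k r p :=
  ⟨h.1.trans h'.1, h.2.1.trans h'.2.1, fun m hm => (h.2.2 m hm).trans (h'.2.2 m hm)⟩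
theorem Lek.mono {k j : ℕ} {p r : Cond X} (h : Lek k r p) (hj : j ≤ k) : Lek j r p :=
  ⟨h.1, h.2.1, fun m hm => h.2.2 m (by omega)⟩

theorem exists_limit {ι : Type} (hι : #ι ≤ X.lam) (p : ι → Cond X) {l : ℕ} (hl : ∀ i, (p i).l = l)
    (hch : ∀ i j, p i ≤ p j ∨ p j ≤ p i) (s : ℕ → Rest O)
    (hc : ∀ n < l, X.VC n (s n) ∧ ∀ i, CC (s n) ((p i).s n))
    (hu : ∀ n, l ≤ n → X.VU n (s n) ∧ (∀ i, UU (s n) ((p i).s n)) ∧
      (∀ γ ∈ (s n).a, ∃ i, γ ∈ ((p i).s n).a) ∧ ∀ z ∈ (s n).c, ∃ i, z ∈ ((p i).s n).c) :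
    ∃ r : Cond X, r.l = l ∧ r.s = s ∧ ∀ i, r ≤ p i := by
  refine ⟨⟨l, fun n => ⋃ i, (p i).f n, s, ⋃ i, (p i).q,
    X.QF_ucl _ _ (lt_succ_of_le (hι.trans (le_succ _))) (fun i => (p i).hq)
      fun i j => (hch i j).symm.imp (fun h => h.q) fun h => h.q,
    fun n hn z hz => ((hu n hn).2.2.2 z hz.1).elim fun i hi =>
      mem_iUnion.2 ⟨i, (p i).hg n ((hl i).trans_le hn) ⟨hi, hz.2⟩⟩, fun n => Fn.iUnion X.lam_reg (lt_succ_of_le hι)
    (fun i => (p i).hf n) fun i j => (hch i j).symm.imp (fun h => h.f n) fun h => h.f n,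
    fun n γ y hγ h => ?_, fun n hn => (hc n hn).1, fun n hn => (hu n hn).1⟩, rfl, rfl, fun i => ?_⟩
  · by_cases hn : n < l
    · rw [(hc n hn).1.1] at hγ; exact hγ
    obtain ⟨i, hi⟩ := (hu n (by omega)).2.2.1 γ hγ
    obtain ⟨j, hj⟩ := mem_iUnion.1 h
    rcases hch i j with h1 | h1
    · exact (p i).hd n γ y hi (h1.f n hj)
    · exact (p j).hd n γ y ((h1.uu n (by rw [hl]; omega)).1 hi) hj
  · exact ⟨(hl i).le, fun n => subset_iUnion (fun i => (p i).f n) i, subset_iUnion (fun i => (p i).q) i,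
      fun n hn => (hc n (hl i ▸ hn)).2 i, fun n h1 h2 => absurd (hl i ▸ h1) (not_le.2 h2),
      fun n hn => (hu n hn).2.1 i⟩

theorem closed_lek (k : ℕ) : Closed (Lek (X := X) k) (X.θ k) := by
  rintro ι p ⟨i₀⟩ hι hch
  have hl : ∀ i, (p i).l = (p i₀).l := fun i => (hch i i₀).elim (fun h => h.2.1) fun h => h.2.1.symm
  have hs : ∀ i, ∀ m < k, (p i).s m = (p i₀).s m := fun i m hm =>
    (hch i i₀).elim (fun h => h.2.2 m hm) fun h => (h.2.2 m hm).symm
  have hch' : ∀ i j, p i ≤ p j ∨ p j ≤ p i := fun i j => (hch i j).imp And.left And.left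
  let u : ℕ → Rest O := fun m => ⟨((p i₀).s m).τ, ⋃ i, ((p i).s m).d, ⋃ i, ((p i).s m).h,
    ⋃ i, ((p i).s m).a, ⋂ i, ((p i).s m).A, ⋃ i, ((p i).s m).c, fun t => ⋃ i, ((p i).s m).H t⟩
  obtain ⟨r, h1, h2, h3⟩ := exists_limit
    (hι.le.trans ((X.θ_lt k).le.trans (X.lt_lam _).le)) p hl hch'
    (fun m => if m < k then (p i₀).s m else u m)
    (fun n hn => by
      split_ifs with h
      · exact ⟨(p i₀).hc n hn, fun i => by rw [hs i n h]; exact CC.refl _⟩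
      have hθ := hι.trans_le (X.θ_mono (not_lt.1 h))
      have hcc : ∀ i j, CC ((p i).s n) ((p j).s n) ∨ CC ((p j).s n) ((p i).s n) := fun i j =>
        (hch' i j).imp (fun h => h.cc n (hl j ▸ hn)) fun h => h.cc n (hl i ▸ hn)
      have hτ : ∀ i, ((p i).s n).τ = ((p i₀).s n).τ := fun i =>
        (hcc i i₀).elim (fun h => h.1) fun h => h.1.symm
      have hv : ∀ i, X.VC n ((p i).s n) := fun i => (p i).hc n (hl i ▸ hn)
      refine ⟨⟨iUnion_eq_empty.2 fun i => (hv i).1, (hv i₀).2.1, ?_, ?_⟩,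
        fun i => ⟨(hτ i).symm, subset_iUnion (fun i => ((p i).s n).d) i,
          subset_iUnion (fun i => ((p i).s n).h) i⟩⟩
      · exact X.LC_ucl (hv i₀).2.1.1 _ _ hθ (fun i => hτ i ▸ (hv i).2.2.1)
          fun i j => (hcc i j).symm.imp (fun h => h.2.1) fun h => h.2.1
      · exact X.HC_ucl n _ _ _ hθ (fun i => hτ i ▸ (hv i).2.2.2)
          fun i j => (hcc i j).symm.imp (fun h => h.2.2) fun h => h.2.2)
    (fun n hn => by
      split_ifs with h
      · exact ⟨(p i₀).hu n hn, fun i => by rw [hs i n h]; exact UU.refl _, fun γ hγ => ⟨i₀, hγ⟩,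
          fun γ hγ => ⟨i₀, hγ⟩⟩
      have hθ := hι.trans_le (X.θ_mono (not_lt.1 h))
      have huu : ∀ i j, UU ((p i).s n) ((p j).s n) ∨ UU ((p j).s n) ((p i).s n) := fun i j =>
        (hch' i j).imp (fun h => h.uu n (hl i ▸ hn)) fun h => h.uu n (hl j ▸ hn)
      have hv : ∀ i, X.VU n ((p i).s n) := fun i => (p i).hu n (hl i ▸ hn)
      refine ⟨⟨?_, ?_, ?_, fun t => ?_⟩, fun i => ⟨subset_iUnion (fun i => ((p i).s n).a) i,
        iInter_subset (fun i => ((p i).s n).A) i, subset_iUnion (fun i => ((p i).s n).c) i,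
        fun t => subset_iUnion (fun i => ((p i).s n).H t) i⟩, fun γ hγ => mem_iUnion.1 hγ,
        fun γ hγ => mem_iUnion.1 hγ⟩
      · exact (card_iUnion_lt_iff_forall_of_isRegular (X.reg _) (hθ.trans (X.θ_lt n))).2
          fun i => (hv i).1
      · have := X.ae_all (I := (univ : Set ι)) (by rw [mk_univ]; exact hθ.trans (X.θ_lt n))
          (p := fun i x => x ∈ ((p i).s n).A) fun i _ => (hv i).2.1
        exact mem_of_superset this fun x hx => mem_iInter.2 fun i => hx i trivial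
      · exact X.LC_ucl (X.θ_le_lm n) _ _ hθ (fun i => (hv i).2.2.1)
          fun i j => (huu i j).symm.imp (fun h => h.2.2.1) fun h => h.2.2.1
      · exact X.HC_ucl n _ _ _ hθ (fun i => (hv i).2.2.2 t)
          fun i j => (huu i j).symm.imp (fun h => h.2.2.2 t) fun h => h.2.2.2 t)
  exact ⟨r, fun i => ⟨h3 i, h1.trans (hl i).symm, fun m hm => by
    rw [h2, hs i m hm]; exact if_pos hm⟩⟩

theorem fusion (D : ℕ → Cond X → Prop) (hd : ∀ k p, ∃ q, Lek k q p ∧ D k q)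
    (ho : ∀ k p q, D k p → Lek (k + 1) q p → D k q) (p₀ : Cond X) :
    ∃ q, Lek 0 q p₀ ∧ ∀ k, D k q := by
  choose nx h1 h2 using hd
  let p : ℕ → Cond X := fun n => Nat.rec p₀ (fun n q => nx n q) n
  have h3 : ∀ i j, i ≤ j → Lek i (p j) (p i) := by
    intro i j h
    induction h with
    | refl => exact Lek.refl _ _
    | step h ih => exact ((h1 _ _).mono h).trans ih
  have hl : ∀ i, (p i).l = p₀.l := fun i => (h3 0 i (Nat.zero_le _)).2.1
  obtain ⟨r, h4, h5, h6⟩ := exists_limit (mk_le_aleph0.trans X.aleph0_le_lam) p hl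
    (fun i j => (le_total i j).symm.imp (fun h => (h3 _ _ h).1) fun h => (h3 _ _ h).1)
    (fun m => (p (m + 1)).s m)
    (fun n hn => ⟨(p (n + 1)).hc n (hn.trans_eq (hl (n + 1)).symm), fun i => by
      rcases le_total i (n + 1) with h | h
      · exact (h3 _ _ h).1.cc n (hn.trans_eq (hl i).symm)
      · rw [(h3 _ _ h).2.2 n (by omega)]; exact CC.refl _⟩)
    (fun n hn => ⟨(p (n + 1)).hu n ((hl (n + 1)).trans_le hn), fun i => by
      rcases le_total i (n + 1) with h | h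
      · exact (h3 _ _ h).1.uu n ((hl (n + 1)).trans_le hn)
      · rw [(h3 _ _ h).2.2 n (by omega)]; exact UU.refl _, fun γ hγ => ⟨n + 1, hγ⟩,
        fun γ hγ => ⟨n + 1, hγ⟩⟩)
  refine ⟨r, ⟨h6 0, h4, fun m hm => absurd hm (by omega)⟩, fun k => ho k (p (k + 1)) r (h2 _ _)
    ⟨h6 (k + 1), h4.trans (hl (k + 1)).symm, fun m hm => ?_⟩⟩
  rw [h5, (h3 (m + 1) (k + 1) (by omega)).2.2 m (by omega)]

/-- Changing the small data at an unchosen level. -/
def upd (p : Cond X) (k : ℕ) (hk : p.l ≤ k) (r : Rest O) (hr : X.VU k r)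
    (ha : (∀ γ y, γ ∈ r.a → (γ, y) ∉ p.f k) ∧ up X.lm r.c ⊆ p.q) : Cond X where
  l := p.l
  f := p.f
  s := Function.update p.s k r
  q := p.q
  hq := p.hq
  hg n hn := by
    by_cases h : n = k
    · subst h; rw [Function.update_self]; exact ha.2
    · rw [Function.update_of_ne h]; exact p.hg n hn
  hf := p.hf
  hd n γ y h := by
    by_cases hn : n = k
    · subst hn; rw [Function.update_self] at h; exact ha.1 γ y h
    · rw [Function.update_of_ne hn] at h; exact p.hd n γ y h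
  hc n hn := by rw [Function.update_of_ne (by omega)]; exact p.hc n hn
  hu n hn := by
    by_cases h : n = k
    · subst h; rwa [Function.update_self]
    · rw [Function.update_of_ne h]; exact p.hu n hn

theorem upd_lek {p : Cond X} {k : ℕ} {hk : p.l ≤ k} {r : Rest O} {hr ha} (h : UU r (p.s k)) :
    Lek k (p.upd k hk r hr ha) p := by
  refine ⟨⟨le_rfl, fun _ => Subset.rfl, Subset.rfl, fun n hn => ?_,
    fun n h1 h2 => absurd h1 (not_le.2 h2),
    fun n _ => ?_⟩, rfl, fun m hm => Function.update_of_ne hm.ne _ _⟩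
  · show CC (Function.update p.s k r n) _
    rw [Function.update_of_ne (by omega)]; exact CC.refl _
  · show UU (Function.update p.s k r n) _
    by_cases hn : n = k
    · subst hn; rwa [Function.update_self]
    · rw [Function.update_of_ne hn]; exact UU.refl _

/-- Shrinking all the measure one sets. -/
theorem exists_shrink (p : Cond X) (B : ℕ → Set (Set O)) (hB : ∀ n, p.l ≤ n → B n ∈ X.U n) :
    ∃ q, Lek 0 q p ∧ ∀ n, p.l ≤ n → (q.s n).A ⊆ B n := by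
  refine ⟨⟨p.l, p.f, fun n => {p.s n with A := (p.s n).A ∩ B n}, p.q, p.hq, p.hg, p.hf, p.hd, p.hc,
    fun n hn => ⟨(p.hu n hn).1, inter_mem (p.hu n hn).2.1 (hB n hn), (p.hu n hn).2.2⟩⟩,
    ⟨⟨le_rfl, fun _ => Subset.rfl, Subset.rfl, fun n _ => ⟨rfl, Subset.rfl, Subset.rfl⟩,
      fun n h1 h2 => absurd h1 (not_le.2 h2),
      fun n _ => ⟨Subset.rfl, inter_subset_left, Subset.rfl, fun _ => Subset.rfl⟩⟩, rfl,
      fun m hm => absurd hm (by omega)⟩, fun n _ => inter_subset_right⟩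

/-- Enlarging the guide. -/
def wq (p : Cond X) (g : Set (O × O)) (hg : g ∈ X.QF) (h : p.q ⊆ g) : Cond X :=
  ⟨p.l, p.f, p.s, g, hg, fun n hn => (p.hg n hn).trans h, p.hf, p.hd, p.hc, p.hu⟩

theorem wq_lek (k : ℕ) {p : Cond X} {g hg h} : Lek k (p.wq g hg h) p :=
  ⟨⟨le_rfl, fun _ => Subset.rfl, h, fun _ _ => CC.refl _, fun _ h1 h2 => absurd h1 (not_le.2 h2),
    fun _ _ => UU.refl _⟩, rfl, fun _ _ => rfl⟩

instance : Nonempty (Cond X) :=
  ⟨⟨0, fun _ => ∅, fun _ => ⟨X.bot, ∅, ∅, ∅, univ, ∅, fun _ => ∅⟩, ∅, Fn.empty X.lam2_reg.pos,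
    fun _ _ => up_sub, fun _ => Fn.empty X.lam_reg.pos, fun _ _ _ h => h.elim,
    fun _ h => absurd h (by omega), fun n _ => ⟨by simpa using (X.reg (n + 1)).pos, univ_mem,
      X.LC_empty _ _, X.HC_empty n⟩⟩⟩

end Cond

end Pool.Agent.Work.MP_58a5a1_lc
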