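import Pool.Agent.Work.MP_58a5a1_lc.Defs
import Pool.Agent.Work.MP_58a5a1_lc.Ext

/-! Elementary cardinal arithmetic inside a model of ZF with externally described ordinals. -/

namespace Pool.Agent.Work.MP_58a5a1_lc
open Pool.Agent.Lib.ZFModel Pool.Agent.Work.MP_63c7e0_lc

set_option synthInstance.maxSize 100000

variable {M : Type 1} {E : M → M → Prop}

/-- A total injective relation from `A` to `B` exists. -/
def Le (E : M → M → Prop) (A B : M) : Prop :=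
  ∃ f, (∀ x, E x A → ∃ y, E y B ∧ App E f x y) ∧
    ∀ x x' y, E x A → E x' A → E y B → App E f x y → App E f x' y → x = x'

variable (zf : IsZF E)
include zf

theorem le_of_rel (A B : M) (R : M → M → Prop)
    [Dfn E fun v => ∃ x y, E x A ∧ E y B ∧ IsPair E (v 0) x y ∧ R x y]
    (h1 : ∀ x, E x A → ∃ y, E y B ∧ R x y)
    (h2 : ∀ x x' y, E x A → E x' A → E y B → R x y → R x' y → x = x') : Le E A B := by
  obtain ⟨f, -, hf⟩ := exists_rel zf A B R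
  refine ⟨f, fun x hx => ?_, fun x x' y hx hx' hy h3 h4 =>
    h2 x x' y hx hx' hy ((hf _ _).1 h3).2.2 ((hf _ _).1 h4).2.2⟩
  obtain ⟨y, hy, h⟩ := h1 x hx
  exact ⟨y, hy, (hf _ _).2 ⟨hx, hy, h⟩⟩

theorem Le.trans {A B C : M} (h : Le E A B) (h' : Le E B C) : Le E A C := by
  have := zf.nonempty
  obtain ⟨f, h1, h2⟩ := h
  obtain ⟨g, h3, h4⟩ := h'
  refine le_of_rel zf A C (fun x z => ∃ y, E y B ∧ App E f x y ∧ App E g y z) (fun x hx => ?_) ?_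
  · obtain ⟨y, hy, h5⟩ := h1 x hx
    obtain ⟨z, hz, h6⟩ := h3 y hy
    exact ⟨z, hz, y, hy, h5, h6⟩
  · rintro x x' z hx hx' hz ⟨y, hy, h5, h6⟩ ⟨y', hy', h7, h8⟩
    obtain rfl := h4 y y' z hy hy' hz h6 h8
    exact h2 x x' y hx hx' hy h5 h7

theorem le_of_sub {A B : M} (h : Sub E A B) : Le E A B := by
  have := zf.nonempty
  exact le_of_rel zf A B (fun x y => x = y) (fun x hx => ⟨x, h x hx, rfl⟩)
    fun _ _ _ _ _ _ h1 h2 => h1.trans h2.symm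

theorem Injects.le {A B : M} (h : Injects E A B) : Le E A B := by
  obtain ⟨f, h1, h2⟩ := h
  refine ⟨f, fun x hx => ?_, fun x x' y _ _ _ => h2 x x' y⟩
  obtain ⟨y, hy⟩ := h1.2.1 x hx
  exact ⟨y, (h1.mem zf hy).2, hy⟩

theorem IsBij.le {f A B : M} (h : IsBij E f A B) : Le E A B := Injects.le zf ⟨f, h.1, h.2.1⟩

theorem IsBij.ge {f A B : M} (h : IsBij E f A B) : Le E B A := by
  have := zf.nonempty
  refine le_of_rel zf B A (fun y x => App E f x y) (fun y hy => ?_)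
    fun y y' x _ _ _ h1 h2 => h.1.2.2 x y y' h1 h2
  obtain ⟨x, hx⟩ := h.2.2 y hy
  exact ⟨x, (h.1.mem zf hx).1, hx⟩

theorem cantor {W A : M} (hW : IsPow E W A) : ¬ Le E W A := by
  have := zf.nonempty
  rintro ⟨f, h1, h2⟩
  obtain ⟨Y, hY⟩ := zf.sep A fun x => ∃ Y', E Y' W ∧ App E f Y' x ∧ ¬ E x Y'
  have hYW : E Y W := (hW Y).2 fun x hx => ((hY x).1 hx).1
  obtain ⟨x, hx, h3⟩ := h1 Y hYW
  by_cases h : E x Y
  · obtain ⟨-, Y', h4, h5, h6⟩ := (hY x).1 h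
    exact h6 (h2 Y Y' x hYW h4 hx h3 h5 ▸ h)
  · exact h ((hY x).2 ⟨hx, Y, hYW, h3, h⟩)

variable {J : Type} [LinearOrder J] [WellFoundedLT J] (D : MD E J)

omit [WellFoundedLT J] in
theorem ord_inj {a b : J} (h : D.ord a = D.ord b) : a = b := by
  rcases lt_trichotomy a b with h1 | h1 | h1
  · exact absurd ((D.mem_ord _ b).2 ⟨a, h1, h.symm⟩) (not_mem_self zf _)
  · exact h1
  · exact absurd ((D.mem_ord _ a).2 ⟨b, h1, h⟩) (not_mem_self zf _)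

omit [WellFoundedLT J] in
theorem ord_lt {a b : J} : E (D.ord b) (D.ord a) ↔ b < a :=
  (D.mem_ord _ _).trans ⟨fun ⟨_, h1, h2⟩ => ord_inj zf D h2 ▸ h1, fun h => ⟨b, h, rfl⟩⟩

omit [WellFoundedLT J] zf in
theorem ord_sub {a b : J} (h : b ≤ a) : Sub E (D.ord b) (D.ord a) := fun x hx => by
  obtain ⟨c, h1, rfl⟩ := (D.mem_ord _ _).1 hx
  exact (D.mem_ord _ _).2 ⟨c, h1.trans_le h, rfl⟩

omit [WellFoundedLT J] in
theorem isOrd_ord (a : J) : IsOrd E (D.ord a) := by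
  refine ⟨fun x hx => ?_, fun x y hx hy => ?_⟩
  · obtain ⟨c, h1, rfl⟩ := (D.mem_ord _ _).1 hx
    exact ord_sub D h1.le
  · obtain ⟨c, -, rfl⟩ := (D.mem_ord _ _).1 hx
    obtain ⟨d, -, rfl⟩ := (D.mem_ord _ _).1 hy
    rcases lt_trichotomy c d with h | h | h
    · exact Or.inl ((ord_lt zf D).2 h)
    · exact Or.inr (Or.inl (h ▸ rfl))
    · exact Or.inr (Or.inr ((ord_lt zf D).2 h))

omit [WellFoundedLT J] zf in
theorem forall_ord {a : J} {Q : M → Prop} : (∀ x, E x (D.ord a) → Q x) ↔ ∀ b < a, Q (D.ord b) :=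
  ⟨fun h b hb => h _ ((D.mem_ord _ _).2 ⟨b, hb, rfl⟩), fun h x hx => by
    obtain ⟨c, h1, rfl⟩ := (D.mem_ord _ _).1 hx
    exact h c h1⟩

omit [WellFoundedLT J] zf in
theorem exists_ord {a : J} {Q : M → Prop} : (∃ x, E x (D.ord a) ∧ Q x) ↔ ∃ b < a, Q (D.ord b) :=
  ⟨fun ⟨x, hx, h⟩ => by
    obtain ⟨c, h1, rfl⟩ := (D.mem_ord _ _).1 hx
    exact ⟨c, h1, h⟩, fun ⟨b, hb, h⟩ => ⟨_, (D.mem_ord _ _).2 ⟨b, hb, rfl⟩, h⟩⟩

omit [WellFoundedLT J] zf in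
theorem nat_lt_nat {m n : ℕ} (h : m < n) : D.nat m < D.nat n := (D.lt_nat _ _).2 ⟨m, h, rfl⟩

omit [WellFoundedLT J] zf in
theorem nat_lt_w (n : ℕ) : D.nat n < D.w := (D.lt_w _).2 ⟨n, rfl⟩

omit [WellFoundedLT J] zf in
theorem mem_nat_succ (n : ℕ) (z : M) :
    E z (D.ord (D.nat (n + 1))) ↔ E z (D.ord (D.nat n)) ∨ z = D.ord (D.nat n) := by
  rw [D.mem_ord, D.mem_ord]
  constructor
  · rintro ⟨b, hb, rfl⟩
    obtain ⟨m, hm, rfl⟩ := (D.lt_nat _ _).1 hb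
    rcases Nat.lt_succ_iff_lt_or_eq.1 hm with h | rfl
    · exact Or.inl ⟨_, nat_lt_nat D h, rfl⟩
    · exact Or.inr rfl
  · rintro (⟨b, hb, rfl⟩ | rfl)
    · exact ⟨b, hb.trans (nat_lt_nat D n.lt_succ_self), rfl⟩
    · exact ⟨_, nat_lt_nat D n.lt_succ_self, rfl⟩

omit [WellFoundedLT J] zf in
theorem empty_nat_zero : IsEmptySet E (D.ord (D.nat 0)) := fun x hx => by
  obtain ⟨b, hb, -⟩ := (D.mem_ord _ _).1 hx
  obtain ⟨m, hm, -⟩ := (D.lt_nat _ _).1 hb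
  omega

omit [WellFoundedLT J] in
theorem isOmega_ord : IsOmega E (D.ord D.w) := by
  refine ⟨⟨⟨_, (ord_lt zf D).2 (nat_lt_w D 0), empty_nat_zero D⟩, (forall_ord D).2 fun b hb => ?_⟩,
    fun w' hw' => (forall_ord D).2 fun b hb => ?_⟩
  · obtain ⟨n, rfl⟩ := (D.lt_w _).1 hb
    exact ⟨_, (ord_lt zf D).2 (nat_lt_w D (n + 1)), mem_nat_succ D n⟩
  · obtain ⟨n, rfl⟩ := (D.lt_w _).1 hb
    clear hb
    induction n with
    | zero =>
      obtain ⟨e, he, he'⟩ := hw'.1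
      exact empty_unique zf he' (empty_nat_zero D) ▸ he
    | succ n ih =>
      obtain ⟨y, hy, h⟩ := hw'.2 _ ih
      have : y = D.ord (D.nat (n + 1)) :=
        zf.extensionality _ _ fun z => (h z).trans (mem_nat_succ D n z).symm
      exact this ▸ hy

omit [WellFoundedLT J] in
theorem omega_eq_ord {w : M} (h : IsOmega E w) : w = D.ord D.w :=
  zf.extensionality _ _ fun x => ⟨h.2 _ (isOmega_ord zf D).1 x, (isOmega_ord zf D).2 _ h.1 x⟩

theorem Le.injects {A : M} {b : J} (h : Le E A (D.ord b)) : Injects E A (D.ord b) := by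
  have := zf.nonempty
  obtain ⟨f, h1, h2⟩ := h
  obtain ⟨g, h3, h4⟩ := exists_rel zf A (D.ord b) fun x y => App E f x y ∧ ∀ y', E y' y → ¬ App E f x y'
  refine ⟨g, ⟨h3, fun x hx => ?_, fun x y y' h5 h6 => ?_⟩, fun x x' y h5 h6 => ?_⟩
  · obtain ⟨c, ⟨h5, h6⟩, h7⟩ := wellFounded_lt.has_min {c | c < b ∧ App E f x (D.ord c)}
      ((exists_ord D).1 (h1 x hx))
    exact ⟨_, (h4 _ _).2 ⟨hx, (ord_lt zf D).2 h5, h6,
      (forall_ord D).2 fun c' hc' h => h7 c' ⟨hc'.trans h5, h⟩ hc'⟩⟩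
  · obtain ⟨-, l1, l2, l3⟩ := (h4 _ _).1 h5
    obtain ⟨-, l4, l5, l6⟩ := (h4 _ _).1 h6
    rcases (isOrd_ord zf D b).2 y y' l1 l4 with h | h | h
    · exact absurd l2 (l6 y h)
    · exact h
    · exact absurd l5 (l3 y' h)
  · obtain ⟨l0, l1, l2, -⟩ := (h4 _ _).1 h5
    obtain ⟨l3, -, l5, -⟩ := (h4 _ _).1 h6
    exact h2 x x' y l0 l3 l1 l2 l5

omit [WellFoundedLT J] zf in
theorem TIm.le {f : M} {c b : J} (h : TIm E D.ord f c b) : Le E (D.ord c) (D.ord b) := by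
  refine ⟨f, (forall_ord D).2 fun x hx => (exists_ord D).2 (h.1 x hx), fun x x' y hx hx' hy h1 h2 => ?_⟩
  obtain ⟨x, -, rfl⟩ := (D.mem_ord _ _).1 hx
  obtain ⟨x', -, rfl⟩ := (D.mem_ord _ _).1 hx'
  obtain ⟨y, -, rfl⟩ := (D.mem_ord _ _).1 hy
  rw [h.2 x x' y h1 h2]

theorem trichotomy {μ : M} (h : IsOrd E μ) (a : J) : E (D.ord a) μ ∨ ∃ b ≤ a, μ = D.ord b := by
  have := zf.nonempty
  induction a using WellFoundedLT.induction with
  | ind a ih =>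
    by_cases h1 : ∃ b ≤ a, μ = D.ord b
    · exact Or.inr h1
    have h2 : Sub E (D.ord a) μ := (forall_ord D).2 fun c hc => (ih c hc).resolve_right
      fun ⟨b, hb, h3⟩ => h1 ⟨b, hb.trans hc.le, h3⟩
    obtain ⟨Y, hY⟩ := zf.sep μ fun x => ¬ E x (D.ord a)
    obtain ⟨x, hx, h3⟩ := zf.foundation Y (by
      by_contra h3
      refine h1 ⟨a, le_rfl, zf.extensionality _ _ fun x => ⟨fun hx => ?_, h2 x⟩⟩
      by_contra h4
      exact h3 ⟨x, (hY x).2 ⟨hx, h4⟩⟩)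
    obtain ⟨h4, h5⟩ := (hY x).1 hx
    have : x = D.ord a := zf.extensionality _ _ fun y => ⟨fun hy => by
      by_contra h6
      exact h3 y hy ((hY y).2 ⟨h.1 x h4 y hy, h6⟩), fun hy => by
      rcases h.2 y x (h2 y hy) h4 with h6 | h6 | h6
      · exact h6
      · exact absurd (h6 ▸ hy) h5
      · exact absurd ((isOrd_ord zf D a).1 y hy x h6) h5⟩
    exact Or.inl (this ▸ h4)

omit zf in
theorem exists_collapse (B : J → Prop) : ∃ π : J → J, (∀ x, π x ≤ x) ∧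
    ∀ x z, z < π x ↔ ∃ y < x, B y ∧ z = π y := by
  classical
  let F : ∀ x : J, (∀ y < x, J) → J := fun x IH =>
    if h : {z | ∀ y (hy : y < x), B y → IH y hy < z}.Nonempty then wellFounded_lt.min _ h else x
  let π : J → J := wellFounded_lt.fix F
  have hπ : ∀ x, π x = F x fun y _ => π y := fun x => wellFounded_lt.fix_eq F x
  have key : ∀ x, (∀ y < x, π y ≤ y) → (∀ y < x, B y → π y < π x) ∧
      ∀ z, (∀ y < x, B y → π y < z) → π x ≤ z := by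
    intro x h
    have hne : {z | ∀ y (hy : y < x), B y → π y < z}.Nonempty :=
      ⟨x, fun y hy _ => (h y hy).trans_lt hy⟩
    have h1 : π x = wellFounded_lt.min _ hne := (hπ x).trans (dif_pos hne)
    rw [h1]
    exact ⟨wellFounded_lt.min_mem _ hne, fun z hz => not_lt.1 (wellFounded_lt.not_lt_min {z | ∀ y (_ : y < x), B y → π y < z} hz)⟩
  have h1 : ∀ x, π x ≤ x := fun x => by
    induction x using WellFoundedLT.induction with
    | ind x ih => exact (key x ih).2 x fun y hy _ => (ih y hy).trans_lt hy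
  refine ⟨π, h1, fun x z => ⟨fun hz => ?_, ?_⟩⟩
  · have h2 : {y | y < x ∧ B y ∧ z ≤ π y}.Nonempty := by
      by_contra h2
      refine (not_le.2 hz) ((key x fun y _ => h1 y).2 z fun y hy hB => ?_)
      by_contra h3
      exact h2 ⟨y, hy, hB, not_lt.1 h3⟩
    obtain ⟨y, ⟨h3, h4, h5⟩, h6⟩ := wellFounded_lt.has_min _ h2
    refine ⟨y, h3, h4, le_antisymm h5 ((key y fun y _ => h1 y).2 z fun y' hy' hB => ?_)⟩
    by_contra h7
    exact h6 y' ⟨hy'.trans h3, hB, not_lt.1 h7⟩ hy'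
  · rintro ⟨y, h2, h3, rfl⟩
    exact (key x fun y _ => h1 y).1 y h2 h3

omit zf in
/-- One step of the collapse. -/
def Cnd (E : M → M → Prop) (B g z y : M) : Prop :=
  (∀ y', E y' y → E y' B → ∃ z', E z' z ∧ App E g z' y') ∧
    ∀ z', E z' z → ∃ y', E y' y ∧ E y' B ∧ App E g z' y'

theorem order_type {B : M} {a : J} (hB : Sub E B (D.ord a)) :
    ∃ d ≤ a, ∃ h, IsBij E h B (D.ord d) := by
  have := zf.nonempty
  obtain ⟨π, h1, h2⟩ := exists_collapse fun x => E (D.ord x) B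
  have hA : ∀ g z y, (∀ y' < y, ∀ z' < z, App E g (D.ord z') (D.ord y') → z' = π y') →
      Cnd E B g (D.ord z) (D.ord y) → z = π y := by
    intro g z y h3 ⟨h4, h5⟩
    refine eq_of_forall_lt_iff fun z' => ⟨fun h => ?_, fun h => ?_⟩
    · obtain ⟨y', l1, l2, l3⟩ := (exists_ord D).1 ((forall_ord D).1 h5 z' h)
      exact (h2 _ _).2 ⟨y', l1, l2, h3 y' l1 z' h l3⟩
    · obtain ⟨y', l1, l2, rfl⟩ := (h2 _ _).1 h
      obtain ⟨z', l3, l4⟩ := (exists_ord D).1 ((forall_ord D).1 h4 y' l1 l2)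
      exact h3 y' l1 z' l3 l4 ▸ l3
  have hG : ∀ g, (∀ z, E z (D.ord a) → ∀ y, E y (D.ord a) → App E g z y → Cnd E B g z y) →
      ∀ y < a, ∀ z < a, App E g (D.ord z) (D.ord y) → z = π y := by
    intro g hg y
    induction y using WellFoundedLT.induction with
    | ind y ih =>
      intro hy z hz h
      exact hA g z y (fun y' l1 z' l2 => ih y' l1 (l1.trans hy) z' (l2.trans hz))
        (hg _ ((ord_lt zf D).2 hz) _ ((ord_lt zf D).2 hy) h)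
  have hC : ∀ g x, (∀ z < a, ∀ y < a, App E g (D.ord z) (D.ord y) ↔ y < x ∧ z = π y) →
      ∀ y ≤ x, y < a → Cnd E B g (D.ord (π y)) (D.ord y) := by
    intro g x hg y hy hya
    refine ⟨(forall_ord D).2 fun y' l1 l2 => (exists_ord D).2 ⟨π y', (h2 _ _).2 ⟨y', l1, l2, rfl⟩,
      (hg _ ((h1 _).trans_lt (l1.trans hya)) _ (l1.trans hya)).2 ⟨l1.trans_le hy, rfl⟩⟩,
      (forall_ord D).2 fun z' l1 => ?_⟩
    obtain ⟨y', l2, l3, rfl⟩ := (h2 _ _).1 l1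
    exact (exists_ord D).2 ⟨y', l2, l3,
      (hg _ ((h1 _).trans_lt (l2.trans hya)) _ (l2.trans hya)).2 ⟨l2.trans_le hy, rfl⟩⟩
  have hE : ∀ x ≤ a, ∃ g, ∀ z < a, ∀ y < a, App E g (D.ord z) (D.ord y) ↔ y < x ∧ z = π y := by
    intro x
    induction x using WellFoundedLT.induction with
    | ind x ih =>
      intro hx
      obtain ⟨g, -, hg⟩ := exists_rel zf (D.ord a) (D.ord x) fun z y => ∃ g,
        (∀ z, E z (D.ord a) → ∀ y, E y (D.ord a) → App E g z y →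
          (∀ y', E y' y → E y' B → ∃ z', E z' z ∧ App E g z' y') ∧
            ∀ z', E z' z → ∃ y', E y' y ∧ E y' B ∧ App E g z' y') ∧
        (∀ y', E y' y → E y' B → ∃ z', E z' z ∧ App E g z' y') ∧
          ∀ z', E z' z → ∃ y', E y' y ∧ E y' B ∧ App E g z' y'
      refine ⟨g, fun z hz y hy => (hg _ _).trans ⟨?_, ?_⟩⟩
      · rintro ⟨-, l1, g', l2, l3⟩
        exact ⟨(ord_lt zf D).1 l1, hA g' z y
          (fun y' l4 z' l5 => hG g' l2 y' (l4.trans hy) z' (l5.trans hz)) l3⟩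
      · rintro ⟨l1, rfl⟩
        obtain ⟨g', hg'⟩ := ih y l1 hy.le
        refine ⟨(ord_lt zf D).2 hz, (ord_lt zf D).2 l1, g', (forall_ord D).2 fun z' l2 =>
          (forall_ord D).2 fun y' l3 l4 => ?_, hC g' y hg' y le_rfl hy⟩
        obtain ⟨l5, rfl⟩ := (hg' z' l2 y' l3).1 l4
        exact hC g' y hg' y' l5.le l3
  obtain ⟨g, hg⟩ := hE a le_rfl
  obtain ⟨h, h3, h4⟩ := exists_rel zf B (D.ord (π a)) fun y z => App E g z y
  have h5 : ∀ y z, App E h y z ↔ ∃ y' < a, y = D.ord y' ∧ E y B ∧ z = D.ord (π y') := by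
    intro y z
    refine (h4 y z).trans ⟨fun ⟨l1, l2, l3⟩ => ?_, ?_⟩
    · obtain ⟨y, l4, rfl⟩ := (D.mem_ord _ _).1 (hB y l1)
      obtain ⟨z, l5, rfl⟩ := (D.mem_ord _ _).1 l2
      exact ⟨y, l4, rfl, l1, ((hg z (l5.trans_le (h1 a)) y l4).1 l3).2 ▸ rfl⟩
    · rintro ⟨y, l1, rfl, l2, rfl⟩
      exact ⟨l2, (ord_lt zf D).2 ((h2 _ _).2 ⟨y, l1, l2, rfl⟩),
        (hg _ ((h1 y).trans_lt l1) y l1).2 ⟨l1, rfl⟩⟩
  refine ⟨π a, h1 a, h, ⟨h3, fun y hy => ?_, fun y z z' l1 l2 => ?_⟩, fun y y' z l1 l2 => ?_,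
    (forall_ord D).2 fun z hz => ?_⟩
  · obtain ⟨y', l4, rfl⟩ := (D.mem_ord _ _).1 (hB y hy)
    exact ⟨_, (h5 _ _).2 ⟨y', l4, rfl, hy, rfl⟩⟩
  · obtain ⟨y₁, -, rfl, -, rfl⟩ := (h5 _ _).1 l1
    obtain ⟨y₂, -, l3, -, rfl⟩ := (h5 _ _).1 l2
    rw [ord_inj zf D l3]
  · obtain ⟨y₁, -, rfl, l4, rfl⟩ := (h5 _ _).1 l1
    obtain ⟨y₂, -, rfl, l5, l3⟩ := (h5 _ _).1 l2
    have l6 := ord_inj zf D l3
    rcases lt_trichotomy y₁ y₂ with l | l | l
    · exact absurd ((h2 _ _).2 ⟨y₁, l, l4, rfl⟩) (l6 ▸ lt_irrefl _)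
    · rw [l]
    · exact absurd ((h2 _ _).2 ⟨y₂, l, l5, rfl⟩) (l6 ▸ lt_irrefl _)
  · obtain ⟨y, l1, l2, rfl⟩ := (h2 _ _).1 hz
    exact ⟨_, (h5 _ _).2 ⟨y, l1, rfl, l2, rfl⟩⟩

end Pool.Agent.Work.MP_58a5a1_lc
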