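import Pool.Agent.Work.MP_58a5a1_lc.Int1

/-! The cardinal structure of the model up to `lam`. -/

namespace Pool.Agent.Work.MP_58a5a1_lc
open Pool.Agent.Lib.ZFModel Pool.Agent.Work.MP_63c7e0_lc

set_option synthInstance.maxSize 100000

variable {M : Type 1} {E : M → M → Prop} (zf : IsZF E)
variable {J : Type} [LinearOrder J] [WellFoundedLT J] (D : MD E J)
include zf

omit [WellFoundedLT J] in
theorem pow_code {a : J} (ha : a ≤ D.lam) : ∃ b, (a < D.lam → b < D.lam) ∧ ∃ S, ∀ Y,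
    ∃ z < b, ∀ x, E x (D.ord a) → (E x Y ↔ App E S (D.ord z) x) := by
  have := zf.nonempty
  obtain ⟨b, h1, S, h2⟩ := D.pow a ha
  refine ⟨b, h1, S, fun Y => ?_⟩
  obtain ⟨u, -, hu⟩ := exists_rel zf (D.ord (D.nat 1)) Y fun x _ => x = x
  obtain ⟨z, h3, h4⟩ := h2 u
  refine ⟨z, h3, (forall_ord D).2 fun x hx => Iff.trans ?_ (h4 x hx)⟩
  exact ⟨fun h => (hu _ _).2 ⟨(ord_lt zf D).2 (nat_lt_nat D Nat.zero_lt_one), h, rfl⟩,
    fun h => ((hu _ _).1 h).2.1⟩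

omit [WellFoundedLT J] in
theorem pow_le {a : J} (ha : a ≤ D.lam) {W : M} (hW : IsPow E W (D.ord a)) :
    ∃ b, (a < D.lam → b < D.lam) ∧ Le E W (D.ord b) := by
  have := zf.nonempty
  obtain ⟨b, h1, S, h2⟩ := pow_code zf D ha
  refine ⟨b, h1, le_of_rel zf _ _ (fun Y z => ∀ x, E x (D.ord a) → (E x Y ↔ App E S z x))
    (fun Y _ => (exists_ord D).2 (h2 Y)) fun Y Y' z hY hY' _ h3 h4 => ?_⟩
  exact zf.extensionality _ _ fun x => ⟨fun h =>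
    (h4 x ((hW _).1 hY x h)).2 ((h3 x ((hW _).1 hY x h)).1 h), fun h =>
    (h3 x ((hW _).1 hY' x h)).2 ((h4 x ((hW _).1 hY' x h)).1 h)⟩

omit [WellFoundedLT J] in
theorem exists_not_le {a : J} (ha : a < D.lam) : ∃ b < D.lam, ¬ Le E (D.ord b) (D.ord a) := by
  obtain ⟨W, hW⟩ := zf.powerset (D.ord a)
  obtain ⟨b, h1, h2⟩ := pow_le zf D ha.le (W := W) hW
  exact ⟨b, h1 ha, fun h => cantor zf (W := W) hW (h2.trans zf h)⟩

omit [WellFoundedLT J] in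
theorem isCard_lam : IsCard E (D.ord D.lam) := by
  refine ⟨isOrd_ord zf D _, (forall_ord D).2 fun a ha h => ?_⟩
  obtain ⟨b, h1, h2⟩ := exists_not_le zf D ha
  exact h2 ((le_of_sub zf (ord_sub D h1.le)).trans zf (h.le zf))

theorem isLimitCard_lam : IsLimitCard E (D.ord D.lam) := by
  refine ⟨⟨isCard_lam zf D, _, isOmega_ord zf D, (ord_lt zf D).2 D.w_lt⟩,
    (forall_ord D).2 fun a ha => ?_⟩
  obtain ⟨b, h1, h2⟩ := exists_not_le zf D ha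
  obtain ⟨c, h3, h4⟩ := wellFounded_lt.has_min {c | ¬ Le E (D.ord c) (D.ord a)} ⟨b, h2⟩
  refine ⟨D.ord c, (ord_lt zf D).2 ((not_lt.1 (h4 b h2)).trans_lt h1),
    ⟨isOrd_ord zf D _, (forall_ord D).2 fun d hd h => h3 ((h.le zf).trans zf ?_)⟩,
    (ord_lt zf D).2 (not_le.1 fun h => h3 (le_of_sub zf (ord_sub D h)))⟩
  by_contra h5
  exact h4 d h5 hd

theorem isAlephOmega_lam : IsAlephOmega E (D.ord D.lam) := by
  refine ⟨isLimitCard_lam zf D, (forall_ord D).2 fun a ha ⟨⟨_, w, hw, h1⟩, h2⟩ => ?_⟩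
  rw [omega_eq_ord zf D hw, ord_lt zf D] at h1
  obtain ⟨b, h3, h4⟩ := D.succ a h1 ha
  obtain ⟨β, h5, h6, h7⟩ := h2 _ ((ord_lt zf D).2 h3)
  obtain ⟨c, h8, rfl⟩ := (D.mem_ord _ _).1 h5
  obtain ⟨f, hf⟩ := h4 c h8
  exact h6.2 _ h7 ((hf.le D).injects zf D)

theorem isStrongLimit_lam : IsStrongLimit E (D.ord D.lam) := by
  intro θ W hθ hW
  obtain ⟨a, ha, rfl⟩ := (D.mem_ord _ _).1 hθ
  obtain ⟨b, h1, h2⟩ := pow_le zf D ha.le hW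
  exact ⟨_, (ord_lt zf D).2 (h1 ha), h2.injects zf D⟩

omit [WellFoundedLT J] in
theorem isSingular_lam : IsSingular E (D.ord D.lam) := by
  have := zf.nonempty
  obtain ⟨f, hf⟩ := D.cof
  obtain ⟨g, h1, h2⟩ := exists_rel zf (D.ord D.w) (D.ord D.lam) fun x y => App E f x y
  have h3 : ∀ n, App E g (D.ord (D.nat n)) (D.ord (D.kk n)) := fun n =>
    (h2 _ _).2 ⟨(ord_lt zf D).2 (nat_lt_w D n), (ord_lt zf D).2 (D.kk_lt n),
      (hf _ _).2 ⟨n, rfl, rfl⟩⟩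
  refine ⟨_, g, (ord_lt zf D).2 D.w_lt, ⟨h1, (forall_ord D).2 fun x hx => ?_,
    fun x y y' h4 h5 => ?_⟩, (forall_ord D).2 fun x hx => ?_⟩
  · obtain ⟨n, rfl⟩ := (D.lt_w _).1 hx
    exact ⟨_, h3 n⟩
  · obtain ⟨l1, l2, l3⟩ := (h2 _ _).1 h4
    obtain ⟨-, l4, l5⟩ := (h2 _ _).1 h5
    obtain ⟨x, -, rfl⟩ := (D.mem_ord _ _).1 l1
    obtain ⟨y, -, rfl⟩ := (D.mem_ord _ _).1 l2
    obtain ⟨y', -, rfl⟩ := (D.mem_ord _ _).1 l4
    obtain ⟨n, rfl, rfl⟩ := (hf _ _).1 l3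
    obtain ⟨m, l6, rfl⟩ := (hf _ _).1 l5
    rcases lt_trichotomy n m with h | h | h
    · exact absurd l6 (nat_lt_nat D h).ne
    · rw [h]
    · exact absurd l6 (nat_lt_nat D h).ne'
  · obtain ⟨n, hn⟩ := D.kk_cof x hx
    exact ⟨_, _, h3 n, (ord_lt zf D).2 hn⟩

theorem not_measurable {δ : M} (hδ : E δ (D.ord D.lam)) : ¬ IsMeasurable E δ := by
  have := zf.nonempty
  obtain ⟨a, ha, rfl⟩ := (D.mem_ord _ _).1 hδ
  rintro ⟨⟨-, w, hw, h1⟩, U, u1, -, u3, -, u5, u6, u7⟩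
  rw [omega_eq_ord zf D hw, ord_lt zf D] at h1
  obtain ⟨b, h3, h4⟩ := D.succ a h1 ha
  obtain ⟨b', -, S, hS⟩ := pow_code zf D (h3.trans ha).le
  obtain ⟨Z, hZ⟩ := zf.sep (D.ord b') fun z => ∀ z', E z' z →
    ¬ ∀ x, E x (D.ord b) → (App E S z x ↔ App E S z' x)
  obtain ⟨d, -, h, hh⟩ := order_type zf D (B := Z) fun x hx => ((hZ x).1 hx).1
  obtain ⟨W, hW⟩ := zf.powerset (D.ord b)
  have hWZ : Le E W Z := by
    refine le_of_rel zf _ _ (fun Y z => ∀ x, E x (D.ord b) → (E x Y ↔ App E S z x))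
      (fun Y _ => ?_) fun Y Y' z hY hY' _ h3 h4 => ?_
    · obtain ⟨z, ⟨l1, l2⟩, l3⟩ := wellFounded_lt.has_min
        {z | z < b' ∧ ∀ x, E x (D.ord b) → (E x Y ↔ App E S (D.ord z) x)} (hS Y)
      exact ⟨_, (hZ _).2 ⟨(ord_lt zf D).2 l1, (forall_ord D).2 fun z' l4 l5 =>
        l3 z' ⟨l4.trans l1, fun x hx => (l2 x hx).trans (l5 x hx)⟩ l4⟩, l2⟩
    · exact zf.extensionality _ _ fun x => ⟨fun h =>
        (h4 x ((hW _).1 hY x h)).2 ((h3 x ((hW _).1 hY x h)).1 h), fun h =>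
        (h3 x ((hW _).1 hY' x h)).2 ((h4 x ((hW _).1 hY' x h)).1 h)⟩
  have had : a ≤ d := not_lt.1 fun l => by
    obtain ⟨f, hf⟩ := h4 d l
    exact cantor zf (W := W) hW ((hWZ.trans zf (IsBij.le zf hh)).trans zf (hf.le D))
  obtain ⟨T, -, hT⟩ := exists_rel zf (D.ord a) (D.ord b) fun α ξ => ∃ z, App E h z α ∧ App E S z ξ
  obtain ⟨F, f1, hF⟩ := exists_rel zf (D.ord b) U fun ξ Y =>
    (∀ α, E α Y ↔ E α (D.ord a) ∧ App E T α ξ) ∨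
      ((∀ α, E α Y ↔ E α (D.ord a) ∧ ¬ App E T α ξ) ∧
        ∀ Y', E Y' U → ¬ ∀ α, E α Y' ↔ E α (D.ord a) ∧ App E T α ξ)
  have hfun : IsFun E F (D.ord b) U := by
    refine ⟨f1, fun ξ hξ => ?_, fun ξ Y Y' l1 l2 => ?_⟩
    · obtain ⟨Y, hY⟩ := zf.sep (D.ord a) fun α => App E T α ξ
      obtain ⟨Y', hY'⟩ := zf.sep (D.ord a) fun α => ¬ App E T α ξ
      by_cases l : E Y U
      · exact ⟨Y, (hF _ _).2 ⟨hξ, l, Or.inl hY⟩⟩
      · refine ⟨Y', (hF _ _).2 ⟨hξ, (u5 Y Y' (fun x hx => ((hY x).1 hx).1) fun x =>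
          (hY' x).trans (and_congr_right fun hx => not_congr ?_)).resolve_left l,
          Or.inr ⟨hY', fun Y'' l1 l2 => l ?_⟩⟩⟩
        · exact ⟨fun l1 => (hY x).2 ⟨hx, l1⟩, fun l1 => ((hY x).1 l1).2⟩
        · exact zf.extensionality _ _ (fun x => (l2 x).trans (hY x).symm) ▸ l1
    · obtain ⟨-, l3, l4⟩ := (hF _ _).1 l1
      obtain ⟨-, l5, l6⟩ := (hF _ _).1 l2
      rcases l4 with l4 | ⟨l4, l7⟩ <;> rcases l6 with l6 | ⟨l6, l8⟩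
      · exact zf.extensionality _ _ fun x => (l4 x).trans (l6 x).symm
      · exact absurd l4 (l8 Y l3)
      · exact absurd l6 (l7 Y' l5)
      · exact zf.extensionality _ _ fun x => (l4 x).trans (l6 x).symm
  obtain ⟨Z₀, hZ₀⟩ := zf.sep (D.ord a) fun x => ∀ i Y, App E F i Y → E x Y
  have hU := u7 _ F Z₀ ((ord_lt zf D).2 h3) hfun hZ₀
  obtain ⟨x, hx⟩ := u3 Z₀ hU
  refine u6 Z₀ x (fun y => ⟨fun hy => ?_, fun hy => hy ▸ hx⟩) hU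
  obtain ⟨x1, x2⟩ := (hZ₀ x).1 hx
  obtain ⟨y1, y2⟩ := (hZ₀ y).1 hy
  obtain ⟨z, hz⟩ := hh.2.2 x (ord_sub D had x x1)
  obtain ⟨z', hz'⟩ := hh.2.2 y (ord_sub D had y y1)
  have k1 : ∀ {x z ξ}, E x (D.ord a) → App E h z x → E ξ (D.ord b) →
      (App E T x ξ ↔ App E S z ξ) := fun {x z ξ} l1 l2 l3 =>
    (hT _ _).trans ⟨fun ⟨_, _, z', l4, l5⟩ => hh.2.1 z' z x l4 l2 ▸ l5, fun l => ⟨l1, l3, z, l2, l⟩⟩
  have k2 : ∀ ξ, E ξ (D.ord b) → (App E S z ξ ↔ App E S z' ξ) := by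
    intro ξ hξ
    rw [← k1 x1 hz hξ, ← k1 y1 hz' hξ]
    obtain ⟨Y, hY⟩ := hfun.2.1 ξ hξ
    rcases ((hF _ _).1 hY).2.2 with l | ⟨l, -⟩
    · exact iff_of_true ((l x).1 (x2 ξ Y hY)).2 ((l y).1 (y2 ξ Y hY)).2
    · exact iff_of_false ((l x).1 (x2 ξ Y hY)).2 ((l y).1 (y2 ξ Y hY)).2
  obtain ⟨l1, l2⟩ := (hZ z).1 (hh.1.mem zf hz).1
  obtain ⟨l3, l4⟩ := (hZ z').1 (hh.1.mem zf hz').1
  rcases (isOrd_ord zf D b').2 z z' l1 l3 with l | l | l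
  · exact absurd (fun ξ hξ => (k2 ξ hξ).symm) (l4 z l)
  · subst l
    exact hh.1.2.2 z y x hz' hz
  · exact absurd k2 (l2 z' l)

end Pool.Agent.Work.MP_58a5a1_lc
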