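import Pool.Agent.Work.MP_58a5a1_lc.Ctx

/-! Reflection of collapses and traces along a point of a measure. -/

namespace Pool.Agent.Work.MP_58a5a1_lc
open Cardinal Set Order Filter

theorem exists_bij {α β : Type} (s : Set α) {t : Set β} {b : β} (hb : b ∈ t) :
    ∃ g : α → β, (∀ a, g a ∈ t) ∧ (#s = #t → BijOn g s t) := by
  by_cases h : #s = #t
  · obtain ⟨g, h1, h2⟩ := exists_bijOn h b
    refine ⟨g, fun a => ?_, fun _ => h1⟩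
    by_cases ha : a ∈ s
    · exact h1.1 ha
    · rwa [h2 a ha]
  · exact ⟨fun _ => b, fun _ => hb, fun h' => absurd h' h⟩

namespace Ctx
variable {O : Type} [LinearOrder O] (X : Ctx O)

noncomputable def σ (n : ℕ) : Cardinal.{0} := Nat.casesOn n ℵ₀ fun n => 2 ^ X.κ (n + 1)
noncomputable def Γ (n : ℕ) : Cardinal.{0} := succ (X.σ n)
noncomputable def θ (n : ℕ) : Cardinal.{0} := succ (X.Γ n)
noncomputable def τ (x : Set O) : O := X.ini #(x ∩ X.L : Set O)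
noncomputable def η (t : O) : O := X.ini (s3 #(Iio t))
noncomputable def hi (n : ℕ) (t : O) : Cardinal.{0} := succ (s3 (max (X.θ n) #(Iio t)))
def Good (n : ℕ) (t : O) : Prop := X.θ n ≤ #(Iio t) ∧ t < X.k (n + 1)
abbrev lm : O := X.ini X.lam
def MF (t : O) (c : Cardinal.{0}) : Set (Set (O × O)) :=
  Fn (Ico t (X.ini (succ (succ c)))) (Iio (X.ini (2 ^ succ c))) (succ (succ c))
def L1 (n : ℕ) (t : O) : Set (Set (O × O)) := Fn (Iio (X.ini (X.θ n))) (Iio t) (X.θ n)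
def LC (n : ℕ) (t : O) : Set (Set (O × O)) := Fn2 t (X.L1 n t) (X.MF t #(Iio t))
def QF : Set (Set (O × O)) := X.MF X.lm X.lam
def H1 (n : ℕ) (t : O) : Set (Set (O × O)) :=
  Fn (Iio (X.ini (X.hi n t))) {y | t < X.k (n + 1) ∧ y < X.k (n + 1)} (X.hi n t)
def EC (n : ℕ) (t : O) : Set (Set (O × O)) :=
  Fn (Ico (X.k (n + 1)) (X.ini (succ (X.κ (n + 1)))))
    {y | t < X.k (n + 1) ∧ y < X.ini (2 ^ X.κ (n + 1))} (succ (X.κ (n + 1)))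
def HC (n : ℕ) (t : O) : Set (Set (O × O)) := Fn2 (X.k (n + 1)) (X.H1 n t) (X.EC n t)
def CF : Set (Set (O × O)) := Fn univ X.L (succ X.lam)

theorem κ_le_σ : ∀ n, X.κ n ≤ X.σ n
  | 0 => X.κ_zero.le
  | _ + 1 => (cantor _).le
theorem σ_lt : ∀ n, X.σ n < X.κ (n + 1)
  | 0 => X.κ_zero.symm.trans_lt (X.lt 0)
  | n + 1 => X.slim _ _ (X.lt (n + 1))
theorem σ_mono : Monotone X.σ := monotone_nat_of_le_succ fun n => (X.σ_lt n).le.trans (X.κ_le_σ _)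
theorem aleph0_le_σ (n : ℕ) : ℵ₀ ≤ X.σ n := (X.aleph0_le_κ n).trans (X.κ_le_σ n)
theorem Γ_reg (n : ℕ) : (X.Γ n).IsRegular := isRegular_succ (X.aleph0_le_σ n)
theorem Γ_lt (n : ℕ) : X.Γ n < X.κ (n + 1) := X.lim _ _ (X.σ_lt n)
theorem Γ_le_Lam (n : ℕ) : X.Γ n ≤ s3 X.lam := (X.Γ_lt n).le.trans (X.κ_le_Lam _)
theorem κ_le_Γ (n : ℕ) : X.κ n ≤ X.Γ n := (X.κ_le_σ n).trans (le_succ _)
theorem σ_lt_θ (n : ℕ) : X.σ n < X.θ n := lt_succ_of_le (le_succ _)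
theorem θ_reg (n : ℕ) : (X.θ n).IsRegular := isRegular_succ (X.Γ_reg n).aleph0_le
theorem θ_lt (n : ℕ) : X.θ n < X.κ (n + 1) := X.lim _ _ (X.Γ_lt n)
theorem θ_mono {m n : ℕ} (h : m ≤ n) : X.θ m ≤ X.θ n := succ_le_succ (succ_le_succ (X.σ_mono h))
theorem θ_le_Lam (n : ℕ) : X.θ n ≤ s3 X.lam := (X.θ_lt n).le.trans (X.κ_le_Lam _)
theorem mk_θ (n : ℕ) : #(Iio (X.ini (X.θ n))) = X.θ n := X.mk_ini _ (X.θ_le_Lam n)
theorem θ_le_hi (n : ℕ) (t : O) : X.θ n ≤ X.hi n t :=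
  (le_max_left _ _).trans ((le_s3 _).trans (le_succ _))
theorem hi_reg (n : ℕ) (t : O) : (X.hi n t).IsRegular :=
  isRegular_succ ((X.θ_reg n).aleph0_le.trans ((le_max_left _ _).trans (le_s3 _)))
theorem hi_lt {n : ℕ} {t : O} (h : t < X.k (n + 1)) : X.hi n t < X.κ (n + 1) :=
  X.lim _ _ (X.s3_lt (max_lt (X.θ_lt n) (X.lt_k.1 h)))
theorem mk_lm : #(Iio X.lm) = X.lam := X.mk_L
theorem θ_le_lm (n : ℕ) : X.θ n ≤ #(Iio X.lm) :=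
  (X.θ_lt n).le.trans ((X.lt_lam _).le.trans X.mk_L.ge)
theorem κs_reg (n : ℕ) : (succ (X.κ n)).IsRegular := isRegular_succ (X.aleph0_le_κ n)

variable {X} in
theorem up_mem {n : ℕ} {c : Set (O × O)} (h : c ∈ X.LC n X.lm) : up X.lm c ∈ X.QF := by
  have := h.2
  rwa [mk_lm] at this

theorem LC_ucl {n : ℕ} {t : O} (h : X.θ n ≤ #(Iio t)) : UCl (X.LC n t) (X.θ n) :=
  Fn2.ucl (Fn.ucl (X.θ_reg n)) ((Fn.ucl (isRegular_succ ((X.θ_reg n).aleph0_le.trans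
    (h.trans (le_succ _))))).mono (h.trans ((le_succ _).trans (le_succ _))))
theorem QF_ucl : UCl X.QF (succ (succ X.lam)) := Fn.ucl X.lam2_reg
theorem HC_ucl (n : ℕ) (t : O) : UCl (X.HC n t) (X.θ n) :=
  Fn2.ucl ((Fn.ucl (X.hi_reg n t)).mono (X.θ_le_hi n t))
    ((Fn.ucl (X.κs_reg _)).mono ((X.θ_lt n).le.trans (le_succ _)))
theorem HC_ucl' {n : ℕ} {t : O} (h : t < X.k (n + 1)) : UCl (X.HC n t) (X.hi n t) :=
  Fn2.ucl (Fn.ucl (X.hi_reg n t)) ((Fn.ucl (X.κs_reg _)).mono ((X.hi_lt h).le.trans (le_succ _)))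
theorem LC_empty (n : ℕ) (t : O) : ∅ ∈ X.LC n t :=
  Fn2.empty (X.θ_reg n).pos (zero_le.trans_lt (lt_succ _))
theorem HC_empty (n : ℕ) (t : O) : ∅ ∈ X.HC n t := Fn2.empty (X.hi_reg n t).pos (X.κs_reg _).pos

variable {X} in
theorem LC_union {n : ℕ} {c q : Set (O × O)} (h : c ∈ X.LC n X.lm) (hq : q ∈ X.QF)
    (h1 : up X.lm c ⊆ q) : c ∪ q ∈ X.LC n X.lm :=
  Fn2.union_up h (by rwa [mk_lm]) h1 fun _ hp => (hq.1 hp).1.1

variable {X} in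
theorem up_union_sub {c q : Set (O × O)} (h1 : up X.lm c ⊆ q) : up X.lm (c ∪ q) ⊆ q :=
  fun _ hp => hp.1.elim (fun h => h1 ⟨h, hp.2⟩) id

variable {X} in
theorem Good.hi_eq {n : ℕ} {t : O} (h : X.Good n t) : X.hi n t = succ (s3 #(Iio t)) := by
  rw [hi, max_eq_right h.1]

variable {X} in
theorem Good.θ_le {n : ℕ} {t : O} (h : X.Good n t) : X.ini (X.θ n) ≤ t := X.ini_le h.1

variable {X} in
theorem Good.η_lt {n : ℕ} {t : O} (h : X.Good n t) : X.η t < X.k (n + 1) :=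
  X.ini_lt_ini (X.s3_lt (X.lt_k.1 h.2)) (X.κ_le_Lam _)

variable {X} in
theorem Good.mk_η {n : ℕ} {t : O} (h : X.Good n t) : #(Iio (X.η t)) = s3 #(Iio t) :=
  X.mk_ini _ ((X.s3_lt (X.lt_k.1 h.2)).le.trans (X.κ_le_Lam _))

variable {X} in
theorem Good.bot_lt {n : ℕ} {t : O} (h : X.Good n t) : X.bot < t := by
  refine lt_of_le_of_ne (X.bot_le t) fun he => ?_
  have h1 := h.1
  rw [← he, bot, X.mk_ini 0 zero_le] at h1
  exact absurd (X.θ_reg n).pos (not_lt.2 h1)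

theorem mk_inter_le (x : Set O) : #(x ∩ X.L : Set O) ≤ X.lam :=
  X.mk_L ▸ mk_le_mk_of_subset inter_subset_right

theorem mk_τ (x : Set O) : #(Iio (X.τ x)) = #(x ∩ X.L : Set O) :=
  X.mk_ini _ (X.le_Lam (X.mk_inter_le x))

theorem exists_e (x : Set O) : ∃ e : O → O, (∀ γ, e γ < X.η (X.τ x)) ∧
    (#x ≤ s3 #(x ∩ X.L : Set O) → InjOn e x) := by
  have h1 := s3_mono (X.mk_inter_le x)
  have h2 : X.bot < X.η (X.τ x) := by
    rw [η, mk_τ]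
    exact X.ini_lt_ini (zero_le.trans_lt (lt_s3 _)) h1
  by_cases h : #x ≤ s3 #(x ∩ X.L : Set O)
  · obtain ⟨g, h3, h4, h5⟩ := exists_injOn (s := x) (t := Iio (X.η (X.τ x)))
      (by rwa [η, mk_τ, X.mk_ini _ h1]) X.bot
    refine ⟨g, fun γ => ?_, fun _ => h3⟩
    by_cases hγ : γ ∈ x
    · exact h4 hγ
    · rwa [h5 γ hγ]
  · exact ⟨fun _ => X.bot, fun _ => h2, fun h' => absurd h' h⟩

noncomputable def e (x : Set O) : O → O := (X.exists_e x).choose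
noncomputable def d (x : Set O) : O → O := (exists_bijOn (X.mk_τ x).symm X.bot).choose

theorem e_lt (x : Set O) (γ : O) : X.e x γ < X.η (X.τ x) := (X.exists_e x).choose_spec.1 γ
theorem d_bij (x : Set O) : BijOn (X.d x) (x ∩ X.L) (Iio (X.τ x)) :=
  (exists_bijOn (X.mk_τ x).symm X.bot).choose_spec.1
theorem d_lt {n : ℕ} {x : Set O} (h : X.Good n (X.τ x)) (y : O) : X.d x y < X.τ x := by
  by_cases hy : y ∈ x ∩ X.L
  · exact (X.d_bij x).1 hy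
  · rw [d, (exists_bijOn (X.mk_τ x).symm X.bot).choose_spec.2 y hy]
    exact h.bot_lt

theorem ae_inj (n : ℕ) :
    ∀ᶠ x in (X.U n : Filter (Set O)), InjOn (X.e x) x :=
  (X.ae_card n).mono fun x hx => (X.exists_e x).choose_spec.2 hx.2.2.2

theorem ae_good (n : ℕ) : ∀ᶠ x in (X.U n : Filter (Set O)), X.Good n (X.τ x) := by
  filter_upwards [X.ae_large n (X.θ_lt n), X.small n] with x h1 h2
  refine ⟨by rwa [mk_τ], X.lt_k.2 ?_⟩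
  rw [mk_τ]
  exact (mk_le_mk_of_subset inter_subset_left).trans_lt h2

theorem τ_mem (x : Set O) : X.τ x ∈ Ico (X.τ x) (X.ini (succ (succ #(Iio (X.τ x))))) := by
  refine ⟨le_rfl, ?_⟩
  rw [mk_τ]
  exact X.ini_lt_ini ((lt_succ _).trans (lt_succ _))
    ((ss_lt_s3 _).le.trans (s3_mono (X.mk_inter_le x)))

theorem bot_mem (x : Set O) : X.bot ∈ Iio (X.ini (2 ^ succ #(Iio (X.τ x)))) := by
  rw [mk_τ]
  exact X.ini_lt_ini (zero_le.trans_lt (cantor _))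
    ((le_succ _).trans (s3_mono (X.mk_inter_le x)))

noncomputable def π (x : Set O) : O → O :=
  (exists_bij (x ∩ Ico X.lm (X.ini (succ (succ X.lam)))) (X.τ_mem x)).choose
noncomputable def ρ (x : Set O) : O → O :=
  (exists_bij (x ∩ Iio (X.ini (2 ^ succ X.lam))) (X.bot_mem x)).choose

theorem π_mem (x : Set O) (a : O) :
    X.π x a ∈ Ico (X.τ x) (X.ini (succ (succ #(Iio (X.τ x))))) :=
  (exists_bij _ (X.τ_mem x)).choose_spec.1 a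
theorem ρ_mem (x : Set O) (a : O) : X.ρ x a ∈ Iio (X.ini (2 ^ succ #(Iio (X.τ x)))) :=
  (exists_bij _ (X.bot_mem x)).choose_spec.1 a

theorem ae_bij (n : ℕ) : ∀ᶠ x in (X.U n : Filter (Set O)),
    BijOn (X.π x) (x ∩ Ico X.lm (X.ini (succ (succ X.lam))))
      (Ico (X.τ x) (X.ini (succ (succ #(Iio (X.τ x)))))) ∧
    BijOn (X.ρ x) (x ∩ Iio (X.ini (2 ^ succ X.lam))) (Iio (X.ini (2 ^ succ #(Iio (X.τ x))))) := by
  filter_upwards [X.ae_card n, X.ae_good n] with x h1 h2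
  have h3 := s3_mono (X.mk_τ x ▸ X.mk_inter_le x)
  refine ⟨(exists_bij _ (X.τ_mem x)).choose_spec.2 ?_, (exists_bij _ (X.bot_mem x)).choose_spec.2 ?_⟩
  · rw [X.mk_Ico ((X.θ_reg n).aleph0_le.trans (h2.1.trans ((le_succ _).trans (le_succ _))))
      ((ss_lt_s3 _).le.trans h3) (X.τ_mem x).2, mk_τ]
    exact h1.2.1
  · rw [X.mk_ini _ ((le_succ _).trans h3), mk_τ]
    exact h1.2.2.1

/-- The trace of `x` on `a`. -/
def tr (x a : Set O) : Set (O × O) := (fun γ => (γ, X.e x γ)) '' a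
def rf1 (x : Set O) (c : Set (O × O)) : Set (O × O) := (fun p => (p.1, X.d x p.2)) '' c
def rf2 (x : Set O) (c : Set (O × O)) : Set (O × O) :=
  (fun p => (X.π x p.1, X.ρ x p.2)) '' {p ∈ c | p.1 ∈ x}
/-- The reflection of `c` along `x`. -/
def rf (x : Set O) (c : Set (O × O)) : Set (O × O) := X.rf1 x (lo X.lm c) ∪ X.rf2 x (up X.lm c)

theorem tr_mono (x : Set O) {a b : Set O} (h : a ⊆ b) : X.tr x a ⊆ X.tr x b := image_mono h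
theorem rf2_mono (x : Set O) {a b : Set (O × O)} (h : a ⊆ b) : X.rf2 x a ⊆ X.rf2 x b :=
  image_mono fun _ hp => ⟨h hp.1, hp.2⟩
theorem rf_mono (x : Set O) {a b : Set (O × O)} (h : a ⊆ b) : X.rf x a ⊆ X.rf x b :=
  union_subset_union (image_mono (lo_mono h)) (X.rf2_mono x (up_mono h))

theorem rf1_mem {n : ℕ} {x : Set O} (h : X.Good n (X.τ x)) {c : Set (O × O)}
    (hc : c ∈ X.L1 n X.lm) : X.rf1 x c ∈ X.L1 n (X.τ x) := by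
  refine ⟨?_, ?_, mk_image_le.trans_lt hc.2.2⟩
  · rintro _ ⟨p, hp, rfl⟩
    exact ⟨(hc.1 hp).1, X.d_lt h _⟩
  · rintro i y y' ⟨⟨j, z⟩, h1, h2⟩ ⟨⟨j', z'⟩, h3, h4⟩
    obtain ⟨rfl, rfl⟩ := Prod.mk.inj h2
    obtain ⟨rfl, rfl⟩ := Prod.mk.inj h4
    rw [hc.2.1 _ _ _ h1 h3]

theorem rf2_ge (x : Set O) (c : Set (O × O)) : ∀ p ∈ X.rf2 x c, X.τ x ≤ p.1 := by
  rintro _ ⟨p, -, rfl⟩
  exact (X.π_mem x _).1

theorem ae_rf2 (n : ℕ) {c : Set (O × O)} (hc : c ∈ X.QF) :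
    ∀ᶠ x in (X.U n : Filter (Set O)), X.rf2 x c ∈ X.MF (X.τ x) #(Iio (X.τ x)) := by
  filter_upwards [X.ae_bij n, X.ae_card n, X.ae_le n (S := Prod.fst '' c)
    (T := Iio (X.ini (succ X.lam))) (by
      rw [X.mk_ini _ (succ_lt_s3 _).le]; exact sm_image _ (le_of_lt_succ hc.2.2))] with x h1 h2 h3
  refine ⟨?_, ?_, lt_succ_of_le (sm_image _ ?_)⟩
  · rintro _ ⟨p, -, rfl⟩
    exact ⟨X.π_mem x _, X.ρ_mem x _⟩
  · rintro i y y' ⟨⟨j, z⟩, h4, h5⟩ ⟨⟨j', z'⟩, h6, h7⟩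
    obtain ⟨rfl, rfl⟩ := Prod.mk.inj h5
    obtain ⟨h8, rfl⟩ := Prod.mk.inj h7
    obtain rfl := h1.1.2.1 ⟨h6.2, (hc.1 h6.1).1⟩ ⟨h4.2, (hc.1 h4.1).1⟩ h8
    rw [hc.2.1 _ _ _ h4.1 h6.1]
  · rw [mk_τ, ← h2.1]
    exact (Fn.mk_le (fun i y y' h h' => hc.2.1 i y y' h.1 h'.1)
      fun p hp => show _ ∈ x ∩ Prod.fst '' c from ⟨hp.2, p, hp.1, rfl⟩).trans h3

theorem ae_rf {n : ℕ} {c : Set (O × O)} (hc : c ∈ X.LC n X.lm) :
    ∀ᶠ x in (X.U n : Filter (Set O)), X.rf x c ∈ X.LC n (X.τ x) := by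
  filter_upwards [X.ae_good n, X.ae_rf2 n (up_mem hc)] with x h1 h2
  have h3 := X.rf1_mem h1 hc.1
  exact Fn2.mk (fun p hp => (h3.1 hp).1.trans_le h1.θ_le) (X.rf2_ge x _) h3 h2

theorem exists_rf2 {n : ℕ} {C : Set O → Set (O × O)}
    (hC : ∀ᶠ x in (X.U n : Filter (Set O)), C x ∈ X.MF (X.τ x) #(Iio (X.τ x))) :
    ∃ c ∈ X.QF, (∀ᶠ x in (X.U n : Filter (Set O)), X.rf2 x c = C x) ∧
      ∀ c' ∈ X.QF, (∀ᶠ x in (X.U n : Filter (Set O)), X.rf2 x c' ⊆ C x) → c' ⊆ c := by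
  let c : Set (O × O) := {p | p.1 ∈ Ico X.lm (X.ini (succ (succ X.lam))) ∧
    p.2 ∈ Iio (X.ini (2 ^ succ X.lam)) ∧
    ∀ᶠ x in (X.U n : Filter (Set O)), (X.π x p.1, X.ρ x p.2) ∈ C x}
  have hfun : ∀ i y y', (i, y) ∈ c → (i, y') ∈ c → y = y' := by
    intro i y y' h1 h2
    obtain ⟨x, h3, h4, h5, h6, h7, h8⟩ := (hC.and (h1.2.2.and (h2.2.2.and ((X.ae_bij n).and
      ((X.fine n y).and (X.fine n y')))))).exists
    exact h6.2.2.1 ⟨h7, h1.2.1⟩ ⟨h8, h2.2.1⟩ (h3.2.1 _ _ _ h4 h5)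
  have h1 : ∀ᶠ x in (X.U n : Filter (Set O)), X.rf2 x c ⊆ C x := by
    by_contra hc
    rw [← Ultrafilter.eventually_not] at hc
    obtain ⟨i, hi⟩ := X.normal' (n := n)
      (R := fun x i => ∃ y, (i, y) ∈ c ∧ (X.π x i, X.ρ x y) ∉ C x) (hc.mono fun x hx => by
        obtain ⟨_, ⟨p, h1, rfl⟩, h2⟩ := not_subset.1 hx
        exact ⟨p.1, h1.2, p.2, h1.1, h2⟩)
    obtain ⟨_, y, h1, -⟩ := hi.exists
    obtain ⟨x, ⟨y', h2, h3⟩, h4⟩ := (hi.and h1.2.2).exists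
    exact h3 (hfun _ _ _ h1 h2 ▸ h4)
  have h2 : ∀ᶠ x in (X.U n : Filter (Set O)), C x ⊆ X.rf2 x c := by
    by_contra hc
    rw [← Ultrafilter.eventually_not] at hc
    obtain ⟨i, hi⟩ := X.normal' (n := n) (R := fun x i => ∃ y ∈ x, (i, y) ∉ c ∧
        i ∈ Ico X.lm (X.ini (succ (succ X.lam))) ∧ y ∈ Iio (X.ini (2 ^ succ X.lam)) ∧
        (X.π x i, X.ρ x y) ∈ C x) (by
      filter_upwards [hc, hC, X.ae_bij n] with x h2 h3 h4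
      obtain ⟨⟨j, z⟩, h5, h6⟩ := not_subset.1 h2
      obtain ⟨i, h7, rfl⟩ := h4.1.2.2 (h3.1 h5).1
      obtain ⟨y, h8, rfl⟩ := h4.2.2.2 (h3.1 h5).2
      exact ⟨i, h7.1, y, h8.1, fun h => h6 ⟨(i, y), ⟨h, h7.1⟩, rfl⟩, h7.2, h8.2, h5⟩)
    obtain ⟨y, hy⟩ := X.normal' hi
    obtain ⟨_, h3, h4, h5, -⟩ := hy.exists
    exact h3 ⟨h4, h5, hy.mono fun x hx => hx.2.2.2⟩
  refine ⟨c, ⟨fun p hp => ⟨hp.1, hp.2.1⟩, hfun, lt_succ_of_le ?_⟩,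
    (h1.and h2).mono fun x hx => hx.1.antisymm hx.2, fun c' hc' h p hp => ?_⟩
  · refine (Fn.mk_le hfun (a := Prod.fst '' c) fun p hp => ⟨p, hp, rfl⟩).trans ?_
    rw [← X.mk_ini _ (succ_lt_s3 X.lam).le]
    refine X.le_of_ae (n := n) ?_
    filter_upwards [h1, hC, X.ae_bij n, X.ae_card n] with x h3 h4 h5 h6
    rw [h6.1, ← mk_τ]
    refine sm_inj (t := Prod.fst '' C x) (X.π x) (h5.1.2.1.mono ?_) ?_
      (sm_image _ (le_of_lt_succ h4.2.2))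
    · rintro _ ⟨h7, p, h8, rfl⟩; exact ⟨h7, h8.1⟩
    · rintro _ ⟨h7, p, h8, rfl⟩; exact ⟨_, h3 ⟨p, ⟨h8, h7⟩, rfl⟩, rfl⟩
  · refine ⟨(hc'.1 hp).1, (hc'.1 hp).2, ?_⟩
    filter_upwards [h, X.fine n p.1] with x h3 h4
    exact h3 ⟨p, ⟨hp, h4⟩, rfl⟩

theorem exists_rf1 {n : ℕ} {C : Set O → Set (O × O)}
    (hC : ∀ᶠ x in (X.U n : Filter (Set O)), C x ∈ X.L1 n (X.τ x)) :
    ∃ c ∈ X.L1 n X.lm, (∀ᶠ x in (X.U n : Filter (Set O)), X.rf1 x c = C x) ∧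
      ∀ c' ∈ X.L1 n X.lm, (∀ᶠ x in (X.U n : Filter (Set O)), X.rf1 x c' ⊆ C x) → c' ⊆ c := by
  let c : Set (O × O) := {p | p.1 < X.ini (X.θ n) ∧ p.2 ∈ X.L ∧
    ∀ᶠ x in (X.U n : Filter (Set O)), p.2 ∈ x ∧ (p.1, X.d x p.2) ∈ C x}
  have hfun : ∀ i y y', (i, y) ∈ c → (i, y') ∈ c → y = y' := by
    intro i y y' h1 h2
    obtain ⟨x, h3, h4, h5⟩ := (hC.and (h1.2.2.and h2.2.2)).exists
    exact (X.d_bij x).2.1 ⟨h4.1, h1.2.1⟩ ⟨h5.1, h2.2.1⟩ (h3.2.1 _ _ _ h4.2 h5.2)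
  have h1 : ∀ i ∈ Iio (X.ini (X.θ n)), ∀ᶠ x in (X.U n : Filter (Set O)),
      ∀ z, (i, z) ∈ C x ↔ ∃ y, (i, y) ∈ c ∧ X.d x y = z := by
    intro i hi
    rcases (X.U n).em (fun x => ∃ z, (i, z) ∈ C x) with h | h
    · obtain ⟨y, hy⟩ := X.normal' (n := n) (R := fun x y => y ∈ X.L ∧ y ∈ x ∧ (i, X.d x y) ∈ C x) (by
        filter_upwards [h, hC] with x ⟨z, hz⟩ hx
        obtain ⟨y, h1, rfl⟩ := (X.d_bij x).2.2 (hx.1 hz).2
        exact ⟨y, h1.1, h1.2, h1.1, hz⟩)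
      have hyc : (i, y) ∈ c := ⟨hi, hy.exists.choose_spec.1, hy.mono fun x hx => hx.2⟩
      filter_upwards [hy, hC] with x h2 h3 z
      refine ⟨fun hz => ⟨y, hyc, h3.2.1 _ _ _ h2.2.2 hz⟩, ?_⟩
      rintro ⟨y', h4, rfl⟩
      rw [hfun _ _ _ h4 hyc]; exact h2.2.2
    · filter_upwards [h] with x hx z
      refine ⟨fun hz => absurd ⟨z, hz⟩ hx, ?_⟩
      rintro ⟨y, h2, -⟩
      obtain ⟨x', h3, h4⟩ := (h.and h2.2.2).exists
      exact absurd ⟨_, h4.2⟩ h3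
  have h2 : ∀ᶠ x in (X.U n : Filter (Set O)), X.rf1 x c = C x := by
    filter_upwards [X.ae_all (by rw [mk_θ]; exact X.θ_lt n) h1, hC] with x h2 h3
    ext ⟨i, z⟩
    constructor
    · rintro ⟨⟨j, y⟩, h4, h5⟩
      obtain ⟨rfl, rfl⟩ := Prod.mk.inj h5
      exact (h2 _ h4.1 _).2 ⟨y, h4, rfl⟩
    · intro h4
      obtain ⟨y, h5, rfl⟩ := (h2 i (h3.1 h4).1 z).1 h4
      exact ⟨(i, y), h5, rfl⟩
  refine ⟨c, ⟨fun p hp => ⟨hp.1, hp.2.1⟩, hfun, ?_⟩, h2, fun c' hc' h p hp => ?_⟩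
  · obtain ⟨x, h3, h4⟩ := (h2.and hC).exists
    refine lt_of_le_of_lt ?_ h4.2.2
    rw [← h3, rf1, mk_image_eq_of_injOn]
    rintro ⟨i, y⟩ h5 ⟨j, y'⟩ h6 h7
    obtain ⟨rfl, -⟩ := Prod.mk.inj h7
    rw [hfun _ _ _ h5 h6]
  · refine ⟨(hc'.1 hp).1, (hc'.1 hp).2, ?_⟩
    filter_upwards [h, X.fine n p.2] with x h3 h4
    exact ⟨h4, h3 ⟨p, hp, rfl⟩⟩

/-- Every function choosing a collapse condition at `τ x` is a reflection. -/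
theorem exists_rf {n : ℕ} {C : Set O → Set (O × O)}
    (hC : ∀ᶠ x in (X.U n : Filter (Set O)), C x ∈ X.LC n (X.τ x)) :
    ∃ c ∈ X.LC n X.lm, (∀ᶠ x in (X.U n : Filter (Set O)), X.rf x c = C x) ∧
      ∀ c' ∈ X.LC n X.lm, (∀ᶠ x in (X.U n : Filter (Set O)), X.rf x c' ⊆ C x) → c' ⊆ c := by
  obtain ⟨c₁, h1, h2, h3⟩ := X.exists_rf1 (hC.mono fun x hx => hx.1)
  obtain ⟨c₂, h4, h5, h6⟩ := X.exists_rf2 (hC.mono fun x hx => hx.2)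
  have e1 : ∀ p ∈ c₁, p.1 < X.lm := fun p hp => (h1.1 hp).1.trans_le (X.ini_le (X.θ_le_lm n))
  have e2 : ∀ p ∈ c₂, X.lm ≤ p.1 := fun p hp => (h4.1 hp).1.1
  refine ⟨c₁ ∪ c₂, Fn2.mk e1 e2 h1 (by rwa [mk_lm]), (h2.and h5).mono fun x hx => ?_,
    fun c' hc' h => ?_⟩
  · rw [rf, lo_union e1 e2, up_union e1 e2, hx.1, hx.2, lo_union_up]
  · rw [← lo_union_up X.lm c']
    refine union_subset_union (h3 _ hc'.1 ?_) (h6 _ (up_mem hc') ?_)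
    · filter_upwards [h, X.ae_good n] with x h7 h8 p hp
      exact ⟨h7 (Or.inl hp), ((X.rf1_mem h8 hc'.1).1 hp).1.trans_le h8.θ_le⟩
    · exact h.mono fun x h7 p hp => ⟨h7 (Or.inr hp), X.rf2_ge x _ p hp⟩

end Ctx

end Pool.Agent.Work.MP_58a5a1_lc
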