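import Pool.Agent.Work.MP_58a5a1_lc.CC

/-! The polarized relations at the level of names, and the system of the interface. -/

namespace Pool.Agent.Work.MP_58a5a1_lc
open Cardinal Set Order Filter

variable {O : Type} [LinearOrder O] {X : Ctx O}
open Cond

theorem Cond.Δ.eq_true {k : ℕ} {s r : Cond X} {U b} (h : Δ r k (stem k s r) U b) (hs : s ≤ r)
    (hk : k ≤ s.l) (hu : U s) : b = true :=
  (h.2.mono (le_ap_stem hs hk)).eq_true hu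

theorem Ctx.mk_small (X : Ctx O) (n : ℕ) {α : Type} {Y : Set α} (h : #Y ≤ X.κ (n + 1)) :
    #{F : Set α | F ⊆ Y ∧ #F < X.κ (n + 1)} ≤ X.κ (n + 1) := by
  have h0 := X.aleph0_le_κ (n + 1)
  refine sm_mono (t := ⋃ a ∈ Iio (X.k (n + 1)), {F : Set α | F ⊆ Y ∧ #F ≤ #(Iio a)})
    (fun F hF => mem_biUnion (X.ini_lt_ini hF.2 (X.κ_le_Lam _))
      ⟨hF.1, (X.mk_ini _ (hF.2.le.trans (X.κ_le_Lam _))).ge⟩)
    (sm_biUnion h0 (X.mk_k _).le fun a ha => mk_small_le (X.reg _) (X.lt_k.1 ha)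
      (fun m hm _ => (power_le_power_right (cantor m).le).trans ?_)
      ((X.aleph0_le_κ n).trans_lt (X.lt n)) h)
  rw [← power_mul]
  exact (X.slim _ _ (mul_lt_of_lt h0 hm (X.lt_k.1 ha))).le

def Hom (b : Set O) (U : O → Cond X → Prop) (q : Cond X) : Prop :=
  ∀ y ∈ b, ∀ y' ∈ b, ∀ s, s ≤ q → U y s → Dns (U y') s

theorem exists_hom {k : ℕ} {p : Cond X} (hk : p.l ≤ k) {U : O → Cond X → Prop}
    (hU : ∀ y, Mono (U y)) : ∃ q, Lek k q p ∧ ∃ b ⊆ X.L, X.κ k ≤ #b ∧ Hom b U q := by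
  obtain ⟨p, hp, hred⟩ := exists_red (k + 1) p U
  replace hk : p.l ≤ k := hp.2.1 ▸ hk
  have hv := p.hu k hk
  have h0 := X.aleph0_le_κ (k + 1)
  have hK := (X.mk_k (k + 1)).le
  let K := Iio (X.k (k + 1))
  let I := X.St k p.a ×ˢ {F : Set (O × O) | F ⊆ p.a k ×ˢ K ∧ #F < X.κ (k + 1)} ×ˢ
    {F : Set (O × O) | F ⊆ K ×ˢ K ∧ #F < X.κ (k + 1)} ×ˢ
    {F : Set (O × O) | F ⊆ K ×ˢ K ∧ #F < X.κ (k + 1)}
  have hI : #I ≤ X.κ (k + 1) := sm_prod h0 ((p.mk_St k).trans (X.σ_lt k).le) (sm_prod h0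
    (X.mk_small k (sm_prod h0 hv.1.le hK)) (sm_prod h0 (X.mk_small k (sm_prod h0 hK hK))
      (X.mk_small k (sm_prod h0 hK hK))))
  let Z : O → O → (ℕ → Sm O) × Set (O × O) × Set (O × O) × Set (O × O) → Set (O × O) → Prop :=
    fun y t i e => Δ p (k + 1) (Function.update i.1 k ⟨t, i.2.1, i.2.2.1, i.2.2.2 ∪ e⟩) (U y) true
  have hZ : ∀ y t, ∀ i ∈ I, ∀ e ∈ X.EC k t, ∀ e' ∈ X.EC k t, e ⊆ e' → Z y t i e → Z y t i e' :=
    fun y t i hi e he e' he' h h' => h'.upd_mono (fun hs => ⟨hs.1, hs.2, hs.3, hs.4, hs.5,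
      Fn2.mk (fun z hz => (hi.2.2.2.1 hz).1) (fun z hz => (he'.1 hz).1.1) (by
        have := hs.6.1
        rwa [lo_union (fun z hz => (hi.2.2.2.1 hz).1) fun z hz => (he.1 hz).1.1] at this) he'⟩)
      Subset.rfl ⟨rfl, Subset.rfl, union_subset_union_right _ h⟩
  choose E h1 h2 h3 using fun y t => (Fn.ucl (X.κs_reg (k + 1))).reduce (X.κs_reg _).aleph0_le I
    (lt_succ_of_le hI) (Z y t) (hZ y t) (hv.2.2.2 t).2
  have h4 := (X.mk_ini _ (X.σ_le_Lam (k + 1))).le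
  have h5 := X.aleph0_le_σ (k + 1)
  obtain ⟨Y, h6, h7, h8⟩ := exists_fiber (S := Iio (X.ini (X.Γ (k + 1)))) (X.Γ_reg (k + 1))
    (lt_succ_of_le (sm_prod h5 (mk_small_pow h0 le_rfl (sm_prod h5 (hK.trans (X.κ_le_σ _))
      (sm_prod h5 h4 h4))) (sm_pow (sm_prod h0 hK hI)))) (X.mk_ini _ (X.Γ_le_Lam _)).ge
    (fun y => ({z : O × O × O | z.2 ∈ E y z.1}, {z | z ∈ K ×ˢ I ∧ Z y z.1 z.2 (E y z.1)}))
    (fun y _ => ⟨⟨fun z hz => mem_prod.2 ⟨((h1 y z.1).1 hz).2.1, X.EC_sub (h1 y z.1) hz⟩,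
      sm_mono (t := ⋃ t ∈ K, {t} ×ˢ E y t)
        (fun z hz => mem_iUnion₂.2 ⟨z.1, ((h1 y z.1).1 hz).2.1, rfl, hz⟩)
        (sm_biUnion h0 hK fun t _ => sm_prod h0 (sm_sing h0 _) (le_of_lt_succ (h1 y t).2.2))⟩,
      fun z hz => hz.1⟩)
  obtain ⟨y₀, hy₀⟩ : Y.Nonempty := by
    rw [← nonempty_coe_sort, ← mk_ne_zero_iff]
    exact ((X.Γ_reg _).pos.trans_le h7).ne'
  let r : Rest O := {p.s k with H := fun t => (p.s k).H t ∪ E y₀ t}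
  have h9 : Lek k (p.upd k hk r ⟨hv.1, hv.2.1, hv.2.2.1, fun t => Fn2.union_up (hv.2.2.2 t)
      (h1 y₀ t) (h2 y₀ t) fun z hz => ((h1 y₀ t).1 hz).1.1⟩ ⟨p.hd k, p.hg k hk⟩) p :=
    upd_lek ⟨Subset.rfl, Subset.rfl, Subset.rfl, fun _ => subset_union_left⟩
  refine ⟨_, h9.trans (hp.mono (Nat.le_succ k)), Y, fun y hy => X.Iio_sub_L
    (X.ini_le_ini (X.Γ_lt _).le (X.κ_le_Lam _)) (h6 hy),
    (X.lt k).le.trans ((X.κ_le_Γ _).trans h7), fun y hy y' hy' s hs hu s₁ h10 => ?_⟩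
  obtain ⟨s₂, h11, h12⟩ := s₁.exists_len (k + 1)
  have h13 := h11.trans (h10.trans hs)
  obtain ⟨s₃, h14, c, h15⟩ := hred.capture (h6 hy) (hU y) (h13.trans h9.1) h12
  have h16 := h14.trans h13
  have h17 := h12.trans h14.l
  obtain rfl := h15.eq_true (h16.trans h9.1) h17 (hU _ _ _ (h14.trans (h11.trans h10)) hu)
  obtain ⟨x, -, h18, h19, -, h20⟩ := h16.cu k hk h17
  rw [upd_s] at h19 h20
  have h21 := stem_succ (p := p) h18 h19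
  have hw := s₃.hc k h17
  rw [h18] at h20
  have h22 : (s₃.s k).h ∈ X.HC k (X.τ x) := h18 ▸ hw.2.2.2
  have h23 : X.Good k (X.τ x) := h18 ▸ hw.2.1
  have h24 := X.LC_sub' h23 (h18 ▸ hw.2.2.1)
  have hi : (stem k s₃ p, X.tr x (p.a k), (s₃.s k).d, lo (X.k (k + 1)) (s₃.s k).h) ∈ I :=
    ⟨stem_mem (h16.trans h9.1) (Nat.le_of_succ_le h17), ⟨by
      rintro _ ⟨γ, hγ, rfl⟩
      exact ⟨hγ, (X.e_lt x γ).trans h23.η_lt⟩, mk_image_le.trans_lt hv.1⟩,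
      ⟨X.LC_sub h23 (h18 ▸ hw.2.2.1), h24.2.trans_lt (X.lim _ _ (X.lt_k.1 h23.2))⟩,
      X.H1_sub h22.1, h22.1.2.2.trans (X.hi_lt h23.2)⟩
  have h25 : ∀ y ∈ Y, E y (X.τ x) ⊆ up (X.k (k + 1)) (s₃.s k).h := fun y hy z hz =>
    ⟨h20 (Or.inr ((Prod.mk.inj (h8 y hy y₀ hy₀)).1.subset (show (X.τ x, z) ∈ _ from hz))),
      ((h1 y _).1 hz).1.1⟩
  have h26 : Z y (X.τ x) (stem k s₃ p, X.tr x (p.a k), (s₃.s k).d, lo (X.k (k + 1)) (s₃.s k).h)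
      (up (X.k (k + 1)) (s₃.s k).h) := by
    show Δ p (k + 1) (Function.update _ k ⟨_, _, _, lo (X.k (k + 1)) (s₃.s k).h ∪ _⟩) _ _
    rw [lo_union_up]; rwa [h21] at h15
  have h27 := hZ y' _ _ hi _ (h1 y' _) _ h22.2 (h25 y' hy') ((Prod.mk.inj (h8 y hy y' hy')).2.subset
    (show (X.τ x, _) ∈ _ from ⟨⟨h23.2, hi⟩, h3 y _ _ hi _ h22.2 (h25 y hy) h26⟩)).2
  have h28 : Δ p (k + 1) (stem (k + 1) s₃ p) (U y') true := by
    rw [h21, ← lo_union_up (X.k (k + 1)) (s₃.s k).h]; exact h27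
  obtain ⟨s₄, h29, h30⟩ := h28.2 s₃ (le_ap_stem (h16.trans h9.1) h17)
  exact ⟨s₄, h29.trans (h14.trans h11), h30⟩

theorem exists_hom_all (p : Cond X) {U : O → Cond X → Prop} (hU : ∀ y, Mono (U y)) :
    ∃ q, Lek 0 q p ∧ ∀ k, ∃ b ⊆ X.L, X.κ k ≤ #b ∧ (q.l ≤ k → Hom b U q) := by
  refine fusion (fun k q => ∃ b ⊆ X.L, X.κ k ≤ #b ∧ (q.l ≤ k → Hom b U q)) (fun k p => ?_)
    (fun k p q ⟨b, h1, h2, h3⟩ hq => ⟨b, h1, h2, fun hk y hy y' hy' s hs =>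
      h3 (hq.2.1 ▸ hk) y hy y' hy' s (hs.trans hq.1)⟩) p
  by_cases hk : p.l ≤ k
  · obtain ⟨q, h1, b, h2, h3, h4⟩ := exists_hom hk hU
    exact ⟨q, h1, b, h2, h3, fun _ => h4⟩
  · exact ⟨p, Lek.refl _ _, _, X.Iio_sub_L (le_refl (X.k k)), (X.mk_k k).ge, fun h => absurd h hk⟩

theorem polS_high [WellFoundedLT O] {μ : Cardinal.{0}} (hμ : μ.IsRegular) (h : μ ≤ s3 X.lam)
    (h' : succ X.lam < μ) (hlp : LP X μ) : PolS (Cond X) X.k (X.ini X.lam) (X.ini μ) := by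
  intro C hC p
  have h0 := X.aleph0_le_lam
  let J : Set (Set (ℕ × O)) := {F | F ⊆ Set.univ ×ˢ X.L ∧ ∀ n, X.κ n ≤ #{y | (n, y) ∈ F}}
  have hJ : #J < μ := (sm_mono (fun F hF => hF.1)
    (sm_pow (sm_prod h0 (sm_count h0 _) X.mk_L.le))).trans_lt (X.sch.trans_lt h')
  let G : O → Set (ℕ × O) → Cond X → Prop := fun α F s =>
    ∃ m, ∀ n, m ≤ n → Hom {y | (n, y) ∈ F} (C α) s
  have hG : ∀ α F, Mono (G α F) := fun α F p q hq ⟨m, hm⟩ =>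
    ⟨m, fun n hn y hy y' hy' s hs => hm n hn y hy y' hy' s (hs.trans hq)⟩
  have h1 : ∃ F ∈ J, ∃ q, q ≤ p ∧ ∀ γ < X.ini μ,
      Dns (fun s => ∃ α, γ ≤ α ∧ α < X.ini μ ∧ G α F s) q := by
    by_contra hc
    simp only [Dns, not_exists, not_and, not_forall] at hc
    obtain ⟨p', h1, h2⟩ := hlp _ J hJ (fun F => {r | ∃ γ < X.ini μ, ∀ s, s ≤ r → ∀ α, γ ≤ α →
      α < X.ini μ → ¬ G α F s}) (fun F r s hs ⟨γ, h1, h2⟩ => ⟨γ, h1, fun t ht => h2 t (ht.trans hs)⟩) p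
    choose! B h3 h4 h5 using h2
    have : Nonempty O := ⟨X.bot⟩
    choose! g h6 h7 using fun F (hF : F ∈ J) r (hr : r ∈ B F) => h3 F hF hr
    obtain ⟨γ, h8, h9⟩ := X.bounded hμ h (s := ⋃ F ∈ J, g F '' B F)
      (iUnion₂_subset fun F hF => image_subset_iff.2 fun r hr => h6 F hF r hr)
      ((card_biUnion_lt_iff_forall_of_isRegular (t := fun F _ => g F '' B F) hμ hJ).2
        fun F hF => mk_image_le.trans_lt (h4 F hF))
    obtain ⟨s, h10, h11⟩ := exists_hom_all p' (hC γ)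
    choose b h11 h12 h13 using h11
    have hF : {z : ℕ × O | z.2 ∈ b z.1} ∈ J := ⟨fun z hz => ⟨trivial, h11 _ hz⟩, h12⟩
    obtain ⟨δ, h14, r, h15, h16⟩ := hc _ hF s (h10.1.trans h1)
    obtain ⟨r', h17, t, h18, h19⟩ := h5 _ hF r (h15.trans h10.1) ⟨δ, h14, h16⟩
    exact h7 _ hF r' h17 t h19 γ (h9 _ (mem_biUnion hF (mem_image_of_mem _ h17))).le h8
      (hG _ _ _ _ (h18.trans h15) ⟨s.l, h13⟩)
  obtain ⟨F, hF, q, h2, h3⟩ := h1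
  refine ⟨q, h2, fun α => G α F, fun n y _ => (n, y) ∈ F, fun α => hG α F, fun _ _ _ _ _ h => h,
    h3, ⟨0, fun n _ => ?_⟩, fun α r _ ⟨m, hm⟩ => ⟨r, le_rfl, m,
      fun n hn y y' s hs hy hy' => hm n hn y hy y' hy' s hs⟩⟩
  obtain ⟨g, h15, h16, -⟩ := exists_injOn (s := Iio (X.k n)) (t := {y | (n, y) ∈ F})
    ((X.mk_k n).le.trans (hF.2 n)) X.bot
  exact ⟨fun x y _ => x < X.k n ∧ g x = y, ⟨fun _ _ _ _ _ h => h,
    fun x hx r _ => ⟨r, le_rfl, g x, (hF.1 (h16 hx)).2, hx, rfl⟩,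
    fun x x' y r h3 h4 => h15 h3.1 h4.1 (h3.2.trans h4.2.symm)⟩,
    fun z y _ h => h.2 ▸ h16 h.1⟩

theorem polS_low [WellFoundedLT O] (X : Ctx O) :
    PolS (Cond X) X.k (X.ini X.lam) (X.ini (succ X.lam)) := by
  intro C hC p
  have h0 := X.lam_reg.aleph0_le
  have hν : succ X.lam ≤ s3 X.lam := (succ_lt_s3 _).le
  obtain ⟨g₁, hg₁, hg₂, h1⟩ := lcc (Iio (X.ini (succ X.lam))) (X.mk_ini _ hν).le
    (fun α => {r : Cond X | ∀ k, r.l ≤ k → Tr k r (C α)}) p.hq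
  choose! B h1 h2 h3 using h1
  let T := ⋃ α ∈ Iio (X.ini (succ X.lam)), B α
  have hT : #T ≤ succ X.lam := sm_biUnion h0 (X.mk_ini _ hν).le h2
  let Ls := ⋃ r ∈ T, ⋃ k, X.St k r.a
  have hLs : #Ls ≤ succ X.lam := sm_biUnion h0 hT fun r _ => sm_iUnion h0 (mk_le_aleph0.trans h0)
    fun k => (r.mk_St k).trans (((X.σ_lt k).trans (X.lt_lam _)).le.trans (le_succ _))
  let W : O → Cond X → ℕ → (ℕ → Sm O) → Set O → Set (O × O) → O → Prop := fun α r k l x d γ =>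
    Δ r (k + 1) (Function.update l k ⟨X.τ x, X.tr x (r.a k), d, (r.s k).H (X.τ x)⟩)
      (C α (X.e x γ)) true
  let I := Iio (X.ini (succ X.lam)) ×ˢ T ×ˢ (Set.univ : Set ℕ) ×ˢ Ls ×ˢ 𝒫 (X.L ×ˢ X.L)
  have hI : #I ≤ succ X.lam := sm_prod h0 (X.mk_ini _ hν).le (sm_prod h0 hT (sm_prod h0
    (sm_count h0 _) (sm_prod h0 hLs ((sm_pow
      (sm_prod X.aleph0_le_lam X.mk_L.le X.mk_L.le)).trans X.sch.le))))
  let Z : O → O × Cond X × ℕ × (ℕ → Sm O) × Set (O × O) → Set (O × O) → Prop := fun γ i g =>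
    i.2.2.2.2 ∈ X.L1 i.2.2.1 X.lm ∧ ∀ᶠ x in (X.U i.2.2.1 : Filter (Set O)),
      W i.1 i.2.1 i.2.2.1 i.2.2.2.1 x (X.rf x (i.2.2.2.2 ∪ g)) γ
  have hZ : ∀ γ, ∀ i ∈ I, ∀ g ∈ X.QF, ∀ g' ∈ X.QF, g ⊆ g' → Z γ i g → Z γ i g' := by
    intro γ i hi g _ g' hg' h h'
    refine ⟨h'.1, ?_⟩
    filter_upwards [h'.2, X.ae_rf (Fn2.mk (fun z hz => (hi.2.2.2.2 hz).1)
      (fun z hz => (hg'.1 hz).1.1) h'.1 (by rwa [X.mk_lm]))] with x h1 h2
    exact h1.upd_mono (fun hs => ⟨hs.1, hs.2, hs.3, hs.4, h2, hs.6⟩) Subset.rfl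
      ⟨rfl, X.rf_mono x (union_subset_union_right _ h), Subset.rfl⟩
  choose G hG1 hG2 hG3 using fun γ => X.QF_ucl.reduce X.lam2_reg.aleph0_le I (lt_succ_of_le hI)
    (Z γ) (hZ γ) hg₁
  have h00 := h0.trans (cantor _).le
  obtain ⟨Y, -, h4, h5⟩ := exists_fiber (S := Iio (X.ini (s3 X.lam))) (isRegular_succ h00)
    (lt_succ_of_le (sm_prod h00 X.mk_QF (sm_pow hI))) (X.mk_ini _ le_rfl).ge
    (fun γ => (G γ, {i ∈ I | Z γ i (G γ)})) fun γ _ => ⟨hG1 γ, sep_subset _ _⟩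
  obtain ⟨y₀, hy₀⟩ : Y.Nonempty := by
    rw [← nonempty_coe_sort, ← mk_ne_zero_iff]
    exact ((isRegular_succ h00).pos.trans_le h4).ne'
  have h6 : ∀ n, ∃ b ⊆ Y \ Prod.fst '' p.f n, #b = X.κ n := fun n => by
    refine le_mk_iff_exists_subset.1 (not_lt.1 fun hc => ?_)
    refine absurd (h4.trans (sm_mono (subset_sdiff_union Y _) (sm_union X.aleph0_le_lam
      (hc.le.trans (X.lt_lam n).le) (sm_image _ (le_of_lt_succ (p.hf n).2.2))))) ?_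
    exact not_le.2 (lt_s3 _)
  choose b h7 h8 using h6
  have key : ∀ α < X.ini (succ X.lam), ∀ r ∈ B α, ∀ k, ∀ᶠ x in (X.U k : Filter (Set O)),
      ∀ γ ∈ b k, ∀ γ' ∈ b k, ∀ l ∈ X.St k r.a, ∀ d ∈ X.LC k (X.τ x), X.rf x (G y₀) ⊆ d →
        W α r k l x d γ → W α r k l x d γ' := by
    intro α hα r hr k
    have hb : #(b k) < X.κ (k + 1) := (h8 k).trans_lt (X.lt k)
    refine X.ae_all hb fun γ hγ => X.ae_all hb fun γ' hγ' =>
      X.ae_all ((r.mk_St k).trans_lt (X.σ_lt k)) fun l hl => ?_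
    by_contra hc
    rw [← Ultrafilter.eventually_not] at hc
    have h9 : ∀ x, ∃ d, ¬ (∀ d ∈ X.LC k (X.τ x), X.rf x (G y₀) ⊆ d →
        W α r k l x d γ → W α r k l x d γ') → d ∈ X.LC k (X.τ x) ∧ X.rf x (G y₀) ⊆ d ∧
          W α r k l x d γ ∧ ¬ W α r k l x d γ' := fun x => by
      by_cases h : ∀ d ∈ X.LC k (X.τ x), X.rf x (G y₀) ⊆ d → W α r k l x d γ → W α r k l x d γ'
      · exact ⟨∅, fun h' => absurd h h'⟩
      · push Not at h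
        obtain ⟨d, hd⟩ := h
        exact ⟨d, fun _ => hd⟩
    choose D hD using h9
    obtain ⟨c, h9, h10, h11⟩ := X.exists_rf (C := D) (hc.mono fun x hx => (hD x hx).1)
    have h12 : G y₀ ⊆ up X.lm c := fun z hz => ⟨h11 _ (Fn2.sub (Ctx.LC_union (X.LC_empty k _)
      (hG1 y₀) fun _ h => h.1.elim) subset_union_right) (hc.mono fun x hx => (hD x hx).2.1) hz,
      ((hG1 y₀).1 hz).1.1⟩
    have hr' : r ∈ T := mem_biUnion hα hr
    have hi : (α, r, k, l, lo X.lm c) ∈ I := ⟨hα, hr', trivial,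
      mem_biUnion hr' (mem_iUnion.2 ⟨k, hl⟩), fun z hz => ⟨hz.2, (h9.1.1 hz).2⟩⟩
    have e : ∀ γ ∈ b k, G γ ⊆ up X.lm c := fun γ hγ =>
      (Prod.mk.inj (h5 γ (h7 k hγ).1 y₀ hy₀)).1.subset.trans h12
    have h13 := hZ γ' _ hi _ (hG1 γ') _ (Ctx.up_mem h9) (e γ' hγ')
      ((Prod.mk.inj (h5 γ (h7 k hγ).1 γ' (h7 k hγ').1)).2.subset
        ⟨hi, hG3 γ _ hi _ (Ctx.up_mem h9) (e γ hγ) ⟨h9.1, (h10.and hc).mono fun x hx => by
          show W α r k l x (X.rf x (lo X.lm c ∪ up X.lm c)) γ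
          rw [lo_union_up, hx.1]; exact (hD x hx.2).2.2.1⟩⟩).2
    obtain ⟨x, h14, h15, h16⟩ := (h13.2.and (h10.and hc)).exists
    refine (hD x h16).2.2.2 ?_
    rw [← h15, ← lo_union_up X.lm c]; exact h14
  have hg₃ := hg₂.trans (hG2 y₀)
  let q : Cond X := ⟨p.l, p.f, fun n => {p.s n with
      a := p.a n ∪ {γ | p.l ≤ n ∧ γ ∈ b n},
      A := (p.s n).A ∩ {x | b n ⊆ x ∧ InjOn (X.e x) x}, c := (p.s n).c ∪ G y₀}, G y₀, hG1 y₀,
    fun n hn => Ctx.up_union_sub ((p.hg n hn).trans hg₃), p.hf,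
    fun n γ y hγ h => hγ.elim (fun h' => p.hd n γ y h' h) fun h' => (h7 n h'.2).2 ⟨_, h, rfl⟩,
    fun n hn => ⟨union_empty_iff.2 ⟨(p.hc n hn).1, eq_empty_of_forall_notMem fun γ h =>
      absurd h.1 (not_le.2 hn)⟩, (p.hc n hn).2⟩,
    fun n hn => ⟨lt_union (X.aleph0_le_κ _) (p.mk_a_lt n)
      ((mk_le_mk_of_subset fun _ h => h.2).trans_lt ((h8 n).trans_lt (X.lt n))),
      inter_mem (p.hu n hn).2.1 ((X.ae_sub ((h8 n).trans_lt (X.lt n))).and (X.ae_inj n)),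
      Ctx.LC_union (p.hu n hn).2.2.1 (hG1 y₀) ((p.hg n hn).trans hg₃), (p.hu n hn).2.2.2⟩⟩
  have hq : q ≤ p := ⟨le_rfl, fun _ => Subset.rfl, hg₃, fun n _ => ⟨rfl, Subset.rfl, Subset.rfl⟩,
    fun n h3 h4 => absurd h3 (not_le.2 h4),
    fun n _ => ⟨subset_union_left, inter_subset_left, subset_union_left, fun _ => Subset.rfl⟩⟩
  have hb : ∀ n, p.l ≤ n → b n ⊆ q.a n := fun n hn γ hγ => Or.inr ⟨hn, hγ⟩
  refine ⟨q, hq, fun α _ => α < X.ini (succ X.lam),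
    fun n y r => n < r.l ∧ ∃ γ ∈ b n, (γ, y) ∈ r.f n, fun _ _ _ _ h => h,
    fun n y r s hs ⟨h9, γ, h10, h11⟩ => ⟨h9.trans_le hs.l, γ, h10, hs.f n h11⟩,
    fun γ hγ r _ => ⟨r, le_rfl, γ, le_rfl, hγ, hγ⟩, ⟨p.l, fun n hn => ?_⟩, fun α r hr hα => ?_⟩
  · obtain ⟨g, h9, h10, -⟩ := exists_injOn (s := Iio (X.k n)) (t := b n)
      ((X.mk_k n).trans (h8 n).symm).le X.bot
    refine ⟨fun z y r => r ≤ q ∧ n < r.l ∧ z < X.k n ∧ (g z, y) ∈ r.f n,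
      ⟨fun z y r s hs h => ⟨hs.trans h.1, h.2.1.trans_le hs.l, h.2.2.1, hs.f n h.2.2.2⟩,
        fun z hz r hr => ?_, fun z z' y r h11 h12 => ?_⟩,
      fun z y r h => ⟨h.2.1, _, h10 h.2.2.1, h.2.2.2⟩⟩
    · obtain ⟨s, h11, h12⟩ := r.exists_len (n + 1)
      obtain ⟨x, -, -, h13, -⟩ := (h11.trans hr).cu n hn h12
      have h14 := h13 ⟨g z, hb n hn (h10 hz), rfl⟩
      exact ⟨s, h11, _, ((s.hf n).1 h14).2, h11.trans hr, h12, hz, h14⟩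
    · obtain ⟨x, h13, -, h14, -⟩ := h11.1.cu n hn h11.2.1
      have h15 := h10 h11.2.2.1
      have h16 := h10 h12.2.2.1
      refine h9 h11.2.2.1 h12.2.2.1 (h13.2.2 (h13.2.1 h15) (h13.2.1 h16) ?_)
      exact ((r.hf n).2.1 _ _ _ (h14 ⟨_, hb n hn h15, rfl⟩) h11.2.2.2).trans
        ((r.hf n).2.1 _ _ _ h12.2.2.2 (h14 ⟨_, hb n hn h16, rfl⟩))
  · obtain ⟨r₀, h9, h10⟩ := exists_tr_all r (C α)
    obtain ⟨r', h11, s₁, h12, h13⟩ := h3 α hα r₀ h10 ((hG2 y₀).trans (h9.1.trans hr).q)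
    obtain ⟨s₂, h14, h15⟩ := s₁.exists_shrink _ fun n _ => key α hα r' h11 n
    have h16 := h14.1.trans h13
    have h17 := h14.1.trans (h12.trans (h9.1.trans hr))
    refine ⟨s₂, h14.1.trans (h12.trans h9.1), s₂.l,
      fun n hn y y' s hs ⟨h18, γ, hγ, h19⟩ ⟨_, γ', hγ', h20⟩ hc s' h21 => ?_⟩
    obtain ⟨x, h22, h23, h24, h24', h25⟩ := hs.cu n hn h18
    have u1 := h16.uu n hn
    have u2 := h17.uu n hn
    have hn' : p.l ≤ n := h17.l.trans hn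
    obtain rfl := (s.hf n).2.1 _ _ _ h19 (h24 ⟨γ, u2.1 (hb n hn' hγ), rfl⟩)
    obtain rfl := (s.hf n).2.1 _ _ _ h20 (h24 ⟨γ', u2.1 (hb n hn' hγ'), rfl⟩)
    have htr := h1 α hα h11 n (h16.l.trans hn)
    have hg := htr.good x (u1.2.1 h22)
    have h26 := h21.trans (hs.trans h16)
    obtain ⟨s₃, h27, c, h28⟩ := htr.red.capture (lt_ini_s3 hg.1 (X.e_lt x γ)) (hC _ _) h26
      (h18.trans_le h21.l)
    have h29 := h27.trans h21
    have h30 : n + 1 ≤ s₃.l := h18.trans_le h29.l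
    obtain rfl := h28.eq_true (h27.trans h26) h30 (hC _ _ _ _ h29 hc)
    have h31 := h29.cc n h18
    have h32 := stem_succ (p := r') (h31.1.trans h23)
      ((X.tr_mono x u1.1).trans (h24.trans (h29.f n)))
    have hl := stem_mem (h27.trans h26) (Nat.le_of_succ_le h30)
    have h33 := h28.1.1 n (by omega)
    rw [h32] at h28 h33
    rw [Function.update_self] at h33
    have h34 : (r'.s n).H (X.τ x) ⊆ (s₃.s n).h := by
      rw [h23] at h25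
      exact (u1.2.2.2 _).trans (h25.trans h31.2.2)
    have h35 := h15 n (h14.2.1 ▸ hn) h22 γ hγ γ' hγ' _ hl _ h33.d
      ((X.rf_mono x (subset_union_right.trans u2.2.2.1)).trans (h24'.trans h31.2.1))
      (htr.hred _ hl _ h33 hg.2 h34 _ (X.e_lt x γ) _ h28)
    have h36 := Δ.upd_mono h35 (fun _ => h33) Subset.rfl ⟨rfl, Subset.rfl, h34⟩
    rw [← h32] at h36
    obtain ⟨s₄, h37, h38⟩ := h36.2 s₃ (le_ap_stem (h27.trans h26) h30)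
    exact ⟨s₄, h37.trans h27, h38⟩

theorem Ctx.eq_ini_nat (X : Ctx O) {x : O} {m : ℕ} (h : #(Iio x) = m) : x = X.ini m := by
  refine ((X.ini_le h.ge).lt_or_eq.resolve_left fun hc => ?_).symm
  have h1 : (m : Cardinal.{0}) ≤ s3 X.lam := natCast_lt_aleph0.le.trans (X.le_Lam X.aleph0_le_lam)
  have h2 := mk_le_mk_of_subset (show insert (X.ini m) (Iio (X.ini m)) ⊆ Iio x from
    insert_subset hc (Iio_subset_Iio hc.le))
  rw [mk_insert (s := Iio (X.ini m)) (lt_irrefl _), X.mk_ini _ h1, h] at h2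
  norm_cast at h2
  omega

noncomputable def Ctx.sys [WellFoundedLT O] (X : Ctx O) : PSys (Cond X) O where
  ne := inferInstance
  nat n := X.ini n
  w := X.k 0
  lam := X.ini X.lam
  kk := X.k
  top := X.ini (s3 X.lam)
  lt_nat x n := by
    have h1 : (n : Cardinal.{0}) ≤ s3 X.lam := natCast_lt_aleph0.le.trans (X.le_Lam X.aleph0_le_lam)
    refine ⟨fun h => ?_, ?_⟩
    · have h2 := (X.lt_ini _ h1 x).1 h
      obtain ⟨m, hm⟩ := lt_aleph0.1 (h2.trans natCast_lt_aleph0)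
      exact ⟨m, by rw [hm] at h2; exact_mod_cast h2, X.eq_ini_nat hm⟩
    · rintro ⟨m, hm, rfl⟩
      exact X.ini_lt_ini (by exact_mod_cast hm) h1
  lt_w x := by
    rw [X.lt_k, X.κ_zero]
    refine ⟨fun h => ?_, ?_⟩
    · obtain ⟨m, hm⟩ := lt_aleph0.1 h
      exact ⟨m, X.eq_ini_nat hm⟩
    · rintro ⟨m, rfl⟩
      rw [X.mk_ini _ (natCast_lt_aleph0.le.trans (X.le_Lam X.aleph0_le_lam))]
      exact natCast_lt_aleph0
  w_lt := X.k_mem_L 0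
  kk_lt := X.k_mem_L
  kk_mono _ _ := X.k_mono
  kk_cof x hx := (X.cof _ (X.mem_L.1 hx)).imp fun _ => X.lt_k.2
  le_top := X.le_top
  succ := succ_sys
  pow := pow_sys
  big ν hν := by
    rcases (X.ini_le (le_refl #(Iio ν))).lt_or_eq with h | h
    · exact Or.inl ⟨_, h, TI_of_le (X.mk_ini _ (X.mk_Iio_le ν)).ge⟩
    have h1 := X.mk_Iio_le ν
    have h2 : succ X.lam ≤ #(Iio ν) := succ_le_of_lt (not_le.1 fun hc =>
      absurd (h.symm.trans_le (X.ini_le_ini hc (le_s3 _))) (not_le.2 hν))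
    rw [← h]
    rcases h2.lt_or_eq with h3 | h3
    swap
    · rw [← h3]
      exact Or.inr ⟨regS_low X _, polS_low X⟩
    rcases (succ_le_of_lt h3).lt_or_eq with h4 | h4
    swap
    · rw [← h4]
      exact Or.inr ⟨regS_high X.lam2_reg (ss_lt_s3 _).le (LP_two X),
        polS_high X.lam2_reg (ss_lt_s3 _).le (lt_succ _) (LP_two X)⟩
    rcases h1.lt_or_eq with h5 | h5
    · exact Or.inl ⟨_, X.ini_lt_ini h4 h1, TI_top (X.ini_le_ini (le_of_lt_succ h5) (le_succ _))⟩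
    · have h6 := isRegular_succ (X.lam_reg.aleph0_le.trans (cantor _).le)
      rw [h5]
      exact Or.inr ⟨regS_high h6 le_rfl (LP_top X), polS_high h6 le_rfl (succ_lt_s3 _) (LP_top X)⟩

end Pool.Agent.Work.MP_58a5a1_lc
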