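import Pool.Agent.Work.MP_58a5a1_lc.Stem
import Pool.Agent.Work.MP_58a5a1_lc.Iface

/-! Reduction of decisions to stems and the Prikry property. -/

namespace Pool.Agent.Work.MP_58a5a1_lc
open Cardinal Set Order Filter

section general
variable {P : Type} [Preorder P]

def Dc (b : Bool) (U : P → Prop) (p : P) : Prop :=
  match b with
  | true => Dns U p
  | false => ∀ r, r ≤ p → ¬ U r

variable {b b' : Bool} {U : P → Prop} {p q : P}

theorem Dc.mono (h : Dc b U p) (hq : q ≤ p) : Dc b U q := by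
  cases b <;> exact fun r hr => h r (hr.trans hq)

theorem Dc.reg (hU : Mono U) (h : Dns (Dc b U) p) : Dc b U p := by
  cases b
  · intro r hr hu
    obtain ⟨s, h1, h2⟩ := h r hr
    exact h2 s le_rfl (hU _ _ h1 hu)
  · exact Dns.dns h

theorem Dc.eq_true (h : Dc b U p) (hu : U p) : b = true := by
  cases b
  · exact absurd hu (h p le_rfl)
  · rfl

theorem exists_dc (U : P → Prop) (p : P) : ∃ q, q ≤ p ∧ ∃ b, Dc b U q := by
  by_cases h : Dns U p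
  · exact ⟨p, le_rfl, true, h⟩
  · simp only [Dns, not_forall, not_exists, not_and] at h
    obtain ⟨r, hr, h⟩ := h
    exact ⟨r, hr, false, h⟩

end general

variable {O : Type} [LinearOrder O] {X : Ctx O}

namespace Cond

/-- `p` with the stem `t` decides `U`. -/
def Δ (p : Cond X) (k : ℕ) (t : ℕ → Sm O) (U : Cond X → Prop) (b : Bool) : Prop :=
  ∃ ht, Dc b U (p.ap k t ht)

theorem Δ.mono {p q : Cond X} {k t U b} (h : Δ p k t U b) (hq : Lek k q p) : Δ q k t U b := by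
  obtain ⟨ht, h⟩ := h
  exact ⟨hq.St ▸ ht, h.mono (hq.ap_le _ _)⟩

theorem Δ.upd_mono {p : Cond X} {k l U b} {s s' : Sm O} (h : Δ p (k + 1) (Function.update l k s) U b)
    (hs : X.SmV k (p.a k) s → X.SmV k (p.a k) s') (h1 : s.ν ⊆ s'.ν) (h2 : CC s'.rest s.rest) :
    Δ p (k + 1) (Function.update l k s') U b := by
  obtain ⟨ht, h⟩ := h
  have h3 := ht.1 k (by omega)
  rw [Function.update_self] at h3
  have h4 := Ctx.update_mem (Ctx.cut_mem ht) (hs h3)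
  rw [Function.update_idem, Function.update_idem] at h4
  refine ⟨h4, h.mono (ap_le_ap _ _ fun m _ => ?_)⟩
  by_cases h5 : m = k
  · subst h5; rw [Function.update_self, Function.update_self]; exact ⟨h1, h2⟩
  · rw [Function.update_of_ne h5, Function.update_of_ne h5]; exact ⟨Subset.rfl, CC.refl _⟩

def Red (k : ℕ) (p : Cond X) (U : O → Cond X → Prop) : Prop :=
  ∀ γ < X.ini (X.Γ k), ∀ t ht r b, r ≤ p.ap k t ht → r.l = max k p.l →
    (∀ m < k, (r.s m).d ⊆ (t m).d ∧ (r.s m).h ⊆ (t m).h) → Dc b (U γ) r → Dc b (U γ) (p.ap k t ht)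

theorem Red.mono {k p q U} (h : Red (X := X) k p U) (hq : Lek k q p) : Red k q U :=
  fun γ hγ t ht r b h1 h2 h3 h4 =>
    (h γ hγ t (hq.St ▸ ht) r b (h1.trans (hq.ap_le _ _)) (hq.2.1 ▸ h2) h3 h4).mono (hq.ap_le _ _)

theorem Red.pull {k p q U} (h : Red (X := X) k p U) (hq : Lek k q p) {γ}
    (hγ : γ < X.ini (X.Γ k)) {t b} (h1 : Δ q k t (U γ) b) : Δ p k t (U γ) b := by
  obtain ⟨ht, h1⟩ := h1
  refine ⟨hq.St ▸ ht, h γ hγ t _ _ b (hq.ap_le _ ht) (by rw [ap_l, hq.2.1]) (fun m hm => ?_) h1⟩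
  rw [ap_s_lt hm]; exact ⟨Subset.rfl, Subset.rfl⟩

theorem exists_red (k : ℕ) (p : Cond X) (U : O → Cond X → Prop) : ∃ q, Lek k q p ∧ Red k q U := by
  have h0 := (X.Γ_reg k).aleph0_le
  obtain ⟨q, h1, h2⟩ := reduce (Lek.refl k) (fun _ _ _ => Lek.trans) (X.θ_reg k).aleph0_le
    (closed_lek k) (Iio (X.ini (X.Γ k)) ×ˢ X.St k p.a ×ˢ (Set.univ : Set Bool))
    (lt_succ_of_le (sm_prod h0 (X.mk_ini _ (X.Γ_le_Lam k)).le (sm_prod h0
      ((p.mk_St k).trans (le_succ _)) (sm_count h0 _))))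
    (fun i q => Δ q k i.2.1 (U i.1) i.2.2) (fun i _ q r hr h => h.mono hr) p
  refine ⟨q, h1, fun γ hγ t ht r b h3 h4 h5 h6 => ?_⟩
  obtain ⟨q', h7, h8⟩ := absorb h3 h4 h5
  exact (h2 (γ, t, b) ⟨hγ, h1.St ▸ ht, trivial⟩ q' h7 ⟨h7.St ▸ ht, h6.mono (h8 _)⟩).2

section upd
variable {p : Cond X} {k : ℕ} {hk : p.l ≤ k} {r : Rest O} {hr : X.VU k r}
  {ha : (∀ γ y, γ ∈ r.a → (γ, y) ∉ p.f k) ∧ up X.lm r.c ⊆ p.q}

theorem upd_s : (p.upd k hk r hr ha).s k = r := Function.update_self ..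

theorem upd_a (h : r.a = p.a k) : (p.upd k hk r hr ha).a = p.a := by
  funext m
  show (Function.update p.s k r m).a = _
  by_cases hm : m = k
  · subst hm; rwa [Function.update_self]
  · rw [Function.update_of_ne hm]

theorem ap_upd {t ht ht'} : (p.upd k hk r hr ha).ap (k + 1) t ht' = p.ap (k + 1) t ht := by
  refine ext' rfl (fun _ => rfl) (fun n => ?_) rfl
  rcases lt_or_ge n (k + 1) with h | h
  · rw [ap_s_lt h, ap_s_lt h]
  · rw [ap_s_ge h, ap_s_ge h]; exact Function.update_of_ne (by omega) _ _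

theorem Δ_upd (h : r.a = p.a k) {t U b} :
    Δ (p.upd k hk r hr ha) (k + 1) t U b ↔ Δ p (k + 1) t U b :=
  ⟨fun ⟨ht, h1⟩ => ⟨upd_a h ▸ ht, by rwa [ap_upd] at h1⟩,
    fun ⟨ht, h1⟩ => ⟨(upd_a (hk := hk) (hr := hr) (ha := ha) h).symm ▸ ht, by rwa [ap_upd]⟩⟩

theorem Red.upd (h : r.a = p.a k) {U} (h1 : Red (k + 1) p U) :
    Red (k + 1) (p.upd k hk r hr ha) U := by
  intro γ hγ t ht s b
  have ht' : t ∈ X.St (k + 1) p.a := upd_a h ▸ ht
  rw [ap_upd (ht := ht')]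
  exact h1 γ hγ t ht' s b

end upd

def Hred (k : ℕ) (p : Cond X) (U : O → Cond X → Prop) : Prop :=
  ∀ l ∈ X.St k p.a, ∀ s : Sm O, X.SmV k (p.a k) s → #(p.a k) ≤ #(Iio s.τ) → (p.s k).H s.τ ⊆ s.h →
    ∀ γ < X.η s.τ, ∀ b, Δ p (k + 1) (Function.update l k s) (U γ) b →
      Δ p (k + 1) (Function.update l k ⟨s.τ, s.ν, s.d, (p.s k).H s.τ⟩) (U γ) b

structure Tr (k : ℕ) (p : Cond X) (U : O → Cond X → Prop) : Prop where
  red : Red (k + 1) p U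
  good : ∀ x ∈ (p.s k).A, X.Good k (X.τ x) ∧ #(p.a k) ≤ #(Iio (X.τ x))
  hred : Hred k p U

theorem lt_ini_s3 {k : ℕ} {t γ : O} (h : X.Good k t) (hγ : γ < X.η t) :
    γ < X.ini (X.Γ (k + 1)) :=
  (hγ.trans h.η_lt).trans_le (X.ini_le_ini (X.κ_le_Γ _) (X.Γ_le_Lam _))

theorem Tr.mono {k p q U} (h : Tr (X := X) k p U) (hq : Lek (k + 1) q p) : Tr k q U := by
  have h1 := hq.2.2 k (by omega)
  refine ⟨h.red.mono hq, by rw [a, h1]; exact h.good, fun l hl s h2 h3 h4 γ hγ b h5 => ?_⟩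
  rw [a, h1] at h2 h3
  rw [h1] at h4 ⊢
  exact (h.hred l ((hq.mono (Nat.le_succ k)).St ▸ hl) s h2 h3 h4 γ hγ b
    (h.red.pull hq (lt_ini_s3 h2.good hγ) h5)).mono hq

theorem Tr.upd {k} {p : Cond X} {U} (h : Tr k p U) {hk : p.l ≤ k} {r hr ha} (h1 : r.a = p.a k)
    (h2 : r.A ⊆ (p.s k).A) (h3 : r.H = (p.s k).H) : Tr k (p.upd k hk r hr ha) U := by
  refine ⟨h.red.upd h1, fun x hx => ?_, ?_⟩
  · rw [upd_s] at hx
    rw [upd_a h1]; exact h.good x (h2 hx)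
  · rw [Hred, upd_a h1, upd_s, h3]
    simp only [Δ_upd h1]
    exact h.hred

theorem exists_tr {k : ℕ} {p : Cond X} (hk : p.l ≤ k) (U : O → Cond X → Prop) :
    ∃ q, Lek k q p ∧ Tr k q U := by
  obtain ⟨p, hp, hred⟩ := exists_red (k + 1) p U
  replace hk : p.l ≤ k := hp.2.1 ▸ hk
  have hv := p.hu k hk
  have h1 : ∀ t, ∃ H ∈ X.HC k t, (p.s k).H t ⊆ H ∧ (X.Good k t → #(p.a k) ≤ #(Iio t) →
      ∀ l ∈ X.St k p.a, ∀ ν, ν ⊆ p.a k ×ˢ Iio (X.η t) ∧ #ν ≤ #(Iio t) →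
        ∀ d, d ⊆ Iio (X.η t) ×ˢ Iio (X.η t) ∧ #d ≤ succ #(Iio t) →
        ∀ γ < X.η t, ∀ b, ∀ h ∈ X.HC k t, H ⊆ h →
          Δ p (k + 1) (Function.update l k ⟨t, ν, d, h⟩) (U γ) b →
          Δ p (k + 1) (Function.update l k ⟨t, ν, d, H⟩) (U γ) b) := by
    intro t
    by_cases hc : X.Good k t ∧ #(p.a k) ≤ #(Iio t)
    swap
    · exact ⟨_, hv.2.2.2 t, Subset.rfl, fun h1 h2 => absurd ⟨h1, h2⟩ hc⟩
    have h0 : ℵ₀ ≤ #(Iio t) := (X.θ_reg k).aleph0_le.trans hc.1.1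
    have h1 := h0.trans (le_s3 _)
    have h2 := h0.trans (le_succ _)
    have h6 := hc.1.mk_η.le
    obtain ⟨H, h3, h4, h5⟩ := (X.HC_ucl' hc.1.2).reduce (X.hi_reg k t).aleph0_le
      (X.St k p.a ×ˢ {ν | ν ⊆ p.a k ×ˢ Iio (X.η t) ∧ #ν ≤ #(Iio t)} ×ˢ
        {d | d ⊆ Iio (X.η t) ×ˢ Iio (X.η t) ∧ #d ≤ succ #(Iio t)} ×ˢ
        Iio (X.η t) ×ˢ (Set.univ : Set Bool))
      (by
        rw [hc.1.hi_eq]
        exact lt_succ_of_le (sm_prod h1 ((p.mk_St k).trans ((X.σ_lt_θ k).le.trans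
          (hc.1.1.trans (le_s3 _)))) (sm_prod h1 (mk_small_succ h2 (le_succ _) (sm_prod h1
          (hc.2.trans (le_s3 _)) h6)) (sm_prod h1 (mk_small_succ h2 le_rfl (sm_prod h1 h6 h6))
          (sm_prod h1 h6 (sm_count h1 _))))))
      (fun i h => Δ p (k + 1) (Function.update i.1 k ⟨t, i.2.1, i.2.2.1, h⟩) (U i.2.2.2.1) i.2.2.2.2)
      (fun i _ c _ d hd hcd h => h.upd_mono (fun hs => ⟨hs.1, hs.2, hs.3, hs.4, hs.5, hd⟩)
        Subset.rfl ⟨rfl, Subset.rfl, hcd⟩) (hv.2.2.2 t)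
    exact ⟨H, h3, h4, fun _ _ l hl ν hν d hd γ hγ b =>
      h5 (l, ν, d, γ, b) ⟨hl, hν, hd, hγ, trivial⟩⟩
  choose H h2 h3 h4 using h1
  have h5 : ∀ᶠ x in (X.U k : Filter (Set O)), X.Good k (X.τ x) ∧ #(p.a k) ≤ #(Iio (X.τ x)) := by
    filter_upwards [X.ae_good k, X.ae_large k hv.1] with x h5 h6
    exact ⟨h5, by rwa [X.mk_τ]⟩
  let r : Rest O := {p.s k with
    A := (p.s k).A ∩ {x | X.Good k (X.τ x) ∧ #(p.a k) ≤ #(Iio (X.τ x))}, H := H}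
  have ha : r.a = p.a k := rfl
  refine ⟨p.upd k hk r ⟨hv.1, inter_mem hv.2.1 h5, hv.2.2.1, h2⟩ ⟨p.hd k, p.hg k hk⟩,
    (upd_lek (r := r) ⟨Subset.rfl, inter_subset_left, Subset.rfl, h3⟩).trans (hp.mono (Nat.le_succ k)),
    hred.upd ha, fun x hx => ?_, ?_⟩
  · rw [upd_s] at hx
    rw [upd_a ha]; exact hx.2
  · rw [Hred, upd_a ha, upd_s]
    simp only [Δ_upd ha]
    exact fun l hl s h6 h7 h8 γ hγ b => h4 s.τ h6.good h7 l hl s.ν
      ⟨h6.sub, (Fn.mk_le h6.func fun p hp => (h6.sub hp).1).trans h7⟩ s.d (X.LC_sub' h6.good h6.d)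
      γ hγ b s.h h6.h h8

theorem exists_tr_all (p : Cond X) (U : O → Cond X → Prop) :
    ∃ q, Lek 0 q p ∧ ∀ k, q.l ≤ k → Tr k q U := by
  refine fusion (fun k q => q.l ≤ k → Tr k q U) (fun k p => ?_)
    (fun k p q h hq hk => (h (hq.2.1 ▸ hk)).mono hq) p
  by_cases hk : p.l ≤ k
  · obtain ⟨q, h1, h2⟩ := exists_tr hk U
    exact ⟨q, h1, fun _ => h2⟩
  · exact ⟨p, Lek.refl _ _, fun h => absurd h hk⟩

structure Pr (k : ℕ) (p : Cond X) (U : Cond X → Prop) : Prop where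
  tr : Tr k p fun _ => U
  cred : ∀ x ∈ (p.s k).A, ∀ l ∈ X.St k p.a, ∀ d ∈ X.LC k (X.τ x), X.rf x (p.s k).c ⊆ d →
    ∀ b, Δ p (k + 1) (Function.update l k ⟨X.τ x, X.tr x (p.a k), d, (p.s k).H (X.τ x)⟩) U b →
      Δ p (k + 1) (Function.update l k (p.sm k x)) U b
  hom : ∀ x ∈ (p.s k).A, ∀ x' ∈ (p.s k).A, ∀ l ∈ X.St k p.a, ∀ b,
    Δ p (k + 1) (Function.update l k (p.sm k x)) U b →
      Δ p (k + 1) (Function.update l k (p.sm k x')) U b

theorem bot_lt_s3 (k : ℕ) : X.bot < X.ini (X.Γ k) :=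
  X.ini_lt_ini (X.Γ_reg k).pos (X.Γ_le_Lam k)

theorem Pr.mono {k p q U} (h : Pr (X := X) k p U) (hq : Lek (k + 1) q p) : Pr k q U := by
  have h1 := hq.2.2 k (by omega)
  have h2 := (hq.mono (Nat.le_succ k)).St
  have h3 : ∀ {t b}, Δ q (k + 1) t U b → Δ p (k + 1) t U b := h.tr.red.pull hq (bot_lt_s3 _)
  refine ⟨h.tr.mono hq, ?_, ?_⟩
  · simp only [sm, a, h1]
    exact fun x hx l hl d hd h4 b h5 => (h.cred x hx l (h2 ▸ hl) d hd h4 b (h3 h5)).mono hq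
  · simp only [sm, a, h1]
    exact fun x hx x' hx' l hl b h5 => (h.hom x hx x' hx' l (h2 ▸ hl) b (h3 h5)).mono hq

theorem exists_pr {k : ℕ} {p : Cond X} (hk : p.l ≤ k) (U : Cond X → Prop) :
    ∃ q, Lek k q p ∧ Pr k q U := by
  obtain ⟨p, hp, htr⟩ := exists_tr hk fun _ => U
  replace hk : p.l ≤ k := hp.2.1 ▸ hk
  have hv := p.hu k hk
  have h0 := X.aleph0_le_σ k
  let I := X.St k p.a ×ˢ (Set.univ : Set Bool)
  have hI : #I < X.θ k := (sm_prod h0 (p.mk_St k) (sm_count h0 _)).trans_lt (X.σ_lt_θ k)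
  let Z : Set O → (ℕ → Sm O) × Bool → Set (O × O) → Prop := fun x i d =>
    Δ p (k + 1) (Function.update i.1 k ⟨X.τ x, X.tr x (p.a k), d, (p.s k).H (X.τ x)⟩) U i.2
  have hc₀ := Ctx.LC_union hv.2.2.1 p.hq (p.hg k hk)
  have hae := (X.ae_good k).and (X.ae_rf hc₀)
  have h1 : ∀ x, ∃ C, X.Good k (X.τ x) ∧ X.rf x ((p.s k).c ∪ p.q) ∈ X.LC k (X.τ x) →
      C ∈ X.LC k (X.τ x) ∧ X.rf x ((p.s k).c ∪ p.q) ⊆ C ∧
      ∀ i ∈ I, ∀ d ∈ X.LC k (X.τ x), C ⊆ d → Z x i d → Z x i C := by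
    intro x
    by_cases hx : X.Good k (X.τ x) ∧ X.rf x ((p.s k).c ∪ p.q) ∈ X.LC k (X.τ x)
    · obtain ⟨C, h⟩ := (X.LC_ucl hx.1.1).reduce (X.θ_reg k).aleph0_le I hI (Z x)
        (fun i _ c _ d hd hcd h => h.upd_mono (fun hs => ⟨hs.1, hs.2, hs.3, hs.4, hd, hs.6⟩)
          Subset.rfl ⟨rfl, hcd, Subset.rfl⟩) hx.2
      exact ⟨C, fun _ => h⟩
    · exact ⟨∅, fun h => absurd h hx⟩
  choose C hC using h1
  obtain ⟨c, h2, h3, h4⟩ := X.exists_rf (C := C) (hae.mono fun x hx => (hC x hx).1)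
  have h5 : ∀ᶠ x in (X.U k : Filter (Set O)), ∀ i ∈ I,
      (Z x i (C x) ↔ ∀ᶠ y in (X.U k : Filter (Set O)), Z y i (C y)) := by
    refine X.ae_all (hI.trans (X.θ_lt k)) fun i _ => ?_
    rcases (X.U k).em (fun y => Z y i (C y)) with h | h
    · exact h.mono fun x hx => iff_of_true hx h
    · exact h.mono fun x hx => iff_of_false hx (Ultrafilter.eventually_not.1 h)
  have h6 := h4 _ hc₀ (hae.mono fun x hx => (hC x hx).2.1)
  let p' := p.wq (up X.lm c) (Ctx.up_mem h2) fun z hz => ⟨h6 (Or.inr hz), (p.hq.1 hz).1.1⟩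
  have hp' : Lek (k + 1) p' p := wq_lek _
  have hΔ : ∀ t b, Δ p' (k + 1) t U b ↔ Δ p (k + 1) t U b := fun t b =>
    ⟨htr.red.pull hp' (bot_lt_s3 _), fun h => h.mono hp'⟩
  let r : Rest O := {p.s k with
    A := (p.s k).A ∩ {x | (X.rf x c = C x ∧ ∀ i ∈ I,
      (Z x i (C x) ↔ ∀ᶠ y in (X.U k : Filter (Set O)), Z y i (C y))) ∧
      X.Good k (X.τ x) ∧ X.rf x ((p.s k).c ∪ p.q) ∈ X.LC k (X.τ x)}, c := c}
  have ha : r.a = p'.a k := rfl
  refine ⟨p'.upd k hk r ⟨hv.1, inter_mem hv.2.1 ((h3.and h5).and hae), h2, hv.2.2.2⟩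
      ⟨p.hd k, Subset.rfl⟩,
    (upd_lek (p := p') (r := r) ⟨Subset.rfl, inter_subset_left, subset_union_left.trans h6,
      fun _ => Subset.rfl⟩).trans ((hp'.mono (Nat.le_succ k)).trans hp),
    (htr.mono hp').upd ha inter_subset_left rfl, ?_, ?_⟩
  · rw [upd_a ha]
    simp only [sm, a, upd_s, Δ_upd ha, hΔ]
    intro x hx l hl d hd h6 b h7
    have h8 : X.rf x r.c = C x := hx.2.1.1
    rw [h8] at h6 ⊢
    exact (hC x hx.2.2).2.2 (l, b) ⟨hl, trivial⟩ d hd h6 h7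
  · rw [upd_a ha]
    simp only [sm, a, upd_s, Δ_upd ha, hΔ]
    intro x hx x' hx' l hl b h7
    have h8 : X.rf x r.c = C x := hx.2.1.1
    have h9 : X.rf x' r.c = C x' := hx'.2.1.1
    rw [h8] at h7
    rw [h9]
    exact (hx'.2.1.2 (l, b) ⟨hl, trivial⟩).2 ((hx.2.1.2 (l, b) ⟨hl, trivial⟩).1 h7)

theorem stem_succ {k : ℕ} {r p : Cond X} {x : Set O} (h1 : (r.s k).τ = X.τ x)
    (h2 : X.tr x (p.a k) ⊆ r.f k) : stem (k + 1) r p =
      Function.update (stem k r p) k ⟨X.τ x, X.tr x (p.a k), (r.s k).d, (r.s k).h⟩ := by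
  funext m
  by_cases hm : m = k
  · subst hm
    rw [Function.update_self, stem, if_pos (by omega), h1]
    congr 1
    refine Subset.antisymm ?_ ?_
    · rintro ⟨γ, y⟩ ⟨h3, h4, -⟩
      rw [(r.hf m).2.1 _ _ _ h3 (h2 ⟨γ, h4, rfl⟩)]
      exact ⟨γ, h4, rfl⟩
    · rintro _ ⟨γ, hγ, rfl⟩
      exact ⟨h2 ⟨γ, hγ, rfl⟩, hγ, trivial⟩
  · rw [Function.update_of_ne hm, stem, stem]
    by_cases h : m < k
    · rw [if_pos h, if_pos (by omega)]
    · rw [if_neg h, if_neg (by omega)]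

theorem Red.of_stem {k : ℕ} {p r : Cond X} {U} (h : Red k p U) {γ} (hγ : γ < X.ini (X.Γ k))
    (hr : r ≤ p) (hl : r.l = max k p.l) {b} (hb : Dc b (U γ) r) : Δ p k (stem k r p) (U γ) b := by
  have hk : k ≤ r.l := by omega
  refine ⟨stem_mem hr hk, h γ hγ _ _ r b (le_ap_stem hr hk) hl (fun m hm => ?_) hb⟩
  rw [Cond.stem, if_pos hm]; exact ⟨Subset.rfl, Subset.rfl⟩

/-- The Prikry property. -/
theorem prikry (p : Cond X) {U : Cond X → Prop} (hU : Mono U) :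
    ∃ q, Lek 0 q p ∧ ∃ b, Dc b U q := by
  obtain ⟨p, hp, h⟩ := fusion (fun k q => q.l ≤ k → Pr k q U) (fun k p => by
    by_cases hk : p.l ≤ k
    · obtain ⟨q, h1, h2⟩ := exists_pr hk U
      exact ⟨q, h1, fun _ => h2⟩
    · exact ⟨p, Lek.refl _ _, fun h => absurd h hk⟩)
    (fun k p q h hq hk => (h (hq.2.1 ▸ hk)).mono hq) p
  obtain ⟨s, hs, b, hb⟩ := exists_dc U p
  induction hn : s.l generalizing s with
  | zero => exact ⟨s, Lek.trans ⟨hs, by have := hs.l; omega, fun m hm => absurd hm (by omega)⟩ hp, b, hb⟩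
  | succ k ih =>
    by_cases hk : p.l ≤ k
    swap
    · exact ⟨s, Lek.trans ⟨hs, by have := hs.l; omega, fun m hm => absurd hm (by omega)⟩ hp, b, hb⟩
    have hpr := h k hk
    obtain ⟨x, hx, h1, h2, h3, h4⟩ := hs.cu k hk (by omega)
    have hv := s.hc k (by omega)
    have hl := stem_mem hs (show k ≤ s.l by omega)
    have h5 := hpr.tr.red.of_stem (bot_lt_s3 _) hs (by omega) hb
    have h6 := (stem_mem hs (show k + 1 ≤ s.l by omega)).1 k (by omega)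
    rw [stem_succ h1 h2] at h5 h6
    rw [Function.update_self] at h6
    have h7 := hpr.tr.hred _ hl _ h6 (hpr.tr.good x hx).2 (by rw [h1] at h4; exact h4) X.bot
      ((X.bot_le _).trans_lt (X.e_lt x X.bot)) b h5
    have h8 := hpr.cred x hx _ hl _ h6.d h3 b h7
    refine ih (p.ap k _ hl) (ap_stem_le hs (by omega)) (Dc.reg hU fun r hr => ?_) (by rw [ap_l]; omega)
    obtain ⟨r', h9, h10⟩ := r.exists_len (k + 1)
    obtain ⟨x', hx', h11, h12⟩ := exists_sm (h9.trans hr) hk h10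
    exact ⟨r', h9, (hpr.hom x hx x' hx' _ hl b h8).2.mono h12⟩

/-- Decisions are captured by stems. -/
theorem Red.capture {k : ℕ} {r s : Cond X} {U} (h : Red k r U) {γ} (hγ : γ < X.ini (X.Γ k))
    (hU : Mono (U γ)) (hs : s ≤ r) (hk : k ≤ s.l) :
    ∃ s', s' ≤ s ∧ ∃ b, Δ r k (Cond.stem k s' r) (U γ) b := by
  obtain ⟨u, h1, b, h2⟩ := prikry (r.ap k _ (stem_mem hs hk)) hU
  have h3 := h1.1.trans (ap_stem_le hs hk)
  have h4 : Fits k u (Cond.stem k s r) := fits_ap.mono h1.1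
  obtain ⟨ht, h5⟩ := h.of_stem hγ h3 h1.2.1 h2
  have h6 : ∀ m < k, CC (u.s m) (s.s m) := fun m hm => by
    have := (h4.2 m hm).2
    rwa [Cond.stem, if_pos hm] at this
  let s' : Cond X := ⟨s.l, s.f, fun m => if m < k then u.s m else s.s m, s.q, s.hq,
    fun m hm => by rw [if_neg (by omega)]; exact s.hg m hm, s.hf,
    fun m γ y hγ => by
      split_ifs at hγ with hm
      · rw [(u.hc m (hm.trans_le h4.1)).1] at hγ; exact hγ.elim
      · exact s.hd m γ y hγ,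
    fun m hm => by
      split_ifs with h
      · exact u.hc m (h.trans_le h4.1)
      · exact s.hc m hm,
    fun m hm => by rw [if_neg (by omega)]; exact s.hu m hm⟩
  have h7 : s' ≤ s := by
    refine ⟨le_rfl, fun _ => Subset.rfl, Subset.rfl, fun n _ => ?_,
      fun n h7 h8 => absurd h7 (not_le.2 h8),
      fun n hn => ?_⟩
    · show CC (if n < k then u.s n else s.s n) _
      split_ifs with h
      · exact h6 n h
      · exact CC.refl _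
    · show UU (if n < k then u.s n else s.s n) _
      rw [if_neg (not_lt.2 (hk.trans hn))]; exact UU.refl _
  refine ⟨s', h7, b, stem_mem (h7.trans hs) hk, h5.mono (ap_le_ap _ _ fun m hm => ?_)⟩
  have h8 : s'.s m = u.s m := if_pos hm
  have h9 := (h4.2 m hm).1
  have h10 := ((stem_mem hs hk).1 m hm).tot
  simp only [Cond.stem, if_pos hm, h8] at h9 h10 ⊢
  refine ⟨?_, CC.refl _⟩
  rintro ⟨γ, y⟩ ⟨h11, h12, -⟩
  obtain ⟨z, hz⟩ := h10 γ h12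
  rw [(u.hf m).2.1 _ _ _ h11 (h9 hz)]
  exact hz

end Cond

end Pool.Agent.Work.MP_58a5a1_lc
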