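import Pool.Agent.Work.MP_58a5a1_lc.Cond

/-! Stems and their application to conditions. -/

namespace Pool.Agent.Work.MP_58a5a1_lc
open Cardinal Set Order Filter

structure Sm (O : Type) where
  τ : O
  ν : Set (O × O)
  d : Set (O × O)
  h : Set (O × O)

variable {O : Type} [LinearOrder O] (X : Ctx O)

namespace Ctx

structure SmV (n : ℕ) (a : Set O) (s : Sm O) : Prop where
  good : X.Good n s.τ
  sub : s.ν ⊆ a ×ˢ Iio (X.η s.τ)
  func : ∀ i y y', (i, y) ∈ s.ν → (i, y') ∈ s.ν → y = y'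
  tot : ∀ γ ∈ a, ∃ y, (γ, y) ∈ s.ν
  d : s.d ∈ X.LC n s.τ
  h : s.h ∈ X.HC n s.τ

def dflt : Sm O := ⟨X.bot, ∅, ∅, ∅⟩

def St (k : ℕ) (a : ℕ → Set O) : Set (ℕ → Sm O) :=
  {t | (∀ m < k, t m ∈ {s | X.SmV m (a m) s}) ∧ ∀ m, k ≤ m → t m = X.dflt}

theorem LC_sub' {n : ℕ} {t : O} (h : X.Good n t) {d : Set (O × O)} (hd : d ∈ X.LC n t) :
    d ⊆ Iio (X.η t) ×ˢ Iio (X.η t) ∧ #d ≤ succ #(Iio t) := by
  have h1 := (X.s3_lt (X.lt_k.1 h.2)).le.trans (X.κ_le_Lam _)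
  have h2 : t < X.η t := (X.lt_ini _ h1 t).2 (lt_s3 _)
  rw [← lo_union_up t d]
  refine ⟨union_subset (fun p hp => ⟨hp.2.trans h2, (hd.1.1 hp).2.trans h2⟩) fun p hp =>
    ⟨(hd.2.1 hp).1.2.trans (X.ini_lt_ini (ss_lt_s3 _) h1),
      (hd.2.1 hp).2.trans (X.ini_lt_ini (lt_succ _) h1)⟩,
    sm_union ((X.θ_reg n).aleph0_le.trans (h.1.trans (le_succ _)))
      (hd.1.2.2.le.trans (h.1.trans (le_succ _))) (le_of_lt_succ hd.2.2.2)⟩

theorem LC_sub {n : ℕ} {t : O} (h : X.Good n t) {d : Set (O × O)} (hd : d ∈ X.LC n t) :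
    d ⊆ Iio (X.k (n + 1)) ×ˢ Iio (X.k (n + 1)) := fun _ hp =>
  ⟨((X.LC_sub' h hd).1 hp).1.trans h.η_lt, ((X.LC_sub' h hd).1 hp).2.trans h.η_lt⟩

theorem σ_le_Lam (n : ℕ) : X.σ n ≤ s3 X.lam := (X.σ_lt n).le.trans (X.κ_le_Lam _)

theorem H1_sub {n : ℕ} {t : O} {d : Set (O × O)} (hd : d ∈ X.H1 n t) :
    d ⊆ Iio (X.k (n + 1)) ×ˢ Iio (X.k (n + 1)) := fun _ hp =>
  ⟨(hd.1 hp).1.trans (X.ini_lt_ini (X.hi_lt (hd.1 hp).2.1) (X.κ_le_Lam _)), (hd.1 hp).2.2⟩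

theorem EC_sub {n : ℕ} {t : O} {d : Set (O × O)} (hd : d ∈ X.EC n t) :
    d ⊆ Iio (X.ini (X.σ (n + 1))) ×ˢ Iio (X.ini (X.σ (n + 1))) := fun _ hp =>
  ⟨(hd.1 hp).1.2.trans_le (X.ini_le_ini (succ_le_of_lt (cantor _)) (X.σ_le_Lam (n + 1))),
    (hd.1 hp).2.2⟩

theorem HC_sub {n : ℕ} {t : O} {d : Set (O × O)} (hd : d ∈ X.HC n t) :
    d ⊆ Iio (X.ini (X.σ (n + 1))) ×ˢ Iio (X.ini (X.σ (n + 1))) ∧ #d ≤ X.κ (n + 1) := by
  have h1 : X.k (n + 1) ≤ X.ini (X.σ (n + 1)) := X.ini_le_ini (X.κ_le_σ _) (X.σ_le_Lam _)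
  have h0 := X.aleph0_le_κ (n + 1)
  rw [← lo_union_up (X.k (n + 1)) d]
  exact ⟨union_subset (fun p hp => ⟨(X.H1_sub hd.1 hp).1.trans_le h1,
      (X.H1_sub hd.1 hp).2.trans_le h1⟩) (X.EC_sub hd.2),
    sm_union h0 (sm_mono (X.H1_sub hd.1) (sm_prod h0 (X.mk_k _).le (X.mk_k _).le))
      (le_of_lt_succ hd.2.2.2)⟩

theorem HC_lt {n : ℕ} {t : O} {d : Set (O × O)} (hd : d ∈ X.HC n t) {p : O × O} (hp : p ∈ d) :
    t < X.k (n + 1) := by
  rw [← lo_union_up (X.k (n + 1)) d] at hp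
  exact hp.elim (fun h => (hd.1.1 h).2.1) fun h => (hd.2.1 h).2.1

theorem mk_SmV {n : ℕ} {a : Set O} (ha : #a < X.κ (n + 1)) :
    #{s | X.SmV n a s} ≤ X.σ (n + 1) := by
  have h0 := X.aleph0_le_κ (n + 1)
  have h1 := X.aleph0_le_σ (n + 1)
  have h2 := (X.mk_k (n + 1)).le
  have h4 := (X.mk_ini _ (X.σ_le_Lam (n + 1))).le
  refine sm_inj (fun s : Sm O => (s.τ, s.ν, s.d, s.h)) ?_ ?_
    (sm_prod h1 (h2.trans (X.κ_le_σ _)) (sm_prod h1 (sm_pow (sm_prod h0 ha.le h2))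
      (sm_prod h1 (sm_pow (sm_prod h0 h2 h2)) (mk_small_pow h0 le_rfl (sm_prod h1 h4 h4)))))
  · rintro ⟨_, _, _, _⟩ _ ⟨_, _, _, _⟩ _ h
    simp only [Prod.mk.injEq] at h
    obtain ⟨rfl, rfl, rfl, rfl⟩ := h
    rfl
  · intro s hs
    exact ⟨hs.good.2, fun p hp => ⟨(hs.sub hp).1, (hs.sub hp).2.trans hs.good.η_lt⟩,
      X.LC_sub hs.good hs.d, X.HC_sub hs.h⟩

theorem mk_St {k : ℕ} {a : ℕ → Set O} (ha : ∀ m, #(a m) < X.κ (m + 1)) :
    #(X.St k a) ≤ X.σ k :=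
  sm_seq (X.aleph0_le_σ k) _ _ k fun m hm => (X.mk_SmV (ha m)).trans (X.σ_mono hm)

variable {X}

theorem update_mem {k : ℕ} {a : ℕ → Set O} {l : ℕ → Sm O} (hl : l ∈ X.St k a) {s : Sm O}
    (hs : X.SmV k (a k) s) : Function.update l k s ∈ X.St (k + 1) a := by
  refine ⟨fun m hm => ?_, fun m hm => ?_⟩
  · by_cases h : m = k
    · subst h; rwa [Function.update_self]
    · rw [Function.update_of_ne h]; exact hl.1 m (by omega)
  · rw [Function.update_of_ne (by omega)]; exact hl.2 m (by omega)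

theorem cut_mem {k : ℕ} {a : ℕ → Set O} {t : ℕ → Sm O} (ht : t ∈ X.St (k + 1) a) :
    Function.update t k X.dflt ∈ X.St k a := by
  refine ⟨fun m hm => ?_, fun m hm => ?_⟩
  · rw [Function.update_of_ne hm.ne]; exact ht.1 m (by omega)
  · by_cases h : m = k
    · subst h; rw [Function.update_self]
    · rw [Function.update_of_ne h]; exact ht.2 m (by omega)

theorem St_congr {k : ℕ} {a b : ℕ → Set O} (h : ∀ m < k, a m = b m) : X.St k a = X.St k b := by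
  ext t
  exact and_congr_left fun _ => forall₂_congr fun m hm => by rw [h m hm]

end Ctx

variable {X}

omit [LinearOrder O] in
def Sm.rest (s : Sm O) : Rest O := ⟨s.τ, s.d, s.h, ∅, ∅, ∅, fun _ => ∅⟩

namespace Cond

abbrev a (p : Cond X) (m : ℕ) : Set O := (p.s m).a

theorem mk_St (p : Cond X) (k : ℕ) : #(X.St k p.a) ≤ X.σ k := X.mk_St p.mk_a_lt

/-- The condition `p` with the stem `t` below level `k`. -/
def ap (p : Cond X) (k : ℕ) (t : ℕ → Sm O) (ht : t ∈ X.St k p.a) : Cond X where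
  l := max k p.l
  f m := if m < k then p.f m ∪ (t m).ν else p.f m
  s m := if m < k then (t m).rest else p.s m
  q := p.q
  hq := p.hq
  hg m hm := by
    rw [if_neg (by omega)]; exact p.hg m (by omega)
  hf m := by
    split_ifs with h
    · have hs : X.SmV m (p.a m) (t m) := ht.1 m h
      refine ⟨union_subset (p.hf m).1 fun q hq => ⟨trivial, X.Iio_sub_L hs.good.η_lt.le (hs.sub hq).2⟩,
        ?_, lt_union X.lam_reg.aleph0_le (p.hf m).2.2 (lt_succ_of_le (sm_mono hs.sub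
          (sm_prod X.aleph0_le_lam ((p.mk_a_lt m).le.trans (X.lt_lam _).le)
            ((X.lt_k.1 hs.good.η_lt).le.trans (X.lt_lam _).le))))⟩
      rintro i y y' (h1 | h1) (h2 | h2)
      · exact (p.hf m).2.1 _ _ _ h1 h2
      · exact absurd h1 (p.hd m _ _ (hs.sub h2).1)
      · exact absurd h2 (p.hd m _ _ (hs.sub h1).1)
      · exact hs.func _ _ _ h1 h2
    · exact p.hf m
  hd m γ y h := by
    split_ifs at h ⊢ with h'
    · exact h.elim
    · exact p.hd m γ y h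
  hc m hm := by
    split_ifs with h
    · have hs : X.SmV m (p.a m) (t m) := ht.1 m h
      exact ⟨rfl, hs.good, hs.d, hs.h⟩
    · exact p.hc m (by omega)
  hu m hm := by
    rw [if_neg (by omega)]; exact p.hu m (by omega)

section
variable {p : Cond X} {k : ℕ} {t : ℕ → Sm O} {ht : t ∈ X.St k p.a} {m : ℕ}
theorem ap_l : (p.ap k t ht).l = max k p.l := rfl
theorem ap_f_lt (h : m < k) : (p.ap k t ht).f m = p.f m ∪ (t m).ν := if_pos h
theorem ap_f_ge (h : k ≤ m) : (p.ap k t ht).f m = p.f m := if_neg (not_lt.2 h)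
theorem ap_s_lt (h : m < k) : (p.ap k t ht).s m = (t m).rest := if_pos h
theorem ap_s_ge (h : k ≤ m) : (p.ap k t ht).s m = p.s m := if_neg (not_lt.2 h)
end

def Fits (k : ℕ) (r : Cond X) (t : ℕ → Sm O) : Prop :=
  k ≤ r.l ∧ ∀ m < k, (t m).ν ⊆ r.f m ∧ CC (r.s m) (t m).rest

structure Above (k : ℕ) (r p : Cond X) : Prop where
  l : p.l ≤ r.l
  f : ∀ n, p.f n ⊆ r.f n
  q : p.q ⊆ r.q
  cc : ∀ n, k ≤ n → n < p.l → CC (r.s n) (p.s n)
  cu : ∀ n, k ≤ n → p.l ≤ n → n < r.l → X.CU (r.f n) (r.s n) (p.s n)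
  uu : ∀ n, k ≤ n → r.l ≤ n → UU (r.s n) (p.s n)

theorem above_of_le {r p : Cond X} (h : r ≤ p) (k : ℕ) : Above k r p :=
  ⟨h.l, h.f, h.q, fun n _ => h.cc n, fun n _ => h.cu n, fun n _ => h.uu n⟩

theorem Fits.mono {k : ℕ} {r s : Cond X} {t} (h : Fits k r t) (hs : s ≤ r) : Fits k s t :=
  ⟨h.1.trans hs.l, fun m hm => ⟨(h.2 m hm).1.trans (hs.f m),
    (hs.cc m (hm.trans_le h.1)).trans (h.2 m hm).2⟩⟩

theorem fits_ap {p : Cond X} {k t ht} : Fits k (p.ap k t ht) t :=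
  ⟨le_max_left _ _, fun m hm => by
    rw [ap_f_lt hm, ap_s_lt hm]; exact ⟨subset_union_right, CC.refl _⟩⟩

theorem le_ap {r p : Cond X} {k t} (ht : t ∈ X.St k p.a) (h1 : Fits k r t) (h2 : Above k r p) :
    r ≤ p.ap k t ht := by
  refine ⟨max_le h1.1 h2.l, fun n => ?_, h2.q, fun n hn => ?_, fun n h3 h4 => ?_, fun n hn => ?_⟩
  · rcases lt_or_ge n k with h | h
    · rw [ap_f_lt h]; exact union_subset (h2.f n) (h1.2 n h).1
    · rw [ap_f_ge h]; exact h2.f n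
  · rcases lt_or_ge n k with h | h
    · rw [ap_s_lt h]; exact (h1.2 n h).2
    · rw [ap_s_ge h]; exact h2.cc n h (by rw [ap_l] at hn; omega)
  · rw [ap_l] at h3
    rw [ap_s_ge (by omega)]; exact h2.cu n (by omega) (by omega) h4
  · have := h1.1
    rw [ap_s_ge (by omega)]; exact h2.uu n (by omega) hn

theorem above_of_le_ap {r p : Cond X} {k t ht} (h : r ≤ p.ap k t ht) : Above k r p := by
  refine ⟨(le_max_right _ _).trans h.l, fun n => Subset.trans ?_ (h.f n), h.q, fun n h1 h2 => ?_,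
    fun n h1 h2 h3 => ?_, fun n h1 h2 => ?_⟩
  · rcases lt_or_ge n k with h | h
    · rw [ap_f_lt h]; exact subset_union_left
    · rw [ap_f_ge h]
  · have := h.cc n (by rw [ap_l]; omega)
    rwa [ap_s_ge h1] at this
  · have := h.cu n (by rw [ap_l]; omega) h3
    rwa [ap_s_ge h1] at this
  · have := h.uu n h2
    rwa [ap_s_ge h1] at this

theorem ap_le_ap {p : Cond X} {k t t'} (ht : t ∈ X.St k p.a) (ht' : t' ∈ X.St k p.a)
    (h : ∀ m < k, (t m).ν ⊆ (t' m).ν ∧ CC (t' m).rest (t m).rest) :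
    p.ap k t' ht' ≤ p.ap k t ht :=
  le_ap ht ⟨le_max_left _ _, fun m hm => by
    rw [ap_f_lt hm, ap_s_lt hm]; exact ⟨(h m hm).1.trans subset_union_right, (h m hm).2⟩⟩
    (above_of_le_ap le_rfl)

theorem Lek.St {k : ℕ} {p q : Cond X} (h : Lek k q p) : X.St k q.a = X.St k p.a :=
  Ctx.St_congr fun m hm => congrArg Rest.a (h.2.2 m hm)

theorem Lek.ap_le {k : ℕ} {p q : Cond X} (h : Lek k q p) {t} (ht : t ∈ X.St k p.a)
    (ht' : t ∈ X.St k q.a) : q.ap k t ht' ≤ p.ap k t ht := by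
  have h1 : Above k (q.ap k t ht') q := above_of_le_ap le_rfl
  have h2 := h.2.1
  refine le_ap ht fits_ap ⟨h.1.l.trans h1.l, fun n => (h.1.f n).trans (h1.f n), h.1.q,
    fun n h3 h4 => ?_,
    fun n h3 h4 h5 => ?_, fun n h3 h4 => ?_⟩
  · rw [ap_s_ge h3]; exact h.1.cc n h4
  · rw [ap_l] at h5; omega
  · rw [ap_s_ge h3]; exact h.1.uu n (by rw [ap_l] at h4; omega)

/-- The stem of `r` over `p`. -/
def stem (k : ℕ) (r p : Cond X) : ℕ → Sm O := fun m =>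
  if m < k then ⟨(r.s m).τ, r.f m ∩ p.a m ×ˢ Set.univ, (r.s m).d, (r.s m).h⟩ else X.dflt

theorem stem_mem {k : ℕ} {r p : Cond X} (h : r ≤ p) (hk : k ≤ r.l) : stem k r p ∈ X.St k p.a := by
  refine ⟨fun m hm => ?_, fun m hm => if_neg (not_lt.2 hm)⟩
  have hv := r.hc m (hm.trans_le hk)
  rw [stem, if_pos hm]
  refine ⟨hv.2.1, ?_, fun i y y' h1 h2 => (r.hf m).2.1 _ _ _ h1.1 h2.1, fun γ hγ => ?_,
    hv.2.2.1, hv.2.2.2⟩
  · rintro ⟨γ, y⟩ ⟨h1, h2, -⟩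
    by_cases hl : m < p.l
    · rw [a, (p.hc m hl).1] at h2; exact h2.elim
    · obtain ⟨x, -, h3, h4, -⟩ := h.cu m (not_lt.1 hl) (hm.trans_le hk)
      refine ⟨h2, ?_⟩
      rw [(r.hf m).2.1 _ _ _ h1 (h4 ⟨γ, h2, rfl⟩)]
      show X.e x γ < X.η (r.s m).τ
      rw [h3]; exact X.e_lt x γ
  · by_cases hl : m < p.l
    · rw [a, (p.hc m hl).1] at hγ; exact hγ.elim
    · obtain ⟨x, -, h3, h4, -⟩ := h.cu m (not_lt.1 hl) (hm.trans_le hk)
      exact ⟨_, h4 ⟨γ, hγ, rfl⟩, hγ, trivial⟩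

theorem fits_stem {k : ℕ} {r : Cond X} (p : Cond X) (hk : k ≤ r.l) : Fits k r (stem k r p) :=
  ⟨hk, fun m hm => by
    rw [stem, if_pos hm]; exact ⟨inter_subset_left, rfl, Subset.rfl, Subset.rfl⟩⟩

theorem le_ap_stem {k : ℕ} {r p : Cond X} (h : r ≤ p) (hk : k ≤ r.l) :
    r ≤ p.ap k _ (stem_mem h hk) := le_ap _ (fits_stem p hk) (above_of_le h k)

theorem ap_stem_le {k : ℕ} {r p : Cond X} (h : r ≤ p) (hk : k ≤ r.l) :
    p.ap k _ (stem_mem h hk) ≤ p := by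
  have h1 : Above k (p.ap k _ (stem_mem h hk)) p := above_of_le_ap le_rfl
  refine ⟨h1.l, h1.f, h1.q, fun n hn => ?_, fun n h2 h3 => ?_,
    fun n hn => h1.uu n (by rw [ap_l] at hn; omega) hn⟩
  · rcases lt_or_ge n k with h2 | h2
    · rw [ap_s_lt h2, stem, if_pos h2]; exact h.cc n hn
    · exact h1.cc n h2 hn
  · rw [ap_l] at h3
    have h4 : n < k := by omega
    obtain ⟨x, hx, h5, h6, h7⟩ := h.cu n h2 (h4.trans_le hk)
    rw [ap_s_lt h4, ap_f_lt h4, stem, if_pos h4]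
    refine ⟨x, hx, h5, fun q hq => Or.inr ⟨h6 hq, ?_, trivial⟩, h7⟩
    obtain ⟨γ, hγ, rfl⟩ := hq
    exact hγ

theorem absorb {r p : Cond X} {k t ht} (h : r ≤ p.ap k t ht) (hl : r.l = max k p.l)
    (hs : ∀ m < k, (r.s m).d ⊆ (t m).d ∧ (r.s m).h ⊆ (t m).h) :
    ∃ q, Lek k q p ∧ ∀ ht', q.ap k t ht' ≤ r := by
  have h1 := above_of_le_ap h
  have h2 : Fits k r t := fits_ap.mono h
  let q : Cond X := ⟨p.l, fun m => if m < k then r.f m \ (t m).ν else r.f m,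
    fun m => if m < k then p.s m else r.s m, r.q, r.hq,
    fun m hm => by
      split_ifs
      · exact (p.hg m hm).trans h1.q
      · exact r.hg m (by omega),
    fun m => by
      split_ifs
      · exact Fn.sub (r.hf m) sdiff_subset
      · exact r.hf m,
    fun m γ y hγ => by
      split_ifs at hγ ⊢ with hm
      · rintro ⟨h3, h4⟩
        obtain ⟨z, hz⟩ := (ht.1 m hm).tot γ hγ
        exact h4 ((r.hf m).2.1 _ _ _ ((h2.2 m hm).1 hz) h3 ▸ hz)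
      · exact r.hd m γ y hγ,
    fun m hm => by
      split_ifs
      · exact p.hc m hm
      · exact r.hc m (by omega),
    fun m hm => by
      split_ifs
      · exact p.hu m hm
      · exact r.hu m (by omega)⟩
  have hf1 : ∀ m < k, q.f m = r.f m \ (t m).ν := fun m hm => if_pos hm
  have hf2 : ∀ m, k ≤ m → q.f m = r.f m := fun m hm => if_neg (not_lt.2 hm)
  have hs1 : ∀ m < k, q.s m = p.s m := fun m hm => if_pos hm
  have hs2 : ∀ m, k ≤ m → q.s m = r.s m := fun m hm => if_neg (not_lt.2 hm)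
  have hql : q.l = p.l := rfl
  refine ⟨q, ⟨⟨le_rfl, fun n => ?_, h1.q, fun n hn => ?_, fun n h3 h4 => absurd h3 (not_le.2 h4),
    fun n hn => ?_⟩, rfl, hs1⟩, fun ht' => ⟨hl.le, fun n => ?_, Subset.rfl, fun n hn => ?_,
      fun n h3 h4 => absurd (hl.symm.trans_le h3) (not_le.2 h4), fun n hn => ?_⟩⟩
  · rcases lt_or_ge n k with h3 | h3
    · rw [hf1 n h3]
      exact fun z hz => ⟨h1.f n hz, fun h4 => p.hd n z.1 z.2 ((ht.1 n h3).sub h4).1 hz⟩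
    · rw [hf2 n h3]; exact h1.f n
  · rcases lt_or_ge n k with h3 | h3
    · rw [hs1 n h3]; exact CC.refl _
    · rw [hs2 n h3]; exact h1.cc n h3 hn
  · rcases lt_or_ge n k with h3 | h3
    · rw [hs1 n h3]; exact UU.refl _
    · rw [hs2 n h3]; exact h1.uu n h3 (by omega)
  · rcases lt_or_ge n k with h3 | h3
    · rw [ap_f_lt h3, hf1 n h3]; exact subset_sdiff_union _ _
    · rw [ap_f_ge h3, hf2 n h3]
  · rcases lt_or_ge n k with h3 | h3
    · rw [ap_s_lt h3]; exact ⟨(h2.2 n h3).2.1.symm, hs n h3⟩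
    · rw [ap_s_ge h3, hs2 n h3]; exact CC.refl _
  · rw [ap_l] at hn
    rw [ap_s_ge (by omega), hs2 n (by omega)]; exact UU.refl _

/-- The small data of the one-step extension by `x` at level `k`. -/
noncomputable def sm (p : Cond X) (k : ℕ) (x : Set O) : Sm O :=
  ⟨X.τ x, X.tr x (p.a k), X.rf x (p.s k).c, (p.s k).H (X.τ x)⟩

theorem sm_valid {p : Cond X} {k : ℕ} (hk : p.l ≤ k) {x : Set O} (hx : X.Good k (X.τ x) ∧
    X.rf x (p.s k).c ∈ X.LC k (X.τ x)) : X.SmV k (p.a k) (p.sm k x) := by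
  refine ⟨hx.1, ?_, ?_, fun γ hγ => ⟨_, γ, hγ, rfl⟩, hx.2,
    (p.hu k hk).2.2.2 _⟩
  · rintro _ ⟨γ, hγ, rfl⟩
    exact ⟨hγ, X.e_lt x γ⟩
  · rintro i y y' ⟨γ, _, h1⟩ ⟨γ', _, h2⟩
    obtain ⟨rfl, rfl⟩ := Prod.mk.inj h1
    obtain ⟨rfl, rfl⟩ := Prod.mk.inj h2
    rfl

theorem exists_sm {r p : Cond X} {k l hl} (h : r ≤ p.ap k l hl) (hk : p.l ≤ k) (hr : k < r.l) :
    ∃ x ∈ (p.s k).A, ∃ hx,
      r ≤ p.ap (k + 1) _ (Ctx.update_mem hl (sm_valid (x := x) hk hx)) := by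
  have h1 := above_of_le_ap h
  have h2 : Fits k r l := fits_ap.mono h
  obtain ⟨x, hx, h3, h4, h5, h6⟩ := h1.cu k le_rfl hk hr
  refine ⟨x, hx, ⟨h3 ▸ (r.hc k hr).2.1, h3 ▸ Fn2.sub (r.hc k hr).2.2.1 h5⟩,
    le_ap _ ⟨hr, fun m hm => ?_⟩
    ⟨h1.l, h1.f, h1.q, fun n hn => h1.cc n (by omega), fun n hn => h1.cu n (by omega),
      fun n hn => h1.uu n (by omega)⟩⟩
  by_cases h7 : m = k
  · subst h7
    rw [Function.update_self]
    exact ⟨h4, h3, h5, by rw [h3] at h6; exact h6⟩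
  · rw [Function.update_of_ne h7]; exact h2.2 m (by omega)

theorem exists_succ (p : Cond X) : ∃ q, q ≤ p ∧ q.l = p.l + 1 := by
  obtain ⟨x, h1, h2⟩ := (((X.ae_good p.l).and (X.ae_rf (p.hu p.l le_rfl).2.2.1)).and
    (p.hu p.l le_rfl).2.1).exists
  have ht := Ctx.update_mem (stem_mem (le_refl p) le_rfl) (sm_valid le_rfl h1)
  have h3 : Above (p.l + 1) (p.ap _ _ ht) p := above_of_le_ap le_rfl
  refine ⟨p.ap _ _ ht, ⟨h3.l, h3.f, h3.q, fun n hn => ?_, fun n h4 h5 => ?_,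
    fun n hn => h3.uu n (by rw [ap_l] at hn; omega) hn⟩, by rw [ap_l]; omega⟩
  · rw [ap_s_lt (by omega), Function.update_of_ne hn.ne, stem, if_pos hn]
    exact ⟨rfl, Subset.rfl, Subset.rfl⟩
  · rw [ap_l] at h5
    obtain rfl : n = p.l := by omega
    rw [ap_s_lt (by omega), ap_f_lt (by omega), Function.update_self]
    exact ⟨x, h2, rfl, subset_union_right, Subset.rfl, Subset.rfl⟩

theorem exists_len (p : Cond X) (n : ℕ) : ∃ q, q ≤ p ∧ n ≤ q.l := by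
  induction n with
  | zero => exact ⟨p, le_rfl, Nat.zero_le _⟩
  | succ n ih =>
    obtain ⟨q, h1, h2⟩ := ih
    obtain ⟨r, h3, h4⟩ := q.exists_succ
    exact ⟨r, h3.trans h1, by omega⟩

end Cond

end Pool.Agent.Work.MP_58a5a1_lc
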